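import Pool.Agent.H436.HP.Two

/-!
# Two moves in one direction: relative algebraic closedness (helper436)
-/

set_option autoImplicit false

namespace Pool.Agent.H436.HP

open Polynomial

/-- A homomorphism between the fields generated by algebraically independent elements. -/
lemma lift {F Ω L ι : Type*} [Field F] [Field Ω] [Algebra F Ω] [Field L] [Algebra F L]
    {x : ι → Ω} {y : ι → L} (hx : AlgebraicIndependent F x) (hy : AlgebraicIndependent F y) :
    ∃ Ψ : IntermediateField.adjoin F (Set.range x) →ₐ[F] L,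
      (∀ i, Ψ ⟨x i, IntermediateField.subset_adjoin _ _ ⟨i, rfl⟩⟩ = y i) ∧
      ∀ z, Ψ z ∈ IntermediateField.adjoin F (Set.range y) := by
  let e1 := hx.aevalEquivField
  let e2 := hy.aevalEquivField
  refine ⟨(IntermediateField.val _).comp ((e1.symm.trans e2).toAlgHom), fun i => ?_, fun z =>
    Subtype.property _⟩
  have h1 : e1 (algebraMap (MvPolynomial ι F) (FractionRing (MvPolynomial ι F))
      (MvPolynomial.X i)) = ⟨x i, IntermediateField.subset_adjoin _ _ ⟨i, rfl⟩⟩ := by
    apply Subtype.ext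
    rw [hx.aevalEquivField_algebraMap_apply_coe, MvPolynomial.aeval_X]
  rw [← h1]
  change ((e2 (e1.symm (e1 _)) : IntermediateField.adjoin F (Set.range y)) : L) = y i
  rw [AlgEquiv.symm_apply_apply, hy.aevalEquivField_algebraMap_apply_coe, MvPolynomial.aeval_X]

/-- The transfer of relative algebraic closedness from the field of power series. -/
theorem core {F Ω B κ : Type*} [Field F] [Field Ω] [Algebra F Ω] [Field B] [Algebra F B]
    [Field κ] [Algebra B κ] [Algebra F κ] [IsScalarTower F B κ] {f : F[X]} {a c : F}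
    {t1 t2 : FractionRing (PowerSeries κ)} {TR : PowerSeries κ}
    (hind : AlgebraicIndependent B (fun o : Option Unit => o.elim t2 (fun _ => t1)))
    (hm : m2 f a c t1 t2 = algebraMap _ _ TR)
    (htr : Transcendental B (PowerSeries.constantCoeff TR))
    (htop : IntermediateField.adjoin B {PowerSeries.constantCoeff TR} = ⊤) {s1 s2 : Ω}
    (hs : AlgebraicIndependent F (fun o : Option Unit => o.elim s2 (fun _ => s1))) :
    Transcendental F (m2 f a c s1 s2) ∧
    m2 f a c s1 s2 ∈ IntermediateField.adjoin F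
      (Set.range (fun o : Option Unit => o.elim s2 (fun _ => s1))) ∧
    ∀ e ∈ IntermediateField.adjoin F (Set.range (fun o : Option Unit => o.elim s2 (fun _ => s1))),
      IsAlgebraic (IntermediateField.adjoin F {m2 f a c s1 s2}) e →
      e ∈ IntermediateField.adjoin F {m2 f a c s1 s2} := by
  obtain ⟨x, hx⟩ : ∃ x : Option Unit → Ω, x = fun o => o.elim s2 (fun _ => s1) := ⟨_, rfl⟩
  obtain ⟨y, hy⟩ : ∃ y : Option Unit → FractionRing (PowerSeries κ),
    y = fun o => o.elim t2 (fun _ => t1) := ⟨_, rfl⟩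
  rw [← hx] at hs ⊢
  rw [← hy] at hind
  have hyF : AlgebraicIndependent F y := hind.restrictScalars (algebraMap F B).injective
  obtain ⟨Ψ, hΨ, hΨm⟩ := lift hs hyF
  obtain ⟨u1, hu1⟩ : ∃ u1 : IntermediateField.adjoin F (Set.range x), (u1 : Ω) = s1 ∧ Ψ u1 = t1 :=
    ⟨⟨x (some ()), IntermediateField.subset_adjoin _ _ ⟨some (), rfl⟩⟩, by rw [hx]; rfl, by
      rw [hΨ, hy]; rfl⟩
  obtain ⟨u2, hu2⟩ : ∃ u2 : IntermediateField.adjoin F (Set.range x), (u2 : Ω) = s2 ∧ Ψ u2 = t2 :=
    ⟨⟨x none, IntermediateField.subset_adjoin _ _ ⟨none, rfl⟩⟩, by rw [hx]; rfl, by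
      rw [hΨ, hy]; rfl⟩
  obtain ⟨M, hM⟩ : ∃ M, M = m2 f a c s1 s2 := ⟨_, rfl⟩
  obtain ⟨M', hM'⟩ : ∃ M' : IntermediateField.adjoin F (Set.range x), M' = m2 f a c u1 u2 :=
    ⟨_, rfl⟩
  have hMM : (M' : Ω) = M := by
    have h2 := m2_map (IntermediateField.adjoin F (Set.range x)).val f a c u1 u2
    rw [hM', hM, ← hu1.1, ← hu2.1]
    exact h2
  obtain ⟨T, hT⟩ : ∃ T : FractionRing (PowerSeries κ), T = algebraMap (PowerSeries κ) _ TR :=
    ⟨_, rfl⟩
  have hΨM : Ψ M' = T := by rw [hM', m2_map, hu1.2, hu2.2, hm, hT]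
  have hTB : Transcendental B T := by
    rw [hT, transcendental_algebraMap_iff (IsFractionRing.injective (PowerSeries κ) _)]
    rintro ⟨p, hp, h0⟩
    refine htr ⟨p, hp, ?_⟩
    have h3 := Polynomial.hom_eval₂ p (algebraMap B (PowerSeries κ))
      (PowerSeries.constantCoeff (R := κ)) TR
    rw [← aeval_def, h0, map_zero] at h3
    rw [aeval_def, h3]
    congr 1
  have hTF : Transcendental F T := fun h => hTB (h.tower_top B)
  have hMF : Transcendental F M := by
    intro h
    apply hTF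
    rw [← hΨM]
    refine IsAlgebraic.algHom Ψ ?_
    rw [← hMM] at h
    exact (isAlgebraic_algebraMap_iff (A := Ω)
      (algebraMap (IntermediateField.adjoin F (Set.range x)) Ω).injective).1 h
  rw [← hM]
  refine ⟨hMF, hMM ▸ M'.2, fun e he hal => ?_⟩
  obtain ⟨P, hP, hPe⟩ := exists_biv hal
  obtain ⟨e', he'⟩ : ∃ e' : IntermediateField.adjoin F (Set.range x), (e' : Ω) = e :=
    ⟨⟨e, he⟩, rfl⟩
  -- the relation in the field of power series
  have h3 : P.eval₂ (aeval M' : F[X] →ₐ[F] _).toRingHom e' = 0 := by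
    apply (algebraMap (IntermediateField.adjoin F (Set.range x)) Ω).injective
    rw [map_zero, hom_eval₂, ← hPe, ← he']
    congr 1
    refine RingHom.ext fun p => ?_
    change algebraMap _ Ω (aeval M' p) = aeval M p
    rw [← hMM]
    exact (aeval_algebraMap_apply Ω M' p).symm
  have h4 : P.eval₂ (aeval T : F[X] →ₐ[F] FractionRing (PowerSeries κ)).toRingHom (Ψ e') = 0 := by
    have h5 := Polynomial.hom_eval₂ P (aeval M' : F[X] →ₐ[F] _).toRingHom Ψ.toRingHom e'
    rw [h3, map_zero] at h5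
    refine Eq.trans ?_ h5.symm
    congr 1
    refine RingHom.ext fun p => ?_
    change aeval T p = Ψ (aeval M' p)
    rw [← hΨM]
    exact aeval_algHom_apply Ψ M' p
  have h6 : (P.map (mapRingHom (algebraMap F B))).eval₂
      (aeval T : B[X] →ₐ[B] FractionRing (PowerSeries κ)).toRingHom (Ψ e') = 0 := by
    rw [eval₂_map, ← h4]
    congr 1
    refine RingHom.ext fun p => ?_
    change aeval T (p.map (algebraMap F B)) = aeval T p
    exact aeval_map_algebraMap B T p
  have h7 : P.map (mapRingHom (algebraMap F B)) ≠ 0 := by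
    rw [Ne, Polynomial.map_eq_zero_iff (Polynomial.map_injective _ (algebraMap F B).injective)]
    exact hP
  rw [hT] at h6
  obtain ⟨p, q, hq, hpq⟩ := rc1 TR htr htop h7 h6
  rw [← hT] at hpq
  have h8 : Ψ e' ∈ IntermediateField.adjoin F {T} :=
    descend hind (hΨm e') (hΨM ▸ hΨm M') hTB hq hpq
  rw [IntermediateField.mem_adjoin_simple_iff] at h8 ⊢
  obtain ⟨r, w, hrw⟩ := h8
  refine ⟨r, w, ?_⟩
  have h9 : e' = aeval M' r / aeval M' w := by
    apply Ψ.injective
    change Ψ e' = Ψ _
    rw [hrw, map_div₀, ← aeval_algHom_apply, ← aeval_algHom_apply, hΨM]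
  have h10 := congrArg (algebraMap (IntermediateField.adjoin F (Set.range x)) Ω) h9
  rw [map_div₀, ← aeval_algebraMap_apply, ← aeval_algebraMap_apply] at h10
  rw [← hMM, ← he']
  exact h10

/-- **Two moves.** The field generated by the new coordinate is relatively algebraically closed. -/
theorem two {F Ω : Type*} [Field F] [CharZero F] [Field Ω] [Algebra F Ω] {f : F[X]} {a c : F}
    (ha : a ≠ 0) (h0 : tc f c 0 ≠ 0) (h1 : tc f c 1 ≠ 0) (hw : vec 0 (Gs (tc f c)) 2 ≠ 0)
    (hb : ∃ b : AlgebraicClosure F, aeval b f = 0 ∧ aeval b (derivative f) ≠ 0) {s1 s2 : Ω}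
    (hs : AlgebraicIndependent F (fun o : Option Unit => o.elim s2 (fun _ => s1))) :
    Transcendental F (m2 f a c s1 s2) ∧
    m2 f a c s1 s2 ∈ IntermediateField.adjoin F
      (Set.range (fun o : Option Unit => o.elim s2 (fun _ => s1))) ∧
    ∀ e ∈ IntermediateField.adjoin F (Set.range (fun o : Option Unit => o.elim s2 (fun _ => s1))),
      IsAlgebraic (IntermediateField.adjoin F {m2 f a c s1 s2}) e →
      e ∈ IntermediateField.adjoin F {m2 f a c s1 s2} := by
  obtain ⟨b, hb, hb'⟩ := hb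
  obtain ⟨t1, t2, TR, hind, hm, htr, htop⟩ := twoL ha h0 h1 hw hb hb'
  exact core hind hm htr htop hs

end Pool.Agent.H436.HP
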