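import Pool.Agent.H436.HP.Gen
import Pool.Graph.R_seed8.TH178.HI.Fin3
import Pool.Graph.R_seed8.W560.HP.Fin2
import Pool.Graph.R_seed8.W376.HP.NRM

/-!
# Schemes birational to conic bundles of degree at most eight (helper436)
-/

set_option autoImplicit false

namespace Pool.Agent.H436.HP

open AlgebraicGeometry CategoryTheory W560.HP Pool.Agent.TH178.HI

/-- `K` embeds over `k` in the field of rational functions in some finite number of variables, such
that all elements of the latter which are algebraic over the image are in the image. -/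
def RegUni (k K : Type) [Field k] [Field K] [Algebra k K] : Prop :=
  ∃ (N : ℕ) (φ : K →ₐ[k] FractionRing (MvPolynomial (Fin N) k)),
    ∀ z : FractionRing (MvPolynomial (Fin N) k), IsAlgebraic φ.fieldRange z → z ∈ φ.fieldRange

/-- Being algebraic over the image of an embedding. -/
lemma alg_iff {k K M : Type} [Field k] [Field K] [Algebra k K] [Field M] [Algebra k M]
    (φ : K →ₐ[k] M) (z : M) : IsAlgebraic φ.fieldRange z ↔
      ∃ p : Polynomial K, p ≠ 0 ∧ p.eval₂ (φ : K →+* M) z = 0 := by
  let e : K ≃ₐ[k] φ.fieldRange := AlgEquiv.ofInjectiveField φ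
  have he : ∀ a, algebraMap φ.fieldRange M (e a) = φ a := fun a => rfl
  constructor
  · rintro ⟨p, hp, h0⟩
    refine ⟨p.map (e.symm : φ.fieldRange →+* K), ?_, ?_⟩
    · rwa [Ne, Polynomial.map_eq_zero]
    · rw [Polynomial.eval₂_map]
      rw [Polynomial.aeval_def] at h0
      rw [← h0]
      congr 1
      ext u
      obtain ⟨a, rfl⟩ := e.surjective u
      show φ (e.symm (e a)) = _
      rw [AlgEquiv.symm_apply_apply, he]
  · rintro ⟨p, hp, h0⟩
    refine ⟨p.map (e : K →+* φ.fieldRange), ?_, ?_⟩
    · rwa [Ne, Polynomial.map_eq_zero]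
    · rw [Polynomial.aeval_def, Polynomial.eval₂_map, ← h0]
      congr 1

/-- From the intrinsic form to the field of rational functions. -/
lemma of_realizable {k K : Type} [Field k] [Field K] [Algebra k K]
    (h : Realizable k K) : RegUni k K := by
  classical
  obtain ⟨E, _, _, Ω, y, ⟨ι, hι, x, hx, hΩ⟩, hle, hcl⟩ := h
  have := Fintype.ofFinite ι
  let e0 : ι ≃ Fin (Fintype.card ι) := Fintype.equivFin ι
  let x' : Fin (Fintype.card ι) → E := x ∘ e0.symm
  have hx' : AlgebraicIndependent k x' := hx.comp e0.symm e0.symm.injective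
  have hr : Set.range x' = Set.range x := by
    rw [Set.range_comp, e0.symm.surjective.range_eq, Set.image_univ]
  have hadj : IntermediateField.adjoin k (Set.range x') = Ω := by rw [hr, hΩ]
  let e1 := hx'.aevalEquivField
  let j : FractionRing (MvPolynomial (Fin (Fintype.card ι)) k) →ₐ[k] E :=
    (IntermediateField.val _).comp e1.toAlgHom
  have hjΩ : ∀ z, j z ∈ Ω := by
    intro z
    rw [← hadj]
    exact (e1 z).2
  have hle' : y.fieldRange ≤ IntermediateField.adjoin k (Set.range x') := by rw [hadj]; exact hle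
  let φ : K →ₐ[k] FractionRing (MvPolynomial (Fin (Fintype.card ι)) k) :=
    (e1.symm.toAlgHom.comp (IntermediateField.inclusion hle')).comp
      (AlgEquiv.ofInjectiveField y).toAlgHom
  have hjφ : ∀ a, j (φ a) = y a := by
    intro a
    show ((e1 (e1.symm (IntermediateField.inclusion hle' (AlgEquiv.ofInjectiveField y a))) :
      IntermediateField.adjoin k (Set.range x')) : E) = y a
    rw [AlgEquiv.apply_symm_apply]
    rfl
  refine ⟨Fintype.card ι, φ, fun z hz => ?_⟩
  rw [alg_iff] at hz
  obtain ⟨p, hp, h0⟩ := hz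
  have h1 : p.eval₂ (y : K →+* E) (j z) = 0 := by
    have h2 := Polynomial.hom_eval₂ p (φ : K →+* _) (j : _ →+* E) z
    have h3 : ((j : FractionRing (MvPolynomial (Fin (Fintype.card ι)) k) →+* E).comp
        (φ : K →+* FractionRing (MvPolynomial (Fin (Fintype.card ι)) k))) = (y : K →+* E) := by
      ext a
      exact hjφ a
    rw [h3, h0, map_zero] at h2
    exact h2.symm
  obtain ⟨a, ha⟩ := hcl (j z) (hjΩ z) ((alg_iff y (j z)).2 ⟨p, hp, h1⟩)
  refine ⟨a, ?_⟩
  apply j.injective
  exact (hjφ a).trans ha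

/-- There is a point outside of the hypersurface `h = 0` such that the fibre over it has a rational
point. -/
def GoodPoint {k : Type} [Field k] {n : ℕ} (a f h : MvPolynomial (Fin n) k) : Prop :=
  ∃ c : Fin n → k, MvPolynomial.eval c h ≠ 0 ∧ Split a f c

/-- From a place of the function field to a good point. -/
lemma goodPoint_of_place {k : Type} [Field k] {n : ℕ} {a f h : MvPolynomial (Fin n) k}
    {K : Type} [Field K] [Algebra k K] (hK : IsCoverField k (cbp a f) K)
    (hp : ∀ y : Option (Option (Fin (n + 1))) → K, ∃ a : Option (Option (Fin (n + 1))) → k,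
      ∀ P : MvPolynomial (Option (Option (Fin (n + 1)))) k,
        MvPolynomial.aeval y P = 0 → MvPolynomial.eval a P = 0) (hh : h ≠ 0) :
    GoodPoint a f h := by
  obtain ⟨b, w, h1, h2⟩ := point_of_place hK hp (G := MvPolynomial.rename Fin.castSucc h)
    (fun h0 => hh (MvPolynomial.rename_injective _ (Fin.castSucc_injective n) (by
      rw [h0, map_zero])))
  refine ⟨b ∘ Fin.castSucc, by rwa [MvPolynomial.eval_rename] at h2, w, b (Fin.last n), 1,
    fun h3 => one_ne_zero h3.2.2, ?_⟩
  rw [h1, cbp, map_add, map_mul, map_pow, MvPolynomial.eval_rename, MvPolynomial.eval_rename,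
    MvPolynomial.eval_X]
  ring

theorem scheme_thm {k : Type} [Field k] [CharZero k]
    (hk : ∃ S : Finset k, IntermediateField.adjoin ℚ (S : Set k) = ⊤) {n : ℕ}
    {a f h : MvPolynomial (Fin n) k} (hh : h ≠ 0)
    (hR : GoodPoint a f h → ∀ (K : Type) [Field K] [Algebra k K], IsCoverField k (cbp a f) K →
      Realizable k K) (X : Scheme.{0}) [IsIntegral X]
    (p : X ⟶ Spec (CommRingCat.of k)) [LocallyOfFiniteType p]
    (hX : BirationalToCover k (cbp a f) X p) :
    [DensePoints k X p, GoodPoint a f h, HilbertProperty k X p, UnirationalScheme k X p].TFAE := by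
  obtain ⟨S, hS⟩ := hk
  have hN : HilbNR k := Pool.Agent.W405.HP.hit k (Pool.Agent.W583.HP.fg k S hS)
  obtain ⟨K, _, _, hK, e, he⟩ := hX
  tfae_have 1 → 2 := fun hd => goodPoint_of_place hK (fun y =>
    exists_place k X p hd K e he y) hh
  tfae_have 2 → 3 := fun h =>
    Pool.Agent.W253.HP.sch k X p K e he ((hR h K hK).hpf hN)
  tfae_have 2 → 4 := fun h => by
    obtain ⟨N, φ, -⟩ := of_realizable (hR h K hK)
    refine ⟨Fin N, inferInstance, (φ : K →+* FractionRing (MvPolynomial (Fin N) k)).comp
      (e : X.functionField →+* K), fun b => ?_⟩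
    change φ (e (toFF k X p b)) = _
    rw [he b, AlgHom.commutes]
  tfae_have 3 → 1 := by
    intro h
    refine (h 0 (fun i => i.elim0) (fun i => i.elim0) (fun i => i.elim0) (fun i => i.elim0)
      (fun i => i.elim0) (fun i => i.elim0)).mono ?_
    rintro x ⟨s, hs, hx, -⟩
    exact ⟨s, hs, hx⟩
  tfae_have 4 → 2 := fun ⟨ι, hι, φ, hφ⟩ => by
    refine goodPoint_of_place hK (fun y => ?_) hh
    let M := FractionRing (MvPolynomial ι k)
    have hM : HPF k M := by
      have h1 : Realizable k M := by
        refine ⟨M, inferInstance, inferInstance, ⊤, AlgHom.id k M, pure_frac k ι, le_top, ?_⟩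
        intro x _ _
        exact ⟨x, rfl⟩
      exact h1.hpf hN
    let ψ : K →ₐ[k] M :=
      { φ.comp (e.symm : K →+* X.functionField) with
        commutes' := fun a => by
          show φ (e.symm (algebraMap k K a)) = _
          rw [← he a, RingEquiv.symm_apply_apply]
          exact hφ a }
    classical
    obtain ⟨B, θ, -, hB, -, -⟩ := hM 0 (fun i => i.elim0) (fun i => i.elim0)
      (Finset.univ.image fun o => ψ (y o))
    have hy : ∀ o, ψ (y o) ∈ B := fun o => hB (by
      rw [Finset.coe_image]
      exact ⟨o, Finset.mem_coe.mpr (Finset.mem_univ o), rfl⟩)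
    let y' : Option (Option (Fin (n + 1))) → B := fun o => ⟨ψ (y o), hy o⟩
    refine ⟨fun o => θ (y' o), fun P hP => ?_⟩
    have h1 : MvPolynomial.aeval y' P = 0 := by
      apply Subtype.ext
      have h2 : B.val (MvPolynomial.aeval y' P) =
          MvPolynomial.aeval (fun o => B.val (y' o)) P :=
        DFunLike.congr_fun (MvPolynomial.comp_aeval (f := y') B.val) P
      have h3 : ψ (MvPolynomial.aeval y P) = MvPolynomial.aeval (fun o => ψ (y o)) P :=
        DFunLike.congr_fun (MvPolynomial.comp_aeval (f := y) ψ) P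
      have h4 : B.val (MvPolynomial.aeval y' P) = ψ (MvPolynomial.aeval y P) := h2.trans h3.symm
      rw [hP, map_zero] at h4
      exact h4
    have h5 : θ (MvPolynomial.aeval y' P) = MvPolynomial.aeval (fun o => θ (y' o)) P :=
      DFunLike.congr_fun (MvPolynomial.comp_aeval (f := y') θ) P
    rw [h1, map_zero] at h5
    exact h5.symm
  tfae_finish

/-- **The main theorem.** -/
theorem main_thm (k : Type) [Field k] [CharZero k] (n : ℕ) (a f : MvPolynomial (Fin n) k)
    (ha : a ≠ 0) (hf : f ≠ 0)
    (hdis : ∀ j, MvPolynomial.degreeOf j a = 0 ∨ MvPolynomial.degreeOf j f = 0)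
    (hda : ∀ j, MvPolynomial.degreeOf j a ≤ 8) (hdf : ∀ j, MvPolynomial.degreeOf j f ≤ 8) :
    ∃ h : MvPolynomial (Fin n) k, h ≠ 0 ∧
      (GoodPoint a f h → ∀ (K : Type) [Field K] [Algebra k K], IsCoverField k (cbp a f) K →
        RegUni k K) ∧
      ((∃ S : Finset k, IntermediateField.adjoin ℚ (S : Set k) = ⊤) →
        ∀ (X : Scheme.{0}) [IsIntegral X] (p : X ⟶ Spec (CommRingCat.of k))
          [LocallyOfFiniteType p], BirationalToCover k (cbp a f) X p →
          [DensePoints k X p, GoodPoint a f h, HilbertProperty k X p,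
            UnirationalScheme k X p].TFAE ∧
          ((∀ x : X, IsIntegrallyClosed (X.presheaf.stalk x)) → DensePoints k X p →
            HilbertPropertyIso k X p)) := by
  obtain ⟨h, hh, h1⟩ := field_thm ha hf (fun j => by
    rcases hdis j with h | h
    · exact Or.inl fun h' => (MvPolynomial.mem_vars_iff_degreeOf_ne_zero.1 h') h
    · exact Or.inr fun h' => (MvPolynomial.mem_vars_iff_degreeOf_ne_zero.1 h') h) hda hdf
  refine ⟨h, hh, ?_, fun hk X _ p _ hX => ?_⟩
  · rintro ⟨c, hc, hs⟩ K _ _ hK
    exact of_realizable (h1 c hc hs K hK)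
  · have h2 := scheme_thm hk hh (fun ⟨c, hc, hs⟩ K _ _ hK => h1 c hc hs K hK) X p hX
    exact ⟨h2, fun h3 h4 => iso_of_hp Pool.Agent.W376.HP.nrm k X p h3 ((h2.out 0 2).mp h4)⟩

end Pool.Agent.H436.HP
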