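import Mathlib

/-!
# The point moved along a conic bundle of degree eight (helper436)

For a polynomial with the Taylor coefficients `g k` at a point (`k ≤ 8`, `g 0 ≠ 0`, `g 1 ≠ 0`) and
`A ≠ 0` the value at the increment `64 (g 0 / g 1) A J n7 / NN` is `g 0` times a norm `R² - A S²`.
-/

set_option autoImplicit false

namespace Pool.Agent.H436.HP

section defs

variable {R : Type*} [CommRing R]

/-- a coefficient; `v 0 = A`, `v i = f (i + 1)` for `i = 1, ..., 7` -/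
def dJ (v : Fin 8 → R) : R := 8 * (2 * v 4 + v 2 * (v 0 - v 1))

/-- a coefficient -/
def dI (v : Fin 8 → R) : R :=
  4 * v 0 * (v 1 + v 0) ^ 2 + 8 * (v 1 + v 0) * v 3 - 2 * (v 1 + v 0) ^ 3 + 4 * v 2 ^ 2 -
    16 * v 5 - v 0 * (v 1 + 3 * v 0) ^ 2

/-- a coefficient -/
def d3 (v : Fin 8 → R) : R := v 2 * dJ v - 2 * v 0 * dI v

/-- a coefficient -/
def d4 (v : Fin 8 → R) : R :=
  (4 * v 3 - (v 1 + v 0) ^ 2 + 2 * v 0 * (v 1 - v 0)) * dJ v ^ 2 + 4 * v 0 * dI v ^ 2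

/-- a coefficient -/
def e4 (v : Fin 8 → R) : R :=
  (v 1 + v 0) * d3 v - 2 * v 4 * dJ v + v 0 * (v 1 - v 0) * dI v

/-- a coefficient -/
def n7 (v : Fin 8 → R) : R :=
  8 * dJ v ^ 3 * v 6 - d3 v * d4 v + (v 1 - v 0) * e4 v * dJ v ^ 2

/-- a coefficient -/
def n8 (v : Fin 8 → R) : R :=
  64 * v 0 * dJ v ^ 4 * v 7 - v 0 * d4 v ^ 2 + 4 * dJ v ^ 2 * e4 v ^ 2

/-- the denominator -/
def NN (v : Fin 8 → R) : R := n8 v - 8 * v 0 * dJ v * n7 v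

/-- the normalized coefficients, from `A` and `G 2, ..., G 8` -/
def vec (A : R) (G : Fin 7 → R) : Fin 8 → R :=
  ![A, -28 + G 0, -112 + 6 * G 0 + G 1, -210 + 15 * G 0 + 5 * G 1 + G 2,
    -224 + 20 * G 0 + 10 * G 1 + 4 * G 2 + G 3,
    -140 + 15 * G 0 + 10 * G 1 + 6 * G 2 + 3 * G 3 + G 4,
    -48 + 6 * G 0 + 5 * G 1 + 4 * G 2 + 3 * G 3 + 2 * G 4 + G 5,
    -7 + G 0 + G 1 + G 2 + G 3 + G 4 + G 5 + G 6]

end defs

section hom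

variable {R S : Type*} [CommRing R] [CommRing S] (φ : R →+* S)

lemma dJ_map (v : Fin 8 → R) : φ (dJ v) = dJ (fun i => φ (v i)) := by
  simp only [dJ, map_mul, map_add, map_sub, map_ofNat]

lemma dI_map (v : Fin 8 → R) : φ (dI v) = dI (fun i => φ (v i)) := by
  simp only [dI, map_mul, map_add, map_sub, map_pow, map_ofNat]

lemma d3_map (v : Fin 8 → R) : φ (d3 v) = d3 (fun i => φ (v i)) := by
  simp only [d3, map_mul, map_sub, dJ_map, dI_map, map_ofNat]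

lemma d4_map (v : Fin 8 → R) : φ (d4 v) = d4 (fun i => φ (v i)) := by
  simp only [d4, map_mul, map_add, map_sub, map_pow, dJ_map, dI_map, map_ofNat]

lemma e4_map (v : Fin 8 → R) : φ (e4 v) = e4 (fun i => φ (v i)) := by
  simp only [e4, map_mul, map_add, map_sub, dJ_map, dI_map, d3_map, map_ofNat]

lemma n7_map (v : Fin 8 → R) : φ (n7 v) = n7 (fun i => φ (v i)) := by
  simp only [n7, map_mul, map_add, map_sub, map_pow, dJ_map, d3_map, d4_map, e4_map, map_ofNat]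

lemma n8_map (v : Fin 8 → R) : φ (n8 v) = n8 (fun i => φ (v i)) := by
  simp only [n8, map_mul, map_add, map_sub, map_pow, dJ_map, d4_map, e4_map, map_ofNat]

lemma NN_map (v : Fin 8 → R) : φ (NN v) = NN (fun i => φ (v i)) := by
  simp only [NN, map_mul, map_sub, dJ_map, n7_map, n8_map, map_ofNat]

lemma vec_map (A : R) (G : Fin 7 → R) (i : Fin 8) :
    φ (vec A G i) = vec (φ A) (fun i => φ (G i)) i := by
  fin_cases i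
  · rfl
  all_goals simp only [vec, Fin.zero_eta, Fin.mk_one, Fin.reduceFinMk, Matrix.cons_val,
    Matrix.cons_val_zero, Matrix.cons_val_one, map_add, map_mul, map_neg, map_ofNat]

lemma vec_map' (A : R) (G : Fin 7 → R) :
    (fun i => φ (vec A G i)) = vec (φ A) (fun i => φ (G i)) :=
  funext (vec_map φ A G)

end hom

section field

variable {F : Type*} [Field F] [CharZero F]

/-- the identity of degree eight, homogeneous form -/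
lemma hom_id {A f2 f3 f4 f5 f6 f7 f8 r2 i r3 s3 r4 s4 c7 c8 x y : F} (hA : A ≠ 0)
    (hr2 : r2 = (f2 + A) / 2) (hr3 : r3 = f3 / 2 + A * i) (hs3 : s3 = (f2 - A) / 4)
    (hr4 : r4 = (f4 - r2 ^ 2 + 2 * A * s3 + A * i ^ 2) / 2)
    (hs4 : s4 = (2 * r2 * r3 - f5) / (2 * A) - i * s3)
    (hc7 : c7 = f7 - 2 * r3 * r4 + 2 * A * s3 * s4) (hc8 : c8 = f8 - r4 ^ 2 + A * s4 ^ 2)
    (hi : i * (8 * (2 * f5 + f3 * (A - f2))) = -(4 * A * (f2 + A) ^ 2 + 8 * (f2 + A) * f4 -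
      2 * (f2 + A) ^ 3 + 4 * f3 ^ 2 - 16 * f6 - A * (f2 + 3 * A) ^ 2)) :
    (x ^ 4 + r2 * y ^ 2 * x ^ 2 + r3 * y ^ 3 * x + r4 * y ^ 4) ^ 2 -
      A * (y * x ^ 3 + i * y ^ 2 * x ^ 2 + s3 * y ^ 3 * x + s4 * y ^ 4) ^ 2 =
    x ^ 8 + f2 * y ^ 2 * x ^ 6 + f3 * y ^ 3 * x ^ 5 + f4 * y ^ 4 * x ^ 4 + f5 * y ^ 5 * x ^ 3 +
      f6 * y ^ 6 * x ^ 2 + f7 * y ^ 7 * x + f8 * y ^ 8 - y ^ 7 * (c7 * x + c8 * y) := by
  have e2 : 2 * r2 - A = f2 := by rw [hr2]; ring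
  have e3 : 2 * r3 - 2 * A * i = f3 := by rw [hr3]; ring
  have e4 : 2 * r4 + r2 ^ 2 - A * (2 * s3 + i ^ 2) = f4 := by rw [hr4]; ring
  have e5 : 2 * r2 * r3 - A * (2 * s4 + 2 * i * s3) = f5 := by rw [hs4]; field_simp; ring
  have e5' : 2 * A * s4 = 2 * r2 * r3 - f5 - 2 * A * i * s3 := by linear_combination -e5
  have e6 : 2 * r2 * r4 + r3 ^ 2 - A * (2 * i * s4 + s3 ^ 2) = f6 := by
    have h1 : 2 * r2 * r4 + r3 ^ 2 - A * (2 * i * s4 + s3 ^ 2) =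
        2 * r2 * r4 + r3 ^ 2 - i * (2 * r2 * r3 - f5 - 2 * A * i * s3) - A * s3 ^ 2 := by
      linear_combination -i * e5'
    rw [h1, hr4, hr3, hs3, hr2]
    linear_combination hi / 16
  rw [hc7, hc8]
  linear_combination y ^ 2 * x ^ 6 * e2 + y ^ 3 * x ^ 5 * e3 + y ^ 4 * x ^ 4 * e4 +
    y ^ 5 * x ^ 3 * e5 + y ^ 6 * x ^ 2 * e6

/-- the form of degree eight at the new point is a norm -/
lemma norm_hom {v : Fin 8 → F} (hA : v 0 ≠ 0) (hJ : dJ v ≠ 0) :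
    ∃ P Q : F, P ^ 2 - v 0 * Q ^ 2 = n8 v ^ 8 + v 1 * (-8 * v 0 * dJ v * n7 v) ^ 2 * n8 v ^ 6 +
      v 2 * (-8 * v 0 * dJ v * n7 v) ^ 3 * n8 v ^ 5 +
      v 3 * (-8 * v 0 * dJ v * n7 v) ^ 4 * n8 v ^ 4 +
      v 4 * (-8 * v 0 * dJ v * n7 v) ^ 5 * n8 v ^ 3 +
      v 5 * (-8 * v 0 * dJ v * n7 v) ^ 6 * n8 v ^ 2 +
      v 6 * (-8 * v 0 * dJ v * n7 v) ^ 7 * n8 v + v 7 * (-8 * v 0 * dJ v * n7 v) ^ 8 := by
  obtain ⟨i, hi⟩ : ∃ i, i = -(dI v) / dJ v := ⟨_, rfl⟩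
  obtain ⟨r2, hr2⟩ : ∃ r2, r2 = (v 1 + v 0) / 2 := ⟨_, rfl⟩
  obtain ⟨r3, hr3⟩ : ∃ r3, r3 = v 2 / 2 + v 0 * i := ⟨_, rfl⟩
  obtain ⟨s3, hs3⟩ : ∃ s3, s3 = (v 1 - v 0) / 4 := ⟨_, rfl⟩
  obtain ⟨r4, hr4⟩ : ∃ r4, r4 = (v 3 - r2 ^ 2 + 2 * v 0 * s3 + v 0 * i ^ 2) / 2 := ⟨_, rfl⟩
  obtain ⟨s4, hs4⟩ : ∃ s4, s4 = (2 * r2 * r3 - v 4) / (2 * v 0) - i * s3 := ⟨_, rfl⟩
  obtain ⟨c7, hc7⟩ : ∃ c7, c7 = v 6 - 2 * r3 * r4 + 2 * v 0 * s3 * s4 := ⟨_, rfl⟩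
  obtain ⟨c8, hc8⟩ : ∃ c8, c8 = v 7 - r4 ^ 2 + v 0 * s4 ^ 2 := ⟨_, rfl⟩
  have hiJ : i * dJ v = -dI v := by rw [hi]; field_simp
  have k3 : 2 * dJ v * r3 = d3 v := by
    rw [hr3, d3]; linear_combination 2 * v 0 * hiJ
  have k4 : 8 * dJ v ^ 2 * r4 = d4 v := by
    rw [hr4, hr2, hs3, d4]
    have h1 : (i * dJ v) ^ 2 = dI v ^ 2 := by rw [hiJ]; ring
    linear_combination 4 * v 0 * h1
  have k5 : 4 * v 0 * dJ v * s4 = e4 v := by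
    have h1 : 2 * v 0 * s4 = 2 * r2 * r3 - v 4 - 2 * v 0 * i * s3 := by
      rw [hs4]; field_simp
    have h2 : e4 v = (v 1 + v 0) * (2 * dJ v * r3) - 2 * v 4 * dJ v + v 0 * (v 1 - v 0) * dI v := by
      rw [k3, e4]
    rw [h2]
    rw [hs3, hr2] at h1
    linear_combination 2 * dJ v * h1 - v 0 * (v 1 - v 0) * hiJ
  have k7 : 8 * dJ v ^ 3 * c7 = n7 v := by
    rw [hc7, n7, ← k3, ← k4, ← k5, hs3]
    ring
  have k8 : 64 * v 0 * dJ v ^ 4 * c8 = n8 v := by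
    rw [hc8, n8, ← k4, ← k5]
    ring
  have key := hom_id (f6 := v 5) (x := n8 v) (y := -8 * v 0 * dJ v * n7 v) hA hr2 hr3 hs3 hr4
    hs4 hc7 hc8 (by simpa only [dJ, dI] using hiJ)
  have h0 : c7 * n8 v + c8 * (-8 * v 0 * dJ v * n7 v) = 0 := by
    rw [← k7, ← k8]; ring
  rw [h0, mul_zero, sub_zero] at key
  exact ⟨_, _, key⟩

/-- the scaled coefficients -/
def Gs (g : Fin 9 → F) : Fin 7 → F :=
  ![64 * g 2 * g 0 / g 1 ^ 2, -512 * g 3 * g 0 ^ 2 / g 1 ^ 3, 4096 * g 4 * g 0 ^ 3 / g 1 ^ 4,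
    -32768 * g 5 * g 0 ^ 4 / g 1 ^ 5, 262144 * g 6 * g 0 ^ 5 / g 1 ^ 6,
    -2097152 * g 7 * g 0 ^ 6 / g 1 ^ 7, 16777216 * g 8 * g 0 ^ 7 / g 1 ^ 8]

/-- the value of the polynomial with the given coefficients -/
def pv8 (g : Fin 9 → F) (t : F) : F :=
  g 0 + g 1 * t + g 2 * t ^ 2 + g 3 * t ^ 3 + g 4 * t ^ 4 + g 5 * t ^ 5 + g 6 * t ^ 6 +
    g 7 * t ^ 7 + g 8 * t ^ 8

/-- the increment -/
def inc (g : Fin 9 → F) (A : F) : F :=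
  64 * (g 0 / g 1) * (A * dJ (vec A (Gs g)) * n7 (vec A (Gs g)) / NN (vec A (Gs g)))

omit [CharZero F] in
lemma vec_form (A : F) (G : Fin 7 → F) (x y : F) :
    x ^ 8 + vec A G 1 * y ^ 2 * x ^ 6 + vec A G 2 * y ^ 3 * x ^ 5 + vec A G 3 * y ^ 4 * x ^ 4 +
      vec A G 4 * y ^ 5 * x ^ 3 + vec A G 5 * y ^ 6 * x ^ 2 + vec A G 6 * y ^ 7 * x +
      vec A G 7 * y ^ 8 =
    (x + y) ^ 8 - 8 * y * (x + y) ^ 7 + G 0 * y ^ 2 * (x + y) ^ 6 + G 1 * y ^ 3 * (x + y) ^ 5 +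
      G 2 * y ^ 4 * (x + y) ^ 4 + G 3 * y ^ 5 * (x + y) ^ 3 + G 4 * y ^ 6 * (x + y) ^ 2 +
      G 5 * y ^ 7 * (x + y) + G 6 * y ^ 8 := by
  have h1 : vec A G 1 = -28 + G 0 := rfl
  have h2 : vec A G 2 = -112 + 6 * G 0 + G 1 := rfl
  have h3 : vec A G 3 = -210 + 15 * G 0 + 5 * G 1 + G 2 := rfl
  have h4 : vec A G 4 = -224 + 20 * G 0 + 10 * G 1 + 4 * G 2 + G 3 := rfl
  have h5 : vec A G 5 = -140 + 15 * G 0 + 10 * G 1 + 6 * G 2 + 3 * G 3 + G 4 := rfl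
  have h6 : vec A G 6 = -48 + 6 * G 0 + 5 * G 1 + 4 * G 2 + 3 * G 3 + 2 * G 4 + G 5 := rfl
  have h7 : vec A G 7 = -7 + G 0 + G 1 + G 2 + G 3 + G 4 + G 5 + G 6 := rfl
  rw [h1, h2, h3, h4, h5, h6, h7]
  ring

/-- **The new point.** -/
lemma new_pt {g : Fin 9 → F} {A : F} (h1 : g 1 ≠ 0) (hA : A ≠ 0)
    (hJ : dJ (vec A (Gs g)) ≠ 0) (hN : NN (vec A (Gs g)) ≠ 0) :
    ∃ P Q : F, pv8 g (inc g A) = g 0 * (P ^ 2 - A * Q ^ 2) := by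
  obtain ⟨P, Q, hPQ⟩ := norm_hom (v := vec A (Gs g)) (by exact hA) hJ
  set v := vec A (Gs g) with hv
  set x := n8 v with hx
  set y := -8 * v 0 * dJ v * n7 v with hy
  have hv0 : v 0 = A := rfl
  have hxy : x + y = NN v := by rw [hx, hy, NN]; ring
  rw [hv, vec_form, ← hv, hxy] at hPQ
  refine ⟨P / NN v ^ 4, Q / NN v ^ 4, ?_⟩
  have hinc : inc g A = -8 * (g 0 / g 1) * (y / NN v) := by
    rw [inc, hy, hv0]; ring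
  have e : g 0 * ((P / NN v ^ 4) ^ 2 - A * (Q / NN v ^ 4) ^ 2) =
      g 0 * (P ^ 2 - v 0 * Q ^ 2) / NN v ^ 8 := by
    rw [hv0]; field_simp
  rw [e, hPQ, hinc]
  have G0 : Gs g 0 = 64 * g 2 * g 0 / g 1 ^ 2 := rfl
  have G1 : Gs g 1 = -512 * g 3 * g 0 ^ 2 / g 1 ^ 3 := rfl
  have G2 : Gs g 2 = 4096 * g 4 * g 0 ^ 3 / g 1 ^ 4 := rfl
  have G3 : Gs g 3 = -32768 * g 5 * g 0 ^ 4 / g 1 ^ 5 := rfl
  have G4 : Gs g 4 = 262144 * g 6 * g 0 ^ 5 / g 1 ^ 6 := rfl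
  have G5 : Gs g 5 = -2097152 * g 7 * g 0 ^ 6 / g 1 ^ 7 := rfl
  have G6 : Gs g 6 = 16777216 * g 8 * g 0 ^ 7 / g 1 ^ 8 := rfl
  rw [pv8, G0, G1, G2, G3, G4, G5, G6]
  clear_value x y v
  field_simp
  ring

end field

end Pool.Agent.H436.HP
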