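import Pool.Agent.H436.HP.Tay

/-!
# The move near a simple zero of the polynomial (helper436)
-/

set_option autoImplicit false

namespace Pool.Agent.H436.HP

open MvPolynomial

section defs

variable {R : Type*} [CommRing R]

/-- the directions -/
def yv (y : R) (H : Fin 7 → R) : Fin 8 → R :=
  ![y, H 0, 6 * H 0 + H 1, 15 * H 0 + 5 * H 1 + H 2, 20 * H 0 + 10 * H 1 + 4 * H 2 + H 3,
    15 * H 0 + 10 * H 1 + 6 * H 2 + 3 * H 3 + H 4,
    6 * H 0 + 5 * H 1 + 4 * H 2 + 3 * H 3 + 2 * H 4 + H 5,
    H 0 + H 1 + H 2 + H 3 + H 4 + H 5 + H 6]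

lemma vec_pert (α π y : R) (H : Fin 7 → R) :
    vec (α + π * y) (fun k => π * H k) = fun i => v0 α i + π * yv y H i := by
  funext i
  fin_cases i
  · rfl
  all_goals
    simp only [vec, v0, yv, Fin.mk_one, Fin.reduceFinMk, Matrix.cons_val,
      Matrix.cons_val_zero, Matrix.cons_val_one]
    ring

/-- the scaled coefficients over the ring; `u = g 0 / π`, `i1 = 1 / g 1` -/
def Hs (π u i1 : R) (g : Fin 9 → R) : Fin 7 → R :=
  ![64 * g 2 * u * i1 ^ 2, -512 * g 3 * (π * u ^ 2) * i1 ^ 3, 4096 * g 4 * (π ^ 2 * u ^ 3) * i1 ^ 4,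
    -32768 * g 5 * (π ^ 3 * u ^ 4) * i1 ^ 5, 262144 * g 6 * (π ^ 4 * u ^ 5) * i1 ^ 6,
    -2097152 * g 7 * (π ^ 5 * u ^ 6) * i1 ^ 7, 16777216 * g 8 * (π ^ 6 * u ^ 7) * i1 ^ 8]

end defs

section base

variable {B κ R L : Type*} [Field B] [CharZero B] [Field κ] [Algebra B κ] [CommRing R]
  [Field L] [Algebra R L]

omit [CharZero B] in
lemma Gs_eq {π u i1 : R} {g : Fin 9 → R} (h0 : g 0 = π * u) (h1 : g 1 * i1 = 1) :
    Gs (fun k => algebraMap R L (g k)) = fun k => algebraMap R L (π * Hs π u i1 g k) := by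
  have e1 : algebraMap R L (g 1) * algebraMap R L i1 = 1 := by rw [← map_mul, h1, map_one]
  have hg1 : algebraMap R L (g 1) ≠ 0 := left_ne_zero_of_mul_eq_one e1
  have e2 : algebraMap R L i1 = (algebraMap R L (g 1))⁻¹ := by
    field_simp
    linear_combination e1
  funext k
  fin_cases k <;>
  · simp only [Gs, Hs, Fin.zero_eta, Fin.mk_one, Fin.reduceFinMk, Matrix.cons_val,
      Matrix.cons_val_zero, Matrix.cons_val_one, map_mul, map_pow, map_neg, map_ofNat, h0, e2]
    field_simp

lemma aeval_base (P : MvPolynomial (Fin 8) ℤ) (α : B) :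
    aeval (v0 (algebraMap B κ α)) P = algebraMap B κ (aeval (v0 α) P) := by
  have h1 := MvPolynomial.comp_aeval_apply (φ := (algebraMap B κ).toIntAlgHom)
    (f := v0 α) P
  have h2 : (fun i => (algebraMap B κ).toIntAlgHom (v0 α i)) = v0 (algebraMap B κ α) := by
    funext i
    have h5 := vec_map (algebraMap B κ) α (fun _ => 0) i
    rw [map_zero] at h5
    exact h5
  rw [h2] at h1
  exact h1.symm

/-- **The move near a simple zero.** -/
theorem base [CharZero L] [IsDomain R] (hinj : Function.Injective (algebraMap R L)) (res : R →+* κ)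
    (hres : ∀ x, res x ≠ 0 → IsUnit x) (cR : B →+* R) (hc : ∀ b, res (cR b) = algebraMap B κ b)
    {a α S0 : B} (hα : qf α = 0) {π XR u : R} {g : Fin 9 → R}
    (hπ0 : π ≠ 0) (hπ : res π = 0) (hX : Transcendental B (res XR)) (h0 : g 0 = π * u)
    (hu : res u = res (g 1)) (hu0 : res u ≠ 0) {c2 c1 : B} (hg1 : res (g 1) = algebraMap B κ c1)
    (hg2 : res (g 2) = algebraMap B κ c2)
    {A : R} (hA : A = cR α + π * (2 * cR a * cR S0 * XR + π * (cR a * XR ^ 2)))
    (hρ : qd α * (2 * a * S0) ≠ 0) :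
    ∃ (Θ : R) (β : B), algebraMap R L Θ = inc (fun k => algebraMap R L (g k)) (algebraMap R L A) ∧
      res Θ * (algebraMap B κ (-38416 * (qd α * (2 * a * S0))) * res XR + algebraMap B κ β) =
        algebraMap B κ (64 * (α * (-896 * (α + 32)) * (2744 * nf α))) := by
  obtain ⟨i1, hi1⟩ : ∃ i1, g 1 * i1 = 1 := by
    have := hres (g 1) (hu ▸ hu0)
    exact this.exists_right_inv
  obtain ⟨H, hH⟩ : ∃ H, H = Hs π u i1 g := ⟨_, rfl⟩
  obtain ⟨y0, hy0⟩ : ∃ y0, y0 = 2 * cR a * cR S0 * XR + π * (cR a * XR ^ 2) := ⟨_, rfl⟩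
  rw [← hy0] at hA
  have hri1 : res (g 1) * res i1 = 1 := by rw [← map_mul, hi1, map_one]
  -- the vector
  have hv : vec A (fun k => π * H k) = fun i => v0 (cR α) i + π * yv y0 H i := by
    rw [hA, vec_pert]
  obtain ⟨D, hD1, hD2⟩ := tay res hπ (v0 (cR α)) (yv y0 H) NNp
  have hNN : NN (vec A (fun k => π * H k)) = π * D := by
    rw [hv, ← aeval_NNp, hD1, aeval_NNp, NN_v0, ← qf_map, hα, map_zero]
    ring
  -- the residue of `D`
  have hresv0 : (fun i => res (v0 (cR α) i)) = v0 (algebraMap B κ α) := by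
    funext i
    have h5 := vec_map res (cR α) (fun _ => 0) i
    rw [← hc]
    simpa only [v0, map_zero] using h5
  have hh : ∃ h : B, res (H 0) = algebraMap B κ h := by
    refine ⟨64 * c2 * c1 * (c1⁻¹) ^ 2, ?_⟩
    have h3 : res i1 = algebraMap B κ c1⁻¹ := by
      rw [map_inv₀]
      rw [hg1] at hri1
      have : algebraMap B κ c1 ≠ 0 := left_ne_zero_of_mul_eq_one hri1
      field_simp
      linear_combination hri1
    have h4 : H 0 = 64 * g 2 * u * i1 ^ 2 := by rw [hH]; rfl
    rw [h4, map_mul, map_mul, map_mul, map_pow, h3, hu, hg1, hg2, map_ofNat, map_mul, map_mul,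
      map_mul, map_pow, map_ofNat]
  obtain ⟨h, hh⟩ := hh
  have hH' : ∀ k, k ≠ 0 → res (H k) = 0 := by
    intro k hk
    rw [hH]
    fin_cases k
    · exact absurd rfl hk
    all_goals
      simp [Hs, hπ]
  have hyr : ∀ i : Fin 8, i ≠ 0 → ∃ b : B, res (yv y0 H i) = algebraMap B κ b := by
    intro i hi
    have k1 := hH' 1 (by decide)
    have k2 := hH' 2 (by decide)
    have k3 := hH' 3 (by decide)
    have k4 := hH' 4 (by decide)
    have k5 := hH' 5 (by decide)
    have k6 := hH' 6 (by decide)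
    fin_cases i
    · exact absurd rfl hi
    · exact ⟨h, hh⟩
    · refine ⟨6 * h, ?_⟩
      change res (6 * H 0 + H 1) = _
      simp only [map_add, map_mul, map_ofNat, k1, hh]; ring
    · refine ⟨15 * h, ?_⟩
      change res (15 * H 0 + 5 * H 1 + H 2) = _
      simp only [map_add, map_mul, map_ofNat, k1, k2, hh]; ring
    · refine ⟨20 * h, ?_⟩
      change res (20 * H 0 + 10 * H 1 + 4 * H 2 + H 3) = _
      simp only [map_add, map_mul, map_ofNat, k1, k2, k3, hh]; ring
    · refine ⟨15 * h, ?_⟩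
      change res (15 * H 0 + 10 * H 1 + 6 * H 2 + 3 * H 3 + H 4) = _
      simp only [map_add, map_mul, map_ofNat, k1, k2, k3, k4, hh]; ring
    · refine ⟨6 * h, ?_⟩
      change res (6 * H 0 + 5 * H 1 + 4 * H 2 + 3 * H 3 + 2 * H 4 + H 5) = _
      simp only [map_add, map_mul, map_ofNat, k1, k2, k3, k4, k5, hh]; ring
    · refine ⟨h, ?_⟩
      change res (H 0 + H 1 + H 2 + H 3 + H 4 + H 5 + H 6) = _
      simp only [map_add, k1, k2, k3, k4, k5, k6, hh]; ring
  choose! bb hbb using hyr
  obtain ⟨β, hβ⟩ : ∃ β : B, β = ∑ i ∈ Finset.univ.erase (0 : Fin 8),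
      bb i * aeval (v0 α) (pderiv i NNp) := ⟨_, rfl⟩
  have hresD : res D = algebraMap B κ (-38416 * (qd α * (2 * a * S0))) * res XR +
      algebraMap B κ β := by
    rw [hD2, ← Finset.add_sum_erase _ _ (Finset.mem_univ (0 : Fin 8)), hresv0]
    congr 1
    · rw [pd_NN]
      have h3 : yv y0 H 0 = y0 := rfl
      rw [h3, hy0, map_add, map_mul, map_mul, map_mul, hc, hc, map_ofNat, map_mul res π, hπ,
        zero_mul, add_zero, map_mul (algebraMap B κ), map_mul (algebraMap B κ),
        map_mul (algebraMap B κ), map_mul (algebraMap B κ), map_neg, map_ofNat, map_ofNat]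
      have h4 : qd (algebraMap B κ α) = algebraMap B κ (qd α) := by
        simp only [qd, map_add, map_sub, map_mul, map_pow, map_ofNat]
      rw [h4]
      ring
    · rw [hβ, map_sum]
      refine Finset.sum_congr rfl fun i hi => ?_
      rw [hbb i (Finset.ne_of_mem_erase hi), aeval_base, map_mul]
  have hDne : res D ≠ 0 := by
    rw [hresD]
    intro h0
    refine hX ⟨Polynomial.C (-38416 * (qd α * (2 * a * S0))) * Polynomial.X + Polynomial.C β,
      ?_, ?_⟩
    · intro h5
      have h6 := congrArg (fun p => Polynomial.coeff p 1) h5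
      simp only [Polynomial.coeff_add, Polynomial.coeff_C_mul, Polynomial.coeff_X_one,
        Polynomial.coeff_C_succ, Polynomial.coeff_zero, mul_one, add_zero] at h6
      exact (mul_ne_zero (by norm_num) hρ) h6
    · rw [map_add, map_mul, Polynomial.aeval_C, Polynomial.aeval_C, Polynomial.aeval_X]
      exact h0
  obtain ⟨Di, hDi⟩ := (hres D hDne).exists_right_inv
  have hrDi : res D * res Di = 1 := by rw [← map_mul, hDi, map_one]
  refine ⟨64 * (u * i1) * (A * dJ (vec A (fun k => π * H k)) * n7 (vec A (fun k => π * H k))) * Di,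
    β, ?_, ?_⟩
  · rw [inc, Gs_eq (L := L) h0 hi1, ← hH]
    have e3 : vec (algebraMap R L A) (fun k => algebraMap R L (π * H k)) =
        fun i => algebraMap R L (vec A (fun k => π * H k) i) :=
      (vec_map' (algebraMap R L) A (fun k => π * H k)).symm
    rw [e3, ← dJ_map, ← n7_map, ← NN_map, hNN]
    have e1 : algebraMap R L (g 1) * algebraMap R L i1 = 1 := by rw [← map_mul, hi1, map_one]
    have hg1' : algebraMap R L (g 1) ≠ 0 := left_ne_zero_of_mul_eq_one e1
    have e2 : algebraMap R L i1 = (algebraMap R L (g 1))⁻¹ := by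
      field_simp
      linear_combination e1
    have e4 : algebraMap R L D * algebraMap R L Di = 1 := by rw [← map_mul, hDi, map_one]
    have hD' : algebraMap R L D ≠ 0 := left_ne_zero_of_mul_eq_one e4
    have e5 : algebraMap R L Di = (algebraMap R L D)⁻¹ := by
      field_simp
      linear_combination e4
    have hπL : algebraMap R L π ≠ 0 := (map_ne_zero_iff _ hinj).2 hπ0
    simp only [map_mul, map_ofNat, h0, e2, e5]
    field_simp
  · rw [← hresD]
    have e1 : (fun i => res (vec A (fun k => π * H k) i)) = v0 (algebraMap B κ α) := by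
      rw [hv]
      funext i
      have := congrFun hresv0 i
      rw [map_add, map_mul, hπ, zero_mul, add_zero, this]
    rw [map_mul, map_mul, map_mul, map_mul, map_mul, map_mul, dJ_map, n7_map, e1, dJ_v0, n7_v0]
    have e2 : res A = algebraMap B κ α := by
      rw [hA, map_add, map_mul, hπ, zero_mul, add_zero, hc]
    have e3 : res u * res i1 = 1 := by rw [hu]; exact hri1
    have h4 : nf (algebraMap B κ α) = algebraMap B κ (nf α) := by
      simp only [nf, map_add, map_sub, map_mul, map_pow, map_ofNat, map_neg]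
    rw [e2, e3, h4]
    simp only [map_mul, map_add, map_neg, map_ofNat]
    linear_combination (64 * (algebraMap B κ α * (-896 * (algebraMap B κ α + 32)) *
      (2744 * algebraMap B κ (nf α)))) * hrDi

end base

end Pool.Agent.H436.HP
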