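import Pool.Agent.H436.HP.RC

/-!
# Descent of relative algebraic closedness (helper436)
-/

set_option autoImplicit false

namespace Pool.Agent.H436.HP

open Polynomial

theorem rc0' {A R L κ : Type*} [CommRing A] [IsDomain A] [CommRing R] [IsDomain R]
    [ValuationRing R] [Field L] [Field κ] [Algebra R L] [IsFractionRing R L] (i : A →+* R)
    (res : R →+* κ) (hres : ∀ x, res x ≠ 0 → IsUnit x) (h1 : ∀ a : A, a ≠ 0 → res (i a) ≠ 0)
    (h2 : ∀ r : κ, ∃ p q : A, q ≠ 0 ∧ r * res (i q) = res (i p)) {e : L} {P : Polynomial A}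
    (hP : P ≠ 0) (he : P.eval₂ ((algebraMap R L).comp i) e = 0) :
    ∃ p q : A, q ≠ 0 ∧ e * algebraMap R L (i q) = algebraMap R L (i p) := by
  let _ : Algebra A R := i.toAlgebra
  let _ : Algebra A L := ((algebraMap R L).comp i).toAlgebra
  have : IsScalarTower A R L := .of_algebraMap_eq fun _ => rfl
  exact rc0 res hres h1 h2 (e := e) ⟨P, hP, he⟩

section

variable {B κ : Type*} [Field B] [Field κ] [Algebra B κ]

/-- From algebraicity over a simple extension to a polynomial in two variables. -/
lemma exists_biv {F Ω : Type*} [Field F] [Field Ω] [Algebra F Ω] {T e : Ω}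
    (he : IsAlgebraic (IntermediateField.adjoin F {T}) e) :
    ∃ P : Polynomial (Polynomial F), P ≠ 0 ∧
      P.eval₂ (aeval T : Polynomial F →ₐ[F] Ω).toRingHom e = 0 := by
  rw [IntermediateField.isAlgebraic_adjoin_iff] at he
  obtain ⟨P0, hP0, hP0e⟩ := he
  have hmem : ∀ p : Polynomial F, aeval T p ∈ Algebra.adjoin F {T} := fun p =>
    aeval_mem_adjoin_singleton F T
  let g : Polynomial F →+* Algebra.adjoin F {T} :=
    ((aeval T : Polynomial F →ₐ[F] Ω).codRestrict _ hmem).toRingHom
  have hg : Function.Surjective g := by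
    rintro ⟨y, hy⟩
    rw [Algebra.adjoin_singleton_eq_range_aeval] at hy
    obtain ⟨p, hp⟩ := hy
    exact ⟨p, Subtype.ext hp⟩
  obtain ⟨P, hP⟩ := Polynomial.map_surjective g hg P0
  refine ⟨P, ?_, ?_⟩
  · rintro rfl
    rw [Polynomial.map_zero] at hP
    exact hP0 hP.symm
  · rw [← hP, aeval_def, eval₂_map] at hP0e
    exact hP0e

theorem rc1 (TR : PowerSeries κ) (h1 : Transcendental B (PowerSeries.constantCoeff TR))
    (h2 : IntermediateField.adjoin B {PowerSeries.constantCoeff TR} = (⊤ : IntermediateField B κ))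
    {e : FractionRing (PowerSeries κ)} {P : Polynomial (Polynomial B)} (hPne : P ≠ 0)
    (he : P.eval₂ (aeval (algebraMap (PowerSeries κ) (FractionRing (PowerSeries κ)) TR) :
      Polynomial B →ₐ[B] _).toRingHom e = 0) :
    ∃ p q : Polynomial B, q ≠ 0 ∧
      e * aeval (algebraMap (PowerSeries κ) (FractionRing (PowerSeries κ)) TR) q =
      aeval (algebraMap (PowerSeries κ) (FractionRing (PowerSeries κ)) TR) p := by
  set T := algebraMap (PowerSeries κ) (FractionRing (PowerSeries κ)) TR with hT
  let i : Polynomial B →+* PowerSeries κ :=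
    (aeval TR : Polynomial B →ₐ[B] PowerSeries κ).toRingHom
  have hi : ∀ p, algebraMap (PowerSeries κ) (FractionRing (PowerSeries κ)) (i p) = aeval T p :=
    fun p => (aeval_algebraMap_apply _ _ p).symm
  have hPe : P.eval₂ ((algebraMap (PowerSeries κ) (FractionRing (PowerSeries κ))).comp i) e = 0 := by
    rw [← he]
    congr 1
    exact RingHom.ext fun p => hi p
  have hri : ∀ p, PowerSeries.constantCoeff (i p) = aeval (PowerSeries.constantCoeff TR) p := by
    intro p
    have h3 := Polynomial.hom_eval₂ p (algebraMap B (PowerSeries κ)) PowerSeries.constantCoeff TR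
    rw [← aeval_def] at h3
    rw [aeval_def]
    refine h3.trans ?_
    congr 1
  obtain ⟨p, q, hq, hpq⟩ := rc0' (L := FractionRing (PowerSeries κ)) i
    (PowerSeries.constantCoeff (R := κ))
    (fun x hx => by rw [PowerSeries.isUnit_iff_constantCoeff]; exact isUnit_iff_ne_zero.2 hx)
    (fun a ha h => by
      rw [hri] at h
      exact h1 ⟨a, ha, h⟩)
    (fun r => by
      have hr : r ∈ IntermediateField.adjoin B {PowerSeries.constantCoeff TR} := by
        rw [h2]; trivial
      rw [IntermediateField.mem_adjoin_simple_iff] at hr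
      obtain ⟨p, q, hr⟩ := hr
      by_cases hq : aeval (PowerSeries.constantCoeff TR) q = 0
      · refine ⟨0, 1, one_ne_zero, ?_⟩
        rw [hr, hq, div_zero, zero_mul, map_zero, map_zero]
      · refine ⟨p, q, ?_, ?_⟩
        · rintro rfl
          exact hq (map_zero _)
        · rw [hri, hri, hr]
          field_simp) hPne hPe
  exact ⟨p, q, hq, by rw [← hi, ← hi]; exact hpq⟩

end

section desc

variable {F B L : Type*} [Field F] [Field B] [Field L] [Algebra F B] [Algebra F L] [Algebra B L]
  [IsScalarTower F B L] {σ : Type*}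

/-- Linear disjointness from a purely transcendental extension. -/
lemma ld {s : σ → L} (hs : AlgebraicIndependent B s) {ι : Type*} (J : Finset ι)
    (P P' : ι → MvPolynomial σ F) (b b' : ι → B)
    (h : ∑ j ∈ J, b j • MvPolynomial.aeval s (P j) = ∑ j ∈ J, b' j • MvPolynomial.aeval s (P' j))
    (φ : B →ₗ[F] F) :
    ∑ j ∈ J, φ (b j) • MvPolynomial.aeval s (P j) =
      ∑ j ∈ J, φ (b' j) • MvPolynomial.aeval s (P' j) := by
  have e1 : ∀ (b : ι → B) (P : ι → MvPolynomial σ F), MvPolynomial.aeval s
      (∑ j ∈ J, b j • MvPolynomial.map (algebraMap F B) (P j)) =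
      ∑ j ∈ J, b j • MvPolynomial.aeval s (P j) := by
    intro b P
    rw [map_sum]
    refine Finset.sum_congr rfl fun j _ => ?_
    rw [map_smul, MvPolynomial.aeval_map_algebraMap]
  rw [← e1, ← e1] at h
  have h2 := hs h
  have h3 : ∑ j ∈ J, φ (b j) • P j = ∑ j ∈ J, φ (b' j) • P' j := by
    ext m
    have h4 := congrArg (MvPolynomial.coeff m) h2
    simp only [MvPolynomial.coeff_sum, MvPolynomial.coeff_smul, MvPolynomial.coeff_map] at h4 ⊢
    have h5 := congrArg φ h4
    rw [map_sum, map_sum] at h5
    have h6 : ∀ (b : B) (c : F), φ (b • algebraMap F B c) = φ b • c := by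
      intro b c
      rw [smul_eq_mul, mul_comm, ← Algebra.smul_def, map_smul, smul_eq_mul, smul_eq_mul, mul_comm]
    simpa only [h6] using h5
  have h7 := congrArg (MvPolynomial.aeval s) h3
  rw [map_sum, map_sum] at h7
  simpa only [map_smul] using h7

/-- **Descent.** -/
theorem descend {s : σ → L} (hs : AlgebraicIndependent B s) {e T : L}
    (he : e ∈ IntermediateField.adjoin F (Set.range s))
    (hT : T ∈ IntermediateField.adjoin F (Set.range s)) (hTt : Transcendental B T)
    {p q : Polynomial B} (hq : q ≠ 0) (hpq : e * aeval T q = aeval T p) :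
    e ∈ IntermediateField.adjoin F {T} := by
  rw [IntermediateField.mem_adjoin_range_iff] at he hT
  obtain ⟨u, w, he⟩ := he
  obtain ⟨n, d, hT⟩ := hT
  by_cases hw : MvPolynomial.aeval s w = 0
  · rw [he, hw, div_zero]
    exact zero_mem _
  have hd : MvPolynomial.aeval s d ≠ 0 := by
    intro h
    rw [hT, h, div_zero] at hTt
    exact hTt (isAlgebraic_zero)
  obtain ⟨M, hM1, hM2⟩ : ∃ M, p.natDegree < M ∧ q.natDegree < M :=
    ⟨max p.natDegree q.natDegree + 1, by omega, by omega⟩
  have key : ∑ i ∈ Finset.range M, q.coeff i •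
      MvPolynomial.aeval s (u * n ^ i * d ^ (M - i)) =
      ∑ i ∈ Finset.range M, p.coeff i • MvPolynomial.aeval s (w * n ^ i * d ^ (M - i)) := by
    have h1 : ∀ i ∈ Finset.range M, MvPolynomial.aeval s (n ^ i * d ^ (M - i)) =
        T ^ i * MvPolynomial.aeval s d ^ M := by
      intro i hi
      rw [Finset.mem_range] at hi
      rw [map_mul, map_pow, map_pow, hT, div_pow]
      have h2 : MvPolynomial.aeval s d ^ M =
          MvPolynomial.aeval s d ^ i * MvPolynomial.aeval s d ^ (M - i) := by
        rw [← pow_add, Nat.add_sub_cancel' hi.le]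
      rw [h2]
      field_simp
    rw [aeval_eq_sum_range' hM1, aeval_eq_sum_range' hM2] at hpq
    have h3 : MvPolynomial.aeval s u = e * MvPolynomial.aeval s w := by
      rw [he]; field_simp
    calc ∑ i ∈ Finset.range M, q.coeff i • MvPolynomial.aeval s (u * n ^ i * d ^ (M - i))
        = MvPolynomial.aeval s w * MvPolynomial.aeval s d ^ M *
          (e * ∑ i ∈ Finset.range M, q.coeff i • T ^ i) := by
          rw [Finset.mul_sum, Finset.mul_sum]
          refine Finset.sum_congr rfl fun i hi => ?_
          rw [mul_assoc u, map_mul, h1 i hi, h3, Algebra.smul_def, Algebra.smul_def]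
          ring
      _ = MvPolynomial.aeval s w * MvPolynomial.aeval s d ^ M *
          (∑ i ∈ Finset.range M, p.coeff i • T ^ i) := by rw [hpq]
      _ = _ := by
          rw [Finset.mul_sum]
          refine Finset.sum_congr rfl fun i hi => ?_
          rw [mul_assoc w, map_mul, h1 i hi, Algebra.smul_def, Algebra.smul_def]
          ring
  obtain ⟨j, hj⟩ : ∃ j, q.coeff j ≠ 0 := by
    by_contra h
    push Not at h
    exact hq (Polynomial.ext fun j => by rw [h j, coeff_zero])
  obtain ⟨φ, hφ⟩ : ∃ φ : B →ₗ[F] F, φ (q.coeff j) ≠ 0 := by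
    by_contra h
    push Not at h
    exact hj ((Module.forall_dual_apply_eq_zero_iff F _).1 h)
  have h4 := ld hs (Finset.range M) (fun i => u * n ^ i * d ^ (M - i))
    (fun i => w * n ^ i * d ^ (M - i)) (fun i => q.coeff i) (fun i => p.coeff i) key φ
  -- the polynomials over `F`
  obtain ⟨q', hq'⟩ : ∃ q' : Polynomial F, q' = ∑ i ∈ Finset.range M, C (φ (q.coeff i)) * X ^ i :=
    ⟨_, rfl⟩
  obtain ⟨p', hp'⟩ : ∃ p' : Polynomial F, p' = ∑ i ∈ Finset.range M, C (φ (p.coeff i)) * X ^ i :=
    ⟨_, rfl⟩
  have hT2 : MvPolynomial.aeval s n = T * MvPolynomial.aeval s d := by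
    rw [hT]; field_simp
  have h1 : ∀ i ∈ Finset.range M, MvPolynomial.aeval s (n ^ i * d ^ (M - i)) =
      T ^ i * MvPolynomial.aeval s d ^ M := by
    intro i hi
    rw [Finset.mem_range] at hi
    rw [map_mul, map_pow, map_pow, hT2, mul_pow, mul_assoc, ← pow_add,
      Nat.add_sub_cancel' hi.le]
  have h5 : e * aeval T q' = aeval T p' := by
    have hwd : MvPolynomial.aeval s w * MvPolynomial.aeval s d ^ M ≠ 0 :=
      mul_ne_zero hw (pow_ne_zero _ hd)
    apply mul_left_cancel₀ hwd
    have h3 : MvPolynomial.aeval s u = e * MvPolynomial.aeval s w := by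
      rw [he]; field_simp
    calc MvPolynomial.aeval s w * MvPolynomial.aeval s d ^ M * (e * aeval T q') =
        ∑ i ∈ Finset.range M, φ (q.coeff i) •
          MvPolynomial.aeval s (u * n ^ i * d ^ (M - i)) := by
          rw [hq', map_sum, Finset.mul_sum, Finset.mul_sum]
          refine Finset.sum_congr rfl fun i hi => ?_
          rw [mul_assoc u, map_mul (MvPolynomial.aeval s) u, h1 i hi, h3, map_mul, aeval_C, map_pow, aeval_X,
            Algebra.smul_def]
          ring
      _ = ∑ i ∈ Finset.range M, φ (p.coeff i) •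
          MvPolynomial.aeval s (w * n ^ i * d ^ (M - i)) := h4
      _ = _ := by
          rw [hp', map_sum, Finset.mul_sum]
          refine Finset.sum_congr rfl fun i hi => ?_
          rw [mul_assoc w, map_mul (MvPolynomial.aeval s) w, h1 i hi, map_mul, aeval_C, map_pow, aeval_X,
            Algebra.smul_def]
          ring
  have hq'0 : q' ≠ 0 := by
    intro h0
    have h6 := congrArg (fun r => coeff r j) h0
    simp only [hq', finsetSum_coeff, coeff_C_mul_X_pow, coeff_zero] at h6
    rw [Finset.sum_ite_eq] at h6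
    have hjM : j ∈ Finset.range M := by
      rw [Finset.mem_range]
      exact lt_of_le_of_lt (le_natDegree_of_ne_zero hj) hM2
    rw [if_pos hjM] at h6
    exact hφ h6
  have hTq : aeval T q' ≠ 0 := by
    intro h0
    refine hTt ⟨q'.map (algebraMap F B), ?_, ?_⟩
    · rwa [Ne, Polynomial.map_eq_zero]
    · rw [aeval_map_algebraMap]; exact h0
  rw [IntermediateField.mem_adjoin_simple_iff]
  exact ⟨p', q', by rw [← h5]; field_simp⟩

end desc

end Pool.Agent.H436.HP
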