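import Pool.Agent.H436.HP.Val

/-!
# Restriction to the lines in the direction of one coordinate (helper436)
-/

set_option autoImplicit false

namespace Pool.Agent.H436.HP

open Polynomial

section uni

variable {k F Ω α : Type*} [Field k] [Field F] [Algebra k F] [DecidableEq α] [Field Ω]
  [Algebra k Ω] [Algebra F Ω] [IsScalarTower k F Ω]

/-- the restriction of `f` to the line through `z` in the direction of `j` -/
noncomputable def uni (j : α) (z : α → F) (f : MvPolynomial α k) : F[X] :=
  MvPolynomial.aeval (fun i => if i = j then X else C (z i)) f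

lemma aeval_uni (j : α) (z : α → F) (f : MvPolynomial α k) (t : Ω) :
    aeval t (uni j z f) =
      MvPolynomial.aeval (Function.update (fun i => algebraMap F Ω (z i)) j t) f := by
  have h := MvPolynomial.comp_aeval_apply (φ := (aeval t : F[X] →ₐ[F] Ω).restrictScalars k)
    (f := fun i => if i = j then X else C (z i)) f
  have h2 : (fun i => (aeval t : F[X] →ₐ[F] Ω).restrictScalars k
      (if i = j then X else C (z i))) = Function.update (fun i => algebraMap F Ω (z i)) j t := by
    funext i
    by_cases hi : i = j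
    · subst hi
      rw [Function.update_self, if_pos rfl]
      exact aeval_X t
    · rw [Function.update_of_ne hi, if_neg hi]
      exact aeval_C t (z i)
  rw [h2] at h
  exact h

lemma aeval_uni_self (j : α) (z : α → F) (f : MvPolynomial α k) :
    aeval (z j) (uni j z f) = MvPolynomial.aeval z f := by
  rw [aeval_uni]
  congr 2
  exact Function.update_eq_self j z

lemma derivative_uni (j : α) (z : α → F) (f : MvPolynomial α k) :
    derivative (uni j z f) = uni j z (MvPolynomial.pderiv j f) := by
  rw [uni, uni]
  induction f using MvPolynomial.induction_on with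
  | C c =>
    rw [MvPolynomial.algHom_C, MvPolynomial.pderiv_C, map_zero,
      IsScalarTower.algebraMap_apply k F F[X], ← C_eq_algebraMap, derivative_C]
  | add p q hp hq => rw [map_add, map_add, map_add, map_add, hp, hq]
  | mul_X p i hp =>
    rw [map_mul, Derivation.leibniz, MvPolynomial.pderiv_X, derivative_mul, hp, map_add,
      smul_eq_mul, smul_eq_mul, map_mul, map_mul, MvPolynomial.aeval_X]
    by_cases hi : i = j
    · subst hi
      rw [if_pos rfl, derivative_X, Pi.single_eq_same, map_one]
      ring
    · rw [if_neg hi, derivative_C, Pi.single_eq_of_ne hi, map_zero]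
      ring

lemma natDegree_uni (j : α) (z : α → F) (f : MvPolynomial α k) :
    (uni j z f).natDegree ≤ MvPolynomial.degreeOf j f := by
  rw [uni, MvPolynomial.aeval_def, MvPolynomial.eval₂_eq]
  refine natDegree_sum_le_of_forall_le _ _ fun d hd => ?_
  refine natDegree_mul_le.trans ?_
  rw [IsScalarTower.algebraMap_apply k F F[X], ← C_eq_algebraMap, natDegree_C, zero_add]
  refine (natDegree_prod_le _ _).trans ?_
  have h1 : ∀ i ∈ d.support, ((if i = j then X else C (z i) : F[X]) ^ d i).natDegree ≤
      if i = j then d j else 0 := by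
    intro i _
    by_cases hi : i = j
    · subst hi
      rw [if_pos rfl, if_pos rfl, natDegree_X_pow]
    · rw [if_neg hi, if_neg hi, ← C_pow, natDegree_C]
  refine (Finset.sum_le_sum h1).trans ?_
  rw [Finset.sum_ite_eq']
  split_ifs
  · exact MvPolynomial.monomial_le_degreeOf j hd
  · exact Nat.zero_le _

lemma aeval_update (j : α) (z : α → Ω) (t : Ω) {r : MvPolynomial α k} (hr : j ∉ r.vars) :
    MvPolynomial.aeval (Function.update z j t) r = MvPolynomial.aeval z r := by
  refine MvPolynomial.eval₂Hom_congr' rfl (fun i hi _ => ?_) rfl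
  rw [Function.update_of_ne]
  rintro rfl
  exact hr hi

/-- the condition on the third coefficient -/
noncomputable def W3 (j : α) (g : MvPolynomial α k) : MvPolynomial α k :=
  21 * MvPolynomial.pderiv j g ^ 3 -
    36 * g * MvPolynomial.pderiv j g * MvPolynomial.pderiv j (MvPolynomial.pderiv j g) +
    16 * g ^ 2 * MvPolynomial.pderiv j (MvPolynomial.pderiv j (MvPolynomial.pderiv j g))

lemma tc_uni_zero (j : α) (z : α → F) (f : MvPolynomial α k) :
    tc (uni j z f) (z j) 0 = MvPolynomial.aeval z f := by
  rw [tc_zero, aeval_uni_self]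

lemma tc_uni_one (j : α) (z : α → F) (f : MvPolynomial α k) :
    tc (uni j z f) (z j) 1 = MvPolynomial.aeval z (MvPolynomial.pderiv j f) := by
  rw [tc_one, derivative_uni, aeval_uni_self]

lemma tc_uni_two (j : α) (z : α → F) (f : MvPolynomial α k) :
    2 * tc (uni j z f) (z j) 2 =
      MvPolynomial.aeval z (MvPolynomial.pderiv j (MvPolynomial.pderiv j f)) := by
  have h := congrFun (factorial_smul_hasseDeriv (R := F) (k := 2)) (uni j z f)
  rw [← aeval_uni_self, ← derivative_uni, ← derivative_uni]
  have h2 : derivative (derivative (uni j z f)) = (2 : ℕ) • hasseDeriv 2 (uni j z f) := by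
    rw [LinearMap.smul_apply] at h
    exact h.symm
  rw [h2, map_nsmul, nsmul_eq_mul]
  rfl

lemma tc_uni_three (j : α) (z : α → F) (f : MvPolynomial α k) :
    6 * tc (uni j z f) (z j) 3 = MvPolynomial.aeval z
      (MvPolynomial.pderiv j (MvPolynomial.pderiv j (MvPolynomial.pderiv j f))) := by
  have h := congrFun (factorial_smul_hasseDeriv (R := F) (k := 3)) (uni j z f)
  rw [← aeval_uni_self, ← derivative_uni, ← derivative_uni, ← derivative_uni]
  have h2 : derivative (derivative (derivative (uni j z f))) =
      (6 : ℕ) • hasseDeriv 3 (uni j z f) := by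
    rw [LinearMap.smul_apply] at h
    exact h.symm
  rw [h2, map_nsmul, nsmul_eq_mul]
  rfl

lemma vec_uni [CharZero F] {j : α} {z : α → F} {f : MvPolynomial α k}
    (h1 : MvPolynomial.aeval z (MvPolynomial.pderiv j f) ≠ 0)
    (h3 : MvPolynomial.aeval z (W3 j f) ≠ 0) :
    vec 0 (Gs (tc (uni j z f) (z j))) 2 ≠ 0 := by
  intro h
  apply h3
  have e : vec 0 (Gs (tc (uni j z f) (z j))) 2 = -112 +
    6 * (64 * tc (uni j z f) (z j) 2 * tc (uni j z f) (z j) 0 / tc (uni j z f) (z j) 1 ^ 2) +
    (-512 * tc (uni j z f) (z j) 3 * tc (uni j z f) (z j) 0 ^ 2 /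
      tc (uni j z f) (z j) 1 ^ 3) := rfl
  rw [e] at h
  rw [← tc_uni_one] at h1
  field_simp at h
  rw [W3]
  simp only [map_add, map_sub, map_mul, map_pow, map_ofNat]
  rw [← tc_uni_three, ← tc_uni_two, ← tc_uni_one, ← tc_uni_zero j z f]
  linear_combination (-3 / 16) * h

/-- the conditions at a point for the direction `j` -/
def GoodAt (j : α) (g : MvPolynomial α k) (z : α → Ω) : Prop :=
  MvPolynomial.aeval z g ≠ 0 ∧ MvPolynomial.aeval z (MvPolynomial.pderiv j g) ≠ 0 ∧
    MvPolynomial.aeval z (W3 j g) ≠ 0 ∧ ∃ u v r : MvPolynomial α k,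
      u * g + v * MvPolynomial.pderiv j g = r ∧ j ∉ r.vars ∧ MvPolynomial.aeval z r ≠ 0

/-- the simple root -/
lemma exists_simple {j : α} {z : α → F} {g : MvPolynomial α k}
    (h1 : MvPolynomial.aeval z (MvPolynomial.pderiv j g) ≠ 0) {u v r : MvPolynomial α k}
    (hr : u * g + v * MvPolynomial.pderiv j g = r) (hj : j ∉ r.vars)
    (hr0 : MvPolynomial.aeval z r ≠ 0) :
    ∃ b : AlgebraicClosure F, aeval b (uni j z g) = 0 ∧
      aeval b (derivative (uni j z g)) ≠ 0 := by
  have hd : (uni j z g).degree ≠ 0 := by
    intro h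
    have h2 := eq_C_of_degree_eq_zero h
    apply h1
    rw [← aeval_uni_self, ← derivative_uni, h2, derivative_C, map_zero]
  obtain ⟨b, hb⟩ := IsAlgClosed.exists_aeval_eq_zero (AlgebraicClosure F) (uni j z g) hd
  refine ⟨b, hb, ?_⟩
  intro h
  rw [derivative_uni] at h
  rw [aeval_uni] at h hb
  have h2 := congrArg (MvPolynomial.aeval
    (Function.update (fun i => algebraMap F (AlgebraicClosure F) (z i)) j b)) hr
  rw [map_add, map_mul, map_mul, hb, h, mul_zero, mul_zero, add_zero, aeval_update _ _ _ hj] at h2
  have h3 : MvPolynomial.aeval (fun i => algebraMap F (AlgebraicClosure F) (z i)) r =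
    algebraMap F (AlgebraicClosure F) (MvPolynomial.aeval z r) :=
    MvPolynomial.aeval_algebraMap_apply (AlgebraicClosure F) z r
  rw [h3] at h2
  exact hr0 ((map_eq_zero_iff _ (algebraMap F (AlgebraicClosure F)).injective).1 h2.symm)

end uni

end Pool.Agent.H436.HP
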