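import Pool.Agent.H436.HP.Uni

/-!
# The first move is not constant (helper436)
-/

set_option autoImplicit false

namespace Pool.Agent.H436.HP

open Polynomial

section DL

variable {F : Type*} [Field F]

/-- degree at most `n`, and the coefficient of this degree -/
def DL (n : ℕ) (p : F[X]) (c : F) : Prop := p.natDegree ≤ n ∧ p.coeff n = c

namespace DL

variable {m n : ℕ} {p q : F[X]} {c d : F}

lemma lift (h : DL m p c) (hmn : m < n) : DL n p 0 :=
  ⟨h.1.trans hmn.le, coeff_eq_zero_of_natDegree_lt (lt_of_le_of_lt h.1 hmn)⟩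

lemma add (h : DL n p c) (h' : DL n q d) : DL n (p + q) (c + d) :=
  ⟨(natDegree_add_le _ _).trans (max_le h.1 h'.1), by rw [coeff_add, h.2, h'.2]⟩

lemma sub (h : DL n p c) (h' : DL n q d) : DL n (p - q) (c - d) :=
  ⟨(natDegree_sub_le _ _).trans (max_le h.1 h'.1), by rw [coeff_sub, h.2, h'.2]⟩

lemma mul (h : DL m p c) (h' : DL n q d) : DL (m + n) (p * q) (c * d) :=
  ⟨natDegree_mul_le.trans (add_le_add h.1 h'.1), by
    rw [coeff_mul_add_eq_of_natDegree_le h.1 h'.1, h.2, h'.2]⟩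

lemma sq (h : DL n p c) : DL (n + n) (p ^ 2) (c ^ 2) := by
  rw [pow_two, pow_two]
  exact h.mul h

lemma cube (h : DL n p c) : DL (n + n + n) (p ^ 3) (c ^ 3) := by
  have e : p ^ 3 = p * p * p := by ring
  have e' : c ^ 3 = c * c * c := by ring
  rw [e, e']
  exact (h.mul h).mul h

lemma four (h : DL n p c) : DL (n + n + (n + n)) (p ^ 4) (c ^ 4) := by
  have e : p ^ 4 = p * p * (p * p) := by ring
  have e' : c ^ 4 = c * c * (c * c) := by ring
  rw [e, e']
  exact (h.mul h).mul (h.mul h)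

lemma C (a : F) : DL 0 (Polynomial.C a) a := ⟨(natDegree_C a).le, coeff_C_zero⟩

lemma X : DL 1 (Polynomial.X : F[X]) 1 := ⟨natDegree_X_le, coeff_X_one⟩

lemma num (k : ℕ) [k.AtLeastTwo] : DL 0 (OfNat.ofNat k : F[X]) (OfNat.ofNat k) := by
  have h : (OfNat.ofNat k : F[X]) = Polynomial.C (OfNat.ofNat k : F) := by
    rw [map_ofNat]
  rw [h]
  exact DL.C _

lemma cast {n' : ℕ} {c' : F} (h : DL n p c) (hn : n = n') (hc : c = c') : DL n' p c' := by
  subst hn; subst hc; exact h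

end DL

variable {v : Fin 8 → F[X]} {w : Fin 8 → F}

lemma dl_J (h0 : v 0 = X) (h : ∀ i, i ≠ 0 → DL 0 (v i) (w i)) : DL 1 (dJ v) (8 * w 2) := by
  have h1 : DL 1 (v 0) 1 := by rw [h0]; exact DL.X
  have a := ((DL.num 2).mul (h 4 (by decide))).lift (n := 1) (by norm_num)
  have b := (h 2 (by decide)).mul (h1.sub ((h 1 (by decide)).lift (n := 1) (by norm_num)))
  have c := (DL.num 8).mul (a.add (b.cast (n' := 1) (by norm_num) rfl))
  exact c.cast (by norm_num) (by ring)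

lemma dl_I (h0 : v 0 = X) (h : ∀ i, i ≠ 0 → DL 0 (v i) (w i)) : DL 3 (dI v) (-7) := by
  have h1 : DL 1 (v 0) 1 := by rw [h0]; exact DL.X
  have h10 : DL 1 (v 1 + v 0) (0 + 1) := ((h 1 (by decide)).lift (by norm_num)).add h1
  have a1 := ((DL.num 4).mul h1).mul h10.sq
  have a2 := ((((DL.num 8).mul h10).mul (h 3 (by decide)))).lift (n := 3) (by norm_num)
  have a3 := (DL.num 2).mul h10.cube
  have a4 := ((DL.num 4).mul (h 2 (by decide)).sq).lift (n := 3) (by norm_num)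
  have a5 := ((DL.num 16).mul (h 5 (by decide))).lift (n := 3) (by norm_num)
  have a6 : DL 1 (v 1 + 3 * v 0) (0 + 3 * 1) :=
    ((h 1 (by decide)).lift (by norm_num)).add ((DL.num 3).mul h1)
  have a7 := h1.mul a6.sq
  have := ((((a1.cast (n' := 3) (by norm_num) rfl).add a2).sub
    (a3.cast (n' := 3) (by norm_num) rfl)).add a4 |>.sub a5).sub
    (a7.cast (n' := 3) (by norm_num) rfl)
  exact this.cast rfl (by ring)

lemma dl_3 (h0 : v 0 = X) (h : ∀ i, i ≠ 0 → DL 0 (v i) (w i)) : DL 4 (d3 v) 14 := by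
  have h1 : DL 1 (v 0) 1 := by rw [h0]; exact DL.X
  have a1 := ((h 2 (by decide)).mul (dl_J h0 h)).lift (n := 4) (by norm_num)
  have a2 := ((DL.num 2).mul h1).mul (dl_I h0 h)
  exact (a1.sub (a2.cast (n' := 4) (by norm_num) rfl)).cast rfl (by ring)

lemma dl_4 (h0 : v 0 = X) (h : ∀ i, i ≠ 0 → DL 0 (v i) (w i)) : DL 7 (d4 v) 196 := by
  have h1 : DL 1 (v 0) 1 := by rw [h0]; exact DL.X
  have h10 : DL 1 (v 1 + v 0) (0 + 1) := ((h 1 (by decide)).lift (by norm_num)).add h1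
  have a1 := ((DL.num 4).mul (h 3 (by decide))).lift (n := 2) (by norm_num)
  have a2 := h10.sq
  have a3 := ((DL.num 2).mul h1).mul
    ((((h 1 (by decide)).lift (n := 1) (by norm_num))).sub h1)
  have a4 := (((a1.sub a2).add (a3.cast (n' := 1 + 1) (by norm_num) rfl)).mul
    (dl_J h0 h).sq).lift (n := 7) (by norm_num)
  have a5 := ((DL.num 4).mul h1).mul (dl_I h0 h).sq
  exact (a4.add (a5.cast (n' := 7) (by norm_num) rfl)).cast rfl (by ring)

lemma dl_e (h0 : v 0 = X) (h : ∀ i, i ≠ 0 → DL 0 (v i) (w i)) : DL 5 (e4 v) 21 := by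
  have h1 : DL 1 (v 0) 1 := by rw [h0]; exact DL.X
  have h10 : DL 1 (v 1 + v 0) (0 + 1) := ((h 1 (by decide)).lift (by norm_num)).add h1
  have a1 := h10.mul (dl_3 h0 h)
  have a2 := (((DL.num 2).mul (h 4 (by decide))).mul (dl_J h0 h)).lift (n := 5) (by norm_num)
  have a3 := (h1.mul ((((h 1 (by decide)).lift (n := 1) (by norm_num))).sub h1)).mul (dl_I h0 h)
  exact (((a1.cast (n' := 5) (by norm_num) rfl).sub a2).add
    (a3.cast (n' := 5) (by norm_num) rfl)).cast rfl (by ring)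

lemma dl_7 (h0 : v 0 = X) (h : ∀ i, i ≠ 0 → DL 0 (v i) (w i)) : DL 11 (n7 v) (-2744) := by
  have h1 : DL 1 (v 0) 1 := by rw [h0]; exact DL.X
  have a1 := (((DL.num 8).mul (dl_J h0 h).cube).mul (h 6 (by decide))).lift (n := 11) (by norm_num)
  have a2 := (dl_3 h0 h).mul (dl_4 h0 h)
  have a3 := ((((((h 1 (by decide)).lift (n := 1) (by norm_num))).sub h1).mul
    (dl_e h0 h)).mul (dl_J h0 h).sq).lift (n := 11) (by norm_num)
  exact ((a1.sub (a2.cast (n' := 11) (by norm_num) rfl)).add a3).cast rfl (by ring)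

lemma dl_8 (h0 : v 0 = X) (h : ∀ i, i ≠ 0 → DL 0 (v i) (w i)) : DL 15 (n8 v) (-38416) := by
  have h1 : DL 1 (v 0) 1 := by rw [h0]; exact DL.X
  have a1 := ((((DL.num 64).mul h1).mul (dl_J h0 h).four).mul (h 7 (by decide))).lift
    (n := 15) (by norm_num)
  have a2 := h1.mul (dl_4 h0 h).sq
  have a3 := (((DL.num 4).mul (dl_J h0 h).sq).mul (dl_e h0 h).sq).lift (n := 15) (by norm_num)
  exact ((a1.sub (a2.cast (n' := 15) (by norm_num) rfl)).add a3).cast rfl (by ring)

lemma dl_N (h0 : v 0 = X) (h : ∀ i, i ≠ 0 → DL 0 (v i) (w i)) : DL 15 (NN v) (-38416) := by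
  have h1 : DL 1 (v 0) 1 := by rw [h0]; exact DL.X
  have a1 := ((((DL.num 8).mul h1).mul (dl_J h0 h)).mul (dl_7 h0 h)).lift (n := 15) (by norm_num)
  exact ((dl_8 h0 h).sub a1).cast rfl (by ring)

lemma dl_P (h0 : v 0 = X) (h : ∀ i, i ≠ 0 → DL 0 (v i) (w i)) :
    DL 13 (v 0 * dJ v * n7 v) (-(2744 * (8 * w 2))) := by
  have h1 : DL 1 (v 0) 1 := by rw [h0]; exact DL.X
  exact ((h1.mul (dl_J h0 h)).mul (dl_7 h0 h)).cast (by norm_num) (by ring)

end DL

section red

variable {F B : Type*} [Field F] [Field B] [Algebra F B] [IsAlgClosed B]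

/-- A fraction of negative degree takes every nonzero value. -/
lemma value {P Q : F[X]} (hP : P ≠ 0) (hPQ : P.natDegree < Q.natDegree) {δ : B} (hδ : δ ≠ 0) :
    ∃ (P' Q' D : F[X]) (s : B), D * P' = P ∧ D * Q' = Q ∧ D ≠ 0 ∧
      aeval s Q' ≠ 0 ∧ aeval s P' = δ * aeval s Q' ∧
      C δ * Q'.map (algebraMap F B) - P'.map (algebraMap F B) ≠ 0 := by
  have hQ : Q ≠ 0 := by
    rintro rfl
    rw [natDegree_zero] at hPQ
    exact absurd hPQ (Nat.not_lt_zero _)
  obtain ⟨P', Q', D, hrel, h1, h2⟩ :=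
    UniqueFactorizationMonoid.exists_reduced_factors' P Q hQ
  have hcop : IsCoprime P' Q' := hrel.isCoprime
  have hD : D ≠ 0 := by rintro rfl; rw [zero_mul] at h2; exact hQ h2.symm
  have hP' : P' ≠ 0 := by rintro rfl; rw [mul_zero] at h1; exact hP h1.symm
  have hQ' : Q' ≠ 0 := by rintro rfl; rw [mul_zero] at h2; exact hQ h2.symm
  have hdeg : P'.natDegree < Q'.natDegree := by
    rw [← h1, ← h2, natDegree_mul hD hP', natDegree_mul hD hQ'] at hPQ
    omega
  obtain ⟨W, hW⟩ : ∃ W : B[X], W = C δ * Q'.map (algebraMap F B) - P'.map (algebraMap F B) :=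
    ⟨_, rfl⟩
  have hWd : W.natDegree = Q'.natDegree := by
    rw [hW, natDegree_sub_eq_left_of_natDegree_lt, natDegree_C_mul hδ, natDegree_map]
    rw [natDegree_C_mul hδ, natDegree_map, natDegree_map]
    exact hdeg
  have hW0 : W ≠ 0 := by
    intro h0
    rw [h0, natDegree_zero] at hWd
    rw [← hWd] at hdeg
    exact Nat.not_lt_zero _ hdeg
  have hWdeg : W.degree ≠ 0 := by
    intro h
    have h1 : W.natDegree = 0 := natDegree_eq_of_degree_eq_some h
    omega
  obtain ⟨s, hs⟩ := IsAlgClosed.exists_root W hWdeg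
  have hs' : δ * aeval s Q' - aeval s P' = 0 := by
    have := hs
    rw [IsRoot, hW, eval_sub, eval_mul, eval_C, eval_map, eval_map, ← aeval_def,
      ← aeval_def] at this
    exact this
  refine ⟨P', Q', D, s, h1, h2, hD, ?_, (sub_eq_zero.1 hs').symm, hW ▸ hW0⟩
  intro h0
  rw [h0, mul_zero, zero_sub, neg_eq_zero] at hs'
  obtain ⟨a, b, hab⟩ := hcop
  have h3 := congrArg (aeval s) hab
  rw [map_add, map_mul, map_mul, h0, hs', mul_zero, mul_zero, add_zero, map_one] at h3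
  exact zero_ne_one h3

end red

end Pool.Agent.H436.HP
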