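import Pool.Agent.H436.HP.Dir

/-!
# Squarefree polynomials are separable in each direction (helper436)
-/

set_option autoImplicit false

namespace Pool.Agent.H436.HP

section uni

open Polynomial

variable {R : Type*} [CommRing R] [IsDomain R] [UniqueFactorizationMonoid R]

lemma sqf_map (K : Type*) [Field K] [Algebra R K] [IsFractionRing R K] {F : R[X]}
    (hF : Squarefree F) : Squarefree (F.map (algebraMap R K)) := by
  classical
  have hG : IsGCDMonoid R := ⟨UniqueFactorizationMonoid.toGCDMonoid R⟩
  let _ : NormalizedGCDMonoid R := Nonempty.some inferInstance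
  intro p hp
  have hinj : Function.Injective (algebraMap R K) := IsFractionRing.injective R K
  have hF0 : F.map (algebraMap R K) ≠ 0 := by
    rw [Ne, Polynomial.map_eq_zero_iff hinj]
    exact hF.ne_zero
  have hp0 : p ≠ 0 := by
    rintro rfl
    rw [zero_mul, zero_dvd_iff] at hp
    exact hF0 hp
  obtain ⟨q, hq⟩ : ∃ q, q = (IsLocalization.integerNormalization (nonZeroDivisors R) p).primPart :=
    ⟨_, rfl⟩
  have hqp : q.IsPrimitive := by rw [hq]; exact isPrimitive_primPart _
  have hqd : q.map (algebraMap R K) ∣ p := by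
    obtain ⟨c, c0, hc⟩ := IsLocalization.integerNormalization_spec (nonZeroDivisors R) p
    have h1 : q ∣ IsLocalization.integerNormalization (nonZeroDivisors R) p := by
      rw [hq]; exact primPart_dvd _
    have h2 := Polynomial.map_dvd (algebraMap R K) h1
    rw [hc, Algebra.smul_def, Polynomial.algebraMap_apply] at h2
    have h3 : IsUnit (C (algebraMap R K c)) := by
      rw [isUnit_C, isUnit_iff_ne_zero, Ne, map_eq_zero_iff _ hinj]
      exact nonZeroDivisors.ne_zero c0
    exact h3.dvd_mul_left.1 h2
  have h4 : (q * q).map (algebraMap R K) ∣ F.map (algebraMap R K) := by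
    rw [Polynomial.map_mul]
    exact (mul_dvd_mul hqd hqd).trans hp
  have h5 : q * q ∣ F := (hqp.mul hqp).dvd_of_fraction_map_dvd_fraction_map h4
  have h6 := hF q h5
  rw [hq] at h6
  exact isUnit_or_eq_zero_of_isUnit_integerNormalization_primPart hp0 h6

lemma sqf_bezout [CharZero R] {F : R[X]} (hF : Squarefree F) :
    ∃ (u v : R[X]) (r : R), u * F + v * derivative F = C r ∧ r ≠ 0 := by
  let K := FractionRing R
  have hinj : Function.Injective (algebraMap R K) := IsFractionRing.injective R K
  have : CharZero K := charZero_of_injective_algebraMap hinj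
  have h1 : (F.map (algebraMap R K)).Separable :=
    PerfectField.separable_iff_squarefree.2 (sqf_map K hF)
  obtain ⟨A, B, hAB⟩ := h1
  obtain ⟨c, c0, hc⟩ := IsLocalization.integerNormalization_spec (nonZeroDivisors R) A
  obtain ⟨d, d0, hd⟩ := IsLocalization.integerNormalization_spec (nonZeroDivisors R) B
  rw [Algebra.smul_def, Polynomial.algebraMap_apply] at hc hd
  refine ⟨C d * IsLocalization.integerNormalization (nonZeroDivisors R) A,
    C c * IsLocalization.integerNormalization (nonZeroDivisors R) B, c * d, ?_,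
    mul_ne_zero (nonZeroDivisors.ne_zero c0) (nonZeroDivisors.ne_zero d0)⟩
  apply Polynomial.map_injective (algebraMap R K) hinj
  rw [Polynomial.map_add, Polynomial.map_mul, Polynomial.map_mul, Polynomial.map_mul,
    Polynomial.map_mul, hc, hd, ← derivative_map, map_C, map_C, map_C, map_mul, C_mul]
  rw [derivative_map] at hAB ⊢
  linear_combination (C (algebraMap R K c) * C (algebraMap R K d)) * hAB

end uni

section multi

variable {k α : Type*} [Field k] [CharZero k] [DecidableEq α]

/-- the polynomial ring as a ring of polynomials in one variable -/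
noncomputable def Φj (k : Type*) [Field k] (j : α) :
    MvPolynomial α k ≃ₐ[k] Polynomial (MvPolynomial {i // i ≠ j} k) :=
  (MvPolynomial.renameEquiv k (Equiv.optionSubtypeNe j).symm).trans
    (MvPolynomial.optionEquivLeft k {i // i ≠ j})

omit [CharZero k] in
lemma Φj_self (j : α) : Φj k j (MvPolynomial.X j) = Polynomial.X := by
  simp [Φj]

omit [CharZero k] in
lemma Φj_ne {j i : α} (h : i ≠ j) :
    Φj k j (MvPolynomial.X i) = Polynomial.C (MvPolynomial.X ⟨i, h⟩) := by
  simp [Φj, Equiv.optionSubtypeNe_symm_of_ne h]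

omit [CharZero k] in
lemma Φj_C (j : α) (c : k) : Φj k j (MvPolynomial.C c) = Polynomial.C (MvPolynomial.C c) := by
  simp [Φj]

omit [CharZero k] in
lemma Φj_pderiv (j : α) (f : MvPolynomial α k) :
    Φj k j (MvPolynomial.pderiv j f) = Polynomial.derivative (Φj k j f) := by
  induction f using MvPolynomial.induction_on with
  | C c => rw [MvPolynomial.pderiv_C, map_zero, Φj_C, Polynomial.derivative_C]
  | add p q hp hq => rw [map_add, map_add, map_add, map_add, hp, hq]
  | mul_X p i hp =>
    rw [Derivation.leibniz, MvPolynomial.pderiv_X, map_mul (Φj k j) p, Polynomial.derivative_mul,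
      ← hp, map_add, smul_eq_mul, smul_eq_mul, map_mul, map_mul]
    by_cases hi : i = j
    · subst hi
      rw [Φj_self, Polynomial.derivative_X, Pi.single_eq_same, map_one]
      ring
    · rw [Φj_ne hi, Polynomial.derivative_C, Pi.single_eq_of_ne hi, map_zero]
      ring

omit [CharZero k] in
lemma Φj_rename (j : α) (r : MvPolynomial {i // i ≠ j} k) :
    Φj k j (MvPolynomial.rename Subtype.val r) = Polynomial.C r := by
  induction r using MvPolynomial.induction_on with
  | C c => rw [MvPolynomial.rename_C, Φj_C]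
  | add p q hp hq => rw [map_add, map_add, hp, hq, Polynomial.C_add]
  | mul_X p i hp => rw [map_mul, map_mul, hp, MvPolynomial.rename_X, Φj_ne i.2, Polynomial.C_mul]

lemma sqf_dir {f : MvPolynomial α k} (hf : Squarefree f) (j : α) :
    ∃ u v r : MvPolynomial α k, u * f + v * MvPolynomial.pderiv j f = r ∧ j ∉ r.vars ∧ r ≠ 0 := by
  have h1 : Squarefree (Φj k j f) := by
    intro p hp
    have h2 : (Φj k j).symm p * (Φj k j).symm p ∣ f := by
      obtain ⟨q, hq⟩ := hp
      refine ⟨(Φj k j).symm q, ?_⟩
      apply (Φj k j).injective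
      rw [map_mul, map_mul, AlgEquiv.apply_symm_apply, AlgEquiv.apply_symm_apply]
      exact hq
    have h3 := (hf _ h2).map (Φj k j)
    rwa [AlgEquiv.apply_symm_apply] at h3
  obtain ⟨u, v, r, h, hr⟩ := sqf_bezout h1
  refine ⟨(Φj k j).symm u, (Φj k j).symm v, MvPolynomial.rename Subtype.val r, ?_, ?_, ?_⟩
  · apply (Φj k j).injective
    rw [map_add, map_mul, map_mul, AlgEquiv.apply_symm_apply, AlgEquiv.apply_symm_apply,
      Φj_pderiv, Φj_rename]
    exact h
  · intro hj
    have h2 := MvPolynomial.vars_rename (Subtype.val : {i // i ≠ j} → α) r hj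
    rw [Finset.mem_image] at h2
    obtain ⟨i, -, hi⟩ := h2
    exact i.2 hi
  · intro h0
    rw [← map_zero (MvPolynomial.rename (Subtype.val : {i // i ≠ j} → α))] at h0
    exact hr (MvPolynomial.rename_injective _ Subtype.val_injective h0)

lemma W3_ne {f : MvPolynomial α k} (hf0 : f ≠ 0) {j : α} (hj : MvPolynomial.pderiv j f ≠ 0)
    {u v r : MvPolynomial α k}
    (hr : u * f + v * MvPolynomial.pderiv j f = r) (hjr : j ∉ r.vars) (hr0 : r ≠ 0) :
    W3 j f ≠ 0 := by
  intro h
  apply hj
  -- `f` divides `r ^ 3`
  have h1 : f ∣ 21 * r ^ 3 := by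
    have e : 21 * MvPolynomial.pderiv j f ^ 3 = f * (36 * MvPolynomial.pderiv j f *
        MvPolynomial.pderiv j (MvPolynomial.pderiv j f) -
        16 * f * MvPolynomial.pderiv j (MvPolynomial.pderiv j (MvPolynomial.pderiv j f))) := by
      rw [W3] at h
      linear_combination h
    rw [← hr]
    have e2 : 21 * (u * f + v * MvPolynomial.pderiv j f) ^ 3 =
        f * (21 * (u ^ 3 * f ^ 2 + 3 * u ^ 2 * f * (v * MvPolynomial.pderiv j f) +
          3 * u * (v * MvPolynomial.pderiv j f) ^ 2)) +
        v ^ 3 * (21 * MvPolynomial.pderiv j f ^ 3) := by ring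
    rw [e2, e]
    exact dvd_add (dvd_mul_right _ _) ((dvd_mul_right f _).mul_left _)
  obtain ⟨q, hq⟩ := h1
  have h21 : (21 : MvPolynomial α k) * r ^ 3 ≠ 0 := by
    have : (21 : MvPolynomial α k) = MvPolynomial.C 21 := by rw [map_ofNat]
    refine mul_ne_zero ?_ (pow_ne_zero _ hr0)
    rw [this, Ne, MvPolynomial.C_eq_zero]
    norm_num
  have hq0 : q ≠ 0 := by
    rintro rfl
    rw [mul_zero] at hq
    exact h21 hq
  have h2 : MvPolynomial.degreeOf j f = 0 := by
    have h3 := congrArg (MvPolynomial.degreeOf j) hq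
    rw [MvPolynomial.degreeOf_mul_eq hf0 hq0] at h3
    have h4 : MvPolynomial.degreeOf j (21 * r ^ 3 : MvPolynomial α k) = 0 := by
      have : (21 : MvPolynomial α k) = MvPolynomial.C 21 := by rw [map_ofNat]
      rw [this]
      have h5 : MvPolynomial.degreeOf j r = 0 := by
        by_contra h6
        exact hjr (MvPolynomial.mem_vars_iff_degreeOf_ne_zero.2 h6)
      have h6 := MvPolynomial.degreeOf_C_mul_le (r ^ 3) j (21 : k)
      have h7 := MvPolynomial.degreeOf_pow_le j r 3
      omega
    omega
  refine MvPolynomial.pderiv_eq_zero_of_notMem_vars ?_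
  intro h3
  exact MvPolynomial.mem_vars_iff_degreeOf_ne_zero.1 h3 h2

end multi

end Pool.Agent.H436.HP
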