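import Pool.Agent.H436.HP.Real
import Pool.Agent.H436.HP.Sqf

/-!
# The general polynomials of degree at most eight (helper436)
-/

set_option autoImplicit false

namespace Pool.Agent.H436.HP

open Pool.Agent.TH178.HI MvPolynomial

section hyp

variable {k : Type} [Field k] [CharZero k] {n : ℕ}

omit [CharZero k] in
lemma exists_sq {g : MvPolynomial (Fin n) k} (hg : g ≠ 0) :
    ∃ s g' : MvPolynomial (Fin n) k, g = s ^ 2 * g' ∧ Squarefree g' := by
  induction g using (IsWellFounded.wf (r := DvdNotUnit (α := MvPolynomial (Fin n) k))).induction with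
  | _ g ih =>
    by_cases h : Squarefree g
    · exact ⟨1, g, by ring, h⟩
    · rw [Squarefree] at h
      push Not at h
      obtain ⟨x, ⟨y, hy⟩, hx⟩ := h
      have hy0 : y ≠ 0 := by
        rintro rfl
        rw [mul_zero] at hy
        exact hg hy
      obtain ⟨s, g', h1, h2⟩ := ih y ⟨hy0, x * x, fun h => hx (isUnit_of_mul_isUnit_left h), by
        rw [hy]; ring⟩ hy0
      exact ⟨x * s, g', by rw [hy, h1]; ring, h2⟩

lemma pderiv_ne {g : MvPolynomial (Fin n) k} {j : Fin n} (hj : j ∈ g.vars) :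
    pderiv j g ≠ 0 := by
  intro h
  have h1 : Polynomial.derivative (Φj k j g) = 0 := by rw [← Φj_pderiv, h, map_zero]
  have h2 := Polynomial.derivative_eq_zero.1 h1
  obtain ⟨r, hr⟩ := Polynomial.natDegree_eq_zero.1 h2
  have h3 : g = rename Subtype.val r := by
    apply (Φj k j).injective
    rw [Φj_rename, hr]
  rw [h3] at hj
  have h4 := vars_rename (Subtype.val : {i // i ≠ j} → Fin n) r hj
  rw [Finset.mem_image] at h4
  obtain ⟨i, -, hi⟩ := h4
  exact i.2 hi

/-- the polynomial of the good points -/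
lemma exists_Hg {g : MvPolynomial (Fin n) k} (hg : Squarefree g) :
    ∃ H : MvPolynomial (Fin n) k, H ≠ 0 ∧ ∀ (E : Type) [Field E] [Algebra k E] (z : Fin n → E),
      aeval z H ≠ 0 → aeval z g ≠ 0 ∧ ∀ j ∈ g.vars, GoodAt j g z := by
  choose u v r hr hj hr0 using fun j => sqf_dir hg j
  refine ⟨g * ∏ j ∈ g.vars, (pderiv j g * W3 j g * r j), ?_, ?_⟩
  · refine mul_ne_zero hg.ne_zero (Finset.prod_ne_zero_iff.2 fun j h => ?_)
    exact mul_ne_zero (mul_ne_zero (pderiv_ne h)
      (W3_ne hg.ne_zero (pderiv_ne h) (hr j) (hj j) (hr0 j))) (hr0 j)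
  · intro E _ _ z hz
    rw [map_mul, map_prod] at hz
    have h0 := left_ne_zero_of_mul hz
    refine ⟨h0, fun j h => ?_⟩
    have h1 := Finset.prod_ne_zero_iff.1 (right_ne_zero_of_mul hz) j h
    rw [map_mul, map_mul] at h1
    exact ⟨h0, left_ne_zero_of_mul (left_ne_zero_of_mul h1),
      right_ne_zero_of_mul (left_ne_zero_of_mul h1), u j, v j, r j, hr j, hj j,
      right_ne_zero_of_mul h1⟩

omit [CharZero k] in
lemma vars_of_mul {s g : MvPolynomial (Fin n) k} (hs : s ≠ 0) (hg : g ≠ 0) {j : Fin n}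
    (hj : j ∈ g.vars) : j ∈ (s ^ 2 * g).vars := by
  rw [mem_vars_iff_degreeOf_ne_zero] at hj ⊢
  rw [degreeOf_mul_eq (pow_ne_zero 2 hs) hg]
  omega

end hyp

section cover

variable {k K : Type} [Field k] [Field K] [Algebra k K] {n : ℕ}

lemma snoc_indep {t : Fin n → K} {y : K} (ht : AlgebraicIndependent k t)
    (hy : Transcendental (IntermediateField.adjoin k (Set.range t)) y) :
    AlgebraicIndependent k ((fun o : Option (Fin n) => o.elim y t) ∘ finSuccEquivLast) := by
  have h1 : AlgebraicIndependent k (fun o : Option (Fin n) => o.elim y t) := by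
    rw [ht.option_iff_transcendental, ← IntermediateField.transcendental_adjoin_iff]
    exact hy
  exact h1.comp _ finSuccEquivLast.injective

/-- A change of the model of the double cover. -/
lemma cover_change {a f a' f' s r : MvPolynomial (Fin n) k} (ha : a = s ^ 2 * a')
    (hf : f = r ^ 2 * f') (hs : s ≠ 0) (hr : r ≠ 0) (hK : IsCoverField k (cbp a f) K) :
    IsCoverField k (cbp a' f') K := by
  obtain ⟨t, w, ht, hw, htop⟩ := hK
  obtain ⟨τ, hτ⟩ : ∃ τ : Fin n → K, τ = t ∘ Fin.castSucc := ⟨_, rfl⟩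
  obtain ⟨Y, hY⟩ : ∃ Y, Y = t (Fin.last n) := ⟨_, rfl⟩
  have hτi : AlgebraicIndependent k τ := by
    rw [hτ]; exact ht.comp _ (Fin.castSucc_injective n)
  have hY0 : Transcendental (IntermediateField.adjoin k (Set.range τ)) Y := by
    have h2 := ht.transcendental_adjoin (s := Set.range Fin.castSucc) (i := Fin.last n) (by
      rintro ⟨i, hi⟩
      exact (Fin.castSucc_lt_last i).ne hi)
    rw [IntermediateField.transcendental_adjoin_iff, hτ, hY, Set.range_comp]
    exact h2
  have ev : ∀ g : MvPolynomial (Fin n) k, g ≠ 0 → aeval τ g ≠ 0 := fun g hg h =>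
    hg (hτi (by rw [h, map_zero]))
  obtain ⟨S, hS⟩ : ∃ S, S = aeval τ s := ⟨_, rfl⟩
  obtain ⟨ρ, hρ⟩ : ∃ ρ, ρ = aeval τ r := ⟨_, rfl⟩
  have hS0 : S ≠ 0 := by rw [hS]; exact ev s hs
  have hρ0 : ρ ≠ 0 := by rw [hρ]; exact ev r hr
  have hmem : ∀ g : MvPolynomial (Fin n) k,
      aeval τ g ∈ IntermediateField.adjoin k (Set.range τ) := fun g =>
    aeval_mem' (fun i => IntermediateField.subset_adjoin k _ (Set.mem_range_self i)) g
  have hY' : Transcendental (IntermediateField.adjoin k (Set.range τ)) (S / ρ * Y) := by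
    intro h
    apply hY0
    have e : Y = ρ / S * (S / ρ * Y) := by field_simp
    rw [e]
    refine IsAlgebraic.mul ?_ h
    have h1 : ρ / S ∈ IntermediateField.adjoin k (Set.range τ) := by
      rw [hρ, hS]
      exact IntermediateField.div_mem _ (hmem r) (hmem s)
    exact isAlgebraic_algebraMap (⟨ρ / S, h1⟩ : IntermediateField.adjoin k (Set.range τ))
  have hevc : ∀ (b : Fin (n + 1) → K) (A B : MvPolynomial (Fin n) k),
      aeval b (cbp A B) = aeval (b ∘ Fin.castSucc) A * b (Fin.last n) ^ 2 +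
        aeval (b ∘ Fin.castSucc) B := by
    intro b A B
    rw [cbp, map_add, map_mul, map_pow, aeval_rename, aeval_rename, aeval_X]
  obtain ⟨y, hy⟩ : ∃ y : Fin (n + 1) → K,
    y = (fun o : Option (Fin n) => o.elim (S / ρ * Y) τ) ∘ finSuccEquivLast := ⟨_, rfl⟩
  have hyc : ∀ i : Fin n, y i.castSucc = τ i := fun i => by
    rw [hy]
    change (finSuccEquivLast i.castSucc).elim _ τ = τ i
    rw [finSuccEquivLast_castSucc]
    rfl
  have hyl : y (Fin.last n) = S / ρ * Y := by
    rw [hy]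
    change (finSuccEquivLast (Fin.last n)).elim (S / ρ * Y) τ = _
    rw [finSuccEquivLast_last]
    rfl
  refine ⟨y, w / ρ, ?_, ?_, ?_⟩
  · rw [hy]
    exact snoc_indep hτi hY'
  · rw [hevc] at hw ⊢
    have e1 : y ∘ Fin.castSucc = τ := funext hyc
    rw [e1, hyl, div_pow, hw, ← hτ, ← hY, ha, hf, map_mul, map_mul, map_pow, map_pow, ← hS, ← hρ]
    field_simp
  · rw [eq_top_iff, ← htop, IntermediateField.adjoin_le_iff]
    obtain ⟨M, hM⟩ : ∃ M, M = IntermediateField.adjoin k (insert (w / ρ) (Set.range y)) :=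
      ⟨_, rfl⟩
    have hyM : ∀ i, y i ∈ M := fun i => by
      rw [hM]; exact IntermediateField.subset_adjoin _ _ (Or.inr ⟨i, rfl⟩)
    have hτM : ∀ i, τ i ∈ M := fun i => by rw [← hyc]; exact hyM _
    have hSM : S ∈ M := by rw [hS]; exact aeval_mem' hτM s
    have hρM : ρ ∈ M := by rw [hρ]; exact aeval_mem' hτM r
    have hwM : w / ρ ∈ M := by
      rw [hM]; exact IntermediateField.subset_adjoin _ _ (Or.inl rfl)
    rw [← hM]
    rintro b (rfl | ⟨i, rfl⟩)
    · have e : b = b / ρ * ρ := by field_simp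
      rw [SetLike.mem_coe, e]
      exact mul_mem hwM hρM
    · refine Fin.lastCases ?_ (fun i => ?_) i
      · have e : t (Fin.last n) = y (Fin.last n) * (ρ / S) := by
          rw [hyl, ← hY]; field_simp
        rw [SetLike.mem_coe, e]
        exact mul_mem (hyM _) (IntermediateField.div_mem _ hρM hSM)
      · have e : t i.castSucc = τ i := by rw [hτ]; rfl
        rw [SetLike.mem_coe, e]
        exact hτM i

end cover

section main

/-- The condition on the fibre of the conic bundle over `c`. -/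
def Split {k : Type} [Field k] {n : ℕ} (a f : MvPolynomial (Fin n) k) (c : Fin n → k) : Prop :=
  ∃ X Y W : k, ¬ (X = 0 ∧ Y = 0 ∧ W = 0) ∧ X ^ 2 = eval c a * Y ^ 2 + eval c f * W ^ 2

/-- **Function fields of conic bundles of degree at most eight.** -/
theorem field_thm {k : Type} [Field k] [CharZero k] {n : ℕ} {a f : MvPolynomial (Fin n) k}
    (ha : a ≠ 0) (hf : f ≠ 0) (hdis : ∀ j, j ∉ a.vars ∨ j ∉ f.vars)
    (hda : ∀ j, degreeOf j a ≤ 8) (hdf : ∀ j, degreeOf j f ≤ 8) :
    ∃ h : MvPolynomial (Fin n) k, h ≠ 0 ∧ ∀ c : Fin n → k, eval c h ≠ 0 → Split a f c →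
      ∀ (K : Type) [Field K] [Algebra k K], IsCoverField k (cbp a f) K → Realizable k K := by
  obtain ⟨s, a', ha', hsa⟩ := exists_sq ha
  obtain ⟨r, f', hf', hsf⟩ := exists_sq hf
  have hs : s ≠ 0 := by
    rintro rfl
    exact ha (by rw [ha']; ring)
  have hr : r ≠ 0 := by
    rintro rfl
    exact hf (by rw [hf']; ring)
  obtain ⟨Ha, hHa, hHa'⟩ := exists_Hg hsa
  obtain ⟨Hf, hHf, hHf'⟩ := exists_Hg hsf
  have hdeg : ∀ (s g : MvPolynomial (Fin n) k) (j : Fin n), s ≠ 0 → g ≠ 0 →
      degreeOf j g ≤ degreeOf j (s ^ 2 * g) := fun s g j hs hg => by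
    rw [degreeOf_mul_eq (pow_ne_zero 2 hs) hg]
    omega
  refine ⟨s * r * (Ha * Hf), mul_ne_zero (mul_ne_zero hs hr) (mul_ne_zero hHa hHf), ?_⟩
  rintro c hc ⟨X, Y, W, h0, hX⟩ K _ _ hK
  rw [map_mul, map_mul] at hc
  have hsr := left_ne_zero_of_mul hc
  have hc1 := left_ne_zero_of_mul hsr
  have hc2 := right_ne_zero_of_mul hsr
  refine realizable (a := a') (f := f') (H := Ha * Hf) (c := c) (X := X) (Y := eval c s * Y)
    (W := eval c r * W) ?_ ?_ ?_ ?_ (right_ne_zero_of_mul hc) ?_ ?_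
    (cover_change ha' hf' hs hr hK)
  · intro j
    rcases hdis j with h | h
    · exact Or.inl fun h' => h (ha' ▸ vars_of_mul hs hsa.ne_zero h')
    · exact Or.inr fun h' => h (hf' ▸ vars_of_mul hr hsf.ne_zero h')
  · exact fun j => (hdeg s a' j hs hsa.ne_zero).trans (ha' ▸ hda j)
  · exact fun j => (hdeg r f' j hr hsf.ne_zero).trans (hf' ▸ hdf j)
  · intro E _ _ z hz
    rw [map_mul] at hz
    obtain ⟨h1, h2⟩ := hHa' E z (left_ne_zero_of_mul hz)
    obtain ⟨h3, h4⟩ := hHf' E z (right_ne_zero_of_mul hz)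
    exact ⟨h1, h3, h2, h4⟩
  · rintro ⟨h1, h2, h3⟩
    exact h0 ⟨h1, (mul_eq_zero.1 h2).resolve_left hc1, (mul_eq_zero.1 h3).resolve_left hc2⟩
  · rw [hX, ha', hf', map_mul, map_mul, map_pow, map_pow]
    ring

end main

end Pool.Agent.H436.HP
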