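import Pool.Agent.H436.HP.Base
import Pool.Agent.H436.HP.Desc
import Pool.Agent.H436.HP.First

/-!
# Two moves in one direction (helper436)
-/

set_option autoImplicit false

namespace Pool.Agent.H436.HP

open Polynomial

section tc

variable {F Ω Ω' : Type*} [Field F] [CommRing Ω] [Algebra F Ω] [CommRing Ω'] [Algebra F Ω']

/-- the Taylor coefficients -/
noncomputable def tc (f : F[X]) (z : Ω) : Fin 9 → Ω := fun k => aeval z (hasseDeriv (k : ℕ) f)

lemma tc_map (φ : Ω →ₐ[F] Ω') (f : F[X]) (z : Ω) : (fun k => φ (tc f z k)) = tc f (φ z) :=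
  funext fun _ => (aeval_algHom_apply φ z _).symm

lemma tc_zero (f : F[X]) (z : Ω) : tc f z 0 = aeval z f := by
  rw [tc]; simp

lemma tc_one (f : F[X]) (z : Ω) : tc f z 1 = aeval z (derivative f) := by
  rw [tc]; simp

lemma hasse_map (f : F[X]) (k : ℕ) :
    hasseDeriv k (f.map (algebraMap F Ω)) = (hasseDeriv k f).map (algebraMap F Ω) := by
  ext n
  rw [coeff_map, hasseDeriv_coeff, hasseDeriv_coeff, coeff_map, map_mul, map_natCast]

end tc

section field

variable {F Ω Ω' : Type*} [Field F] [Field Ω] [Algebra F Ω] [Field Ω'] [Algebra F Ω']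

lemma pv8_tc {f : F[X]} (hf : f.natDegree ≤ 8) (z t : Ω) :
    pv8 (tc f z) t = aeval (z + t) f := by
  have h1 : aeval (z + t) f = eval t (taylor z (f.map (algebraMap F Ω))) := by
    rw [taylor_eval, eval_map, ← aeval_def, add_comm]
  have h2 : (taylor z (f.map (algebraMap F Ω))).natDegree < 9 := by
    rw [natDegree_taylor, natDegree_map]
    omega
  rw [h1, eval_eq_sum_range' h2]
  have h3 : ∀ k : Fin 9, (taylor z (f.map (algebraMap F Ω))).coeff (k : ℕ) = tc f z k := by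
    intro k
    rw [taylor_coeff, hasse_map, eval_map, ← aeval_def]
    rfl
  have h4 : ∀ k : Fin 9, (taylor z (f.map (algebraMap F Ω))).coeff (k : ℕ) * t ^ (k : ℕ) =
      tc f z k * t ^ (k : ℕ) := fun k => by rw [h3]
  rw [← Fin.sum_univ_eq_sum_range (fun i => (taylor z (f.map (algebraMap F Ω))).coeff i * t ^ i) 9]
  rw [Finset.sum_congr rfl (fun k _ => h4 k)]
  rw [pv8, Fin.sum_univ_castSucc, Fin.sum_univ_eight]
  simp only [Fin.isValue, Fin.castSucc_zero, Fin.val_zero, pow_zero, mul_one, Fin.castSucc_one,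
    Fin.val_one, pow_one]
  rfl

lemma Gs_map (φ : Ω →+* Ω') (g : Fin 9 → Ω) :
    (fun k => φ (Gs g k)) = Gs (fun k => φ (g k)) := by
  funext k
  fin_cases k <;>
  simp only [Gs, Fin.zero_eta, Fin.mk_one, Fin.reduceFinMk, Matrix.cons_val,
    Matrix.cons_val_zero, Matrix.cons_val_one, map_mul, map_pow, map_neg, map_ofNat, map_div₀]

lemma inc_map (φ : Ω →+* Ω') (g : Fin 9 → Ω) (A : Ω) :
    φ (inc g A) = inc (fun k => φ (g k)) (φ A) := by
  rw [inc, inc]
  simp only [map_mul, map_div₀, dJ_map, n7_map, NN_map, map_ofNat]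
  rw [vec_map', Gs_map]

/-- the first move -/
noncomputable def m1 (f : F[X]) (a c : F) (s : Ω) : Ω :=
  algebraMap F Ω c + inc (tc f (algebraMap F Ω c)) (algebraMap F Ω a * s ^ 2)

/-- the second move -/
noncomputable def m2 (f : F[X]) (a c : F) (s s' : Ω) : Ω :=
  m1 f a c s + inc (tc f (m1 f a c s)) (algebraMap F Ω a * s' ^ 2)

lemma m1_map (φ : Ω →ₐ[F] Ω') (f : F[X]) (a c : F) (s : Ω) :
    φ (m1 f a c s) = m1 f a c (φ s) := by
  rw [m1, m1, map_add, φ.commutes, ← RingHom.coe_coe φ, inc_map, RingHom.coe_coe, tc_map,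
    φ.commutes, map_mul, φ.commutes, map_pow]

lemma m2_map (φ : Ω →ₐ[F] Ω') (f : F[X]) (a c : F) (s s' : Ω) :
    φ (m2 f a c s s') = m2 f a c (φ s) (φ s') := by
  rw [m2, m2, map_add, m1_map, ← RingHom.coe_coe φ, inc_map, RingHom.coe_coe, tc_map, m1_map,
    map_mul, φ.commutes, map_pow]

/-- the vector of polynomials -/
noncomputable def pvec (g : Fin 9 → F) : Fin 8 → F[X] := vec X (fun k => C (Gs g k))

/-- numerator of the first move -/
noncomputable def P1 (g : Fin 9 → F) (a : F) : F[X] :=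
  (C (64 * (g 0 / g 1)) * (pvec g 0 * dJ (pvec g) * n7 (pvec g))).comp (C a * X ^ 2)

/-- denominator of the first move -/
noncomputable def Q1 (g : Fin 9 → F) (a : F) : F[X] := (NN (pvec g)).comp (C a * X ^ 2)

lemma pvec_aeval (g : Fin 9 → F) (A : Ω) :
    (fun i => aeval A (pvec g i)) = vec A (Gs (fun k => algebraMap F Ω (g k))) := by
  have h := vec_map' (aeval A : F[X] →ₐ[F] Ω).toRingHom X (fun k => C (Gs g k))
  have h2 : (fun k => (aeval A : F[X] →ₐ[F] Ω).toRingHom (C (Gs g k))) =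
      Gs (fun k => algebraMap F Ω (g k)) := by
    rw [← Gs_map]
    funext k
    exact aeval_C A _
  rw [h2] at h
  have h3 : (aeval A : F[X] →ₐ[F] Ω).toRingHom X = A := aeval_X A
  rw [h3] at h
  exact h

lemma m1_eq (f : F[X]) (a c : F) (s : Ω) :
    m1 f a c s = algebraMap F Ω c + aeval s (P1 (tc f c) a) / aeval s (Q1 (tc f c) a) := by
  have h1 : tc f (algebraMap F Ω c) = fun k => algebraMap F Ω (tc f c k) :=
    (tc_map (Algebra.ofId F Ω) f c).symm
  have h2 : aeval s (C a * X ^ 2 : F[X]) = algebraMap F Ω a * s ^ 2 := by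
    rw [map_mul, aeval_C, map_pow, aeval_X]
  rw [m1, P1, Q1, aeval_comp, aeval_comp, h2, inc, h1]
  obtain ⟨A, hA⟩ : ∃ A, A = algebraMap F Ω a * s ^ 2 := ⟨_, rfl⟩
  rw [← hA]
  have e1 := dJ_map (aeval A : F[X] →ₐ[F] Ω).toRingHom (pvec (tc f c))
  have e2 := n7_map (aeval A : F[X] →ₐ[F] Ω).toRingHom (pvec (tc f c))
  have e3 := NN_map (aeval A : F[X] →ₐ[F] Ω).toRingHom (pvec (tc f c))
  have e4 := pvec_aeval (tc f c) A
  change _ = dJ (fun i => aeval A (pvec (tc f c) i)) at e1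
  change _ = n7 (fun i => aeval A (pvec (tc f c) i)) at e2
  change _ = NN (fun i => aeval A (pvec (tc f c) i)) at e3
  rw [e4] at e1 e2 e3
  have e5 : aeval A (pvec (tc f c) 0) = A := aeval_X A
  rw [← e1, ← e2, ← e3, map_mul (aeval A) (C _), aeval_C, map_mul (aeval A) (_ * _),
    map_mul (aeval A) (pvec (tc f c) 0), e5, map_mul (algebraMap F Ω), map_div₀, map_ofNat]
  exact congrArg (algebraMap F Ω c + ·) (mul_div_assoc _ _ _).symm

end field

section deg

variable {F : Type*} [Field F] [CharZero F] {g : Fin 9 → F} {a : F}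

omit [CharZero F] in
lemma pvec_zero (g : Fin 9 → F) : pvec g 0 = X := rfl

omit [CharZero F] in
lemma pvec_dl (g : Fin 9 → F) (i : Fin 8) (hi : i ≠ 0) :
    DL 0 (pvec g i) (vec 0 (Gs g) i) := by
  have h : pvec g i = C (vec 0 (Gs g) i) := by
    rw [vec_map C]
    fin_cases i
    · exact absurd rfl hi
    all_goals rfl
  rw [h]
  exact DL.C _

lemma natDegree_Q1 (g : Fin 9 → F) (ha : a ≠ 0) : (Q1 g a).natDegree = 30 := by
  have h := dl_N (pvec_zero g) (pvec_dl g)
  have h1 : (NN (pvec g)).natDegree = 15 := by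
    refine le_antisymm h.1 (le_natDegree_of_ne_zero ?_)
    rw [h.2]; norm_num
  rw [Q1, natDegree_comp, h1, natDegree_C_mul_X_pow 2 a ha]

omit [CharZero F] in
lemma natDegree_P1 (g : Fin 9 → F) (ha : a ≠ 0) : (P1 g a).natDegree ≤ 26 := by
  have h := dl_P (pvec_zero g) (pvec_dl g)
  rw [P1, natDegree_comp, natDegree_C_mul_X_pow 2 a ha]
  have h1 := natDegree_C_mul_le (64 * (g 0 / g 1)) (pvec g 0 * dJ (pvec g) * n7 (pvec g))
  have h2 := h.1
  omega

lemma P1_ne (h0 : g 0 ≠ 0) (h1 : g 1 ≠ 0) (hw : vec 0 (Gs g) 2 ≠ 0) (ha : a ≠ 0) :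
    P1 g a ≠ 0 := by
  have h := dl_P (pvec_zero g) (pvec_dl g)
  have h2 : C (64 * (g 0 / g 1)) * (pvec g 0 * dJ (pvec g) * n7 (pvec g)) ≠ 0 := by
    refine mul_ne_zero ?_ ?_
    · rw [Ne, C_eq_zero]
      exact mul_ne_zero (by norm_num) (div_ne_zero h0 h1)
    · intro h3
      have h4 := h.2
      rw [h3, coeff_zero] at h4
      have h5 : -(2744 * (8 * vec 0 (Gs g) 2)) ≠ 0 :=
        neg_ne_zero.2 (mul_ne_zero (by norm_num) (mul_ne_zero (by norm_num) hw))
      exact h5 h4.symm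
  rw [P1]
  intro h3
  rw [comp_eq_zero_iff] at h3
  rcases h3 with h3 | ⟨-, h3⟩
  · exact h2 h3
  · have h4 := congrArg natDegree h3
    rw [natDegree_C_mul_X_pow 2 a ha, natDegree_C] at h4
    norm_num at h4

end deg

end Pool.Agent.H436.HP
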