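import Mathlib

/-!
# Fields of representatives are relatively algebraically closed (helper436)
-/

set_option autoImplicit false

namespace Pool.Agent.H436.HP

open Polynomial

/-- **Fields of representatives are relatively algebraically closed.** `R` is a valuation ring with
fraction field `L` and the residue map `res`; the domain `A` of `R` is mapped injectively by `res`,
and `κ` is its field of fractions. Then the elements of `L` which are algebraic over `A` are
quotients of elements of `A`. -/
theorem rc0 {A R L κ : Type*} [CommRing A] [IsDomain A] [CommRing R] [IsDomain R] [ValuationRing R]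
    [Field L] [Field κ] [Algebra R L] [IsFractionRing R L] [Algebra A R] [Algebra A L]
    [IsScalarTower A R L] (res : R →+* κ) (hres : ∀ x, res x ≠ 0 → IsUnit x)
    (h1 : ∀ a : A, a ≠ 0 → res (algebraMap A R a) ≠ 0)
    (h2 : ∀ r : κ, ∃ p q : A, q ≠ 0 ∧ r * res (algebraMap A R q) = res (algebraMap A R p))
    {e : L} (he : IsAlgebraic A e) :
    ∃ p q : A, q ≠ 0 ∧ e * algebraMap A L q = algebraMap A L p := by
  have hinjRL : Function.Injective (algebraMap R L) := IsFractionRing.injective R L
  have hAR : Function.Injective (algebraMap A R) := by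
    rw [injective_iff_map_eq_zero]
    intro a ha
    by_contra h
    exact h1 a h (by rw [ha, map_zero])
  have hAL : Function.Injective (algebraMap A L) := by
    rw [IsScalarTower.algebraMap_eq A R L]
    exact hinjRL.comp hAR
  -- step 1: `e` is integral
  obtain ⟨x, hx⟩ : ∃ x : R, algebraMap R L x = e := by
    rcases ValuationRing.isInteger_or_isInteger R e with h | h
    · exact h
    · obtain ⟨r, hr⟩ := h
      by_cases he0 : e = 0
      · exact ⟨0, by rw [he0, map_zero]⟩
      by_cases hr0 : res r = 0
      · exfalso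
        obtain ⟨P, hP0, hP⟩ := he
        have : Invertible e := invertibleOfNonzero he0
        have h3 : eval₂ (algebraMap A L) (⅟e) P.reverse = 0 := by
          rw [eval₂_reverse_eq_zero_iff]
          exact hP
        rw [invOf_eq_inv, ← hr, IsScalarTower.algebraMap_eq A R L, ← hom_eval₂,
          map_eq_zero_iff _ hinjRL] at h3
        have h4 := congrArg res h3
        rw [hom_eval₂, hr0, eval₂_at_zero, map_zero, coeff_zero_reverse] at h4
        exact h1 _ (leadingCoeff_ne_zero.2 hP0) h4
      · obtain ⟨u, hu⟩ := hres r hr0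
        refine ⟨(u⁻¹ : Rˣ), ?_⟩
        have h3 : algebraMap R L ((u⁻¹ : Rˣ) : R) * algebraMap R L r = 1 := by
          rw [← map_mul, ← hu, Units.inv_mul, map_one]
        rw [hr] at h3
        field_simp at h3
        exact h3
  -- step 2
  obtain ⟨p, q, hq, hpq⟩ := h2 (res x)
  refine ⟨p, q, hq, ?_⟩
  obtain ⟨y, hy⟩ : ∃ y : R, y = x * algebraMap A R q - algebraMap A R p := ⟨_, rfl⟩
  have hy0 : res y = 0 := by rw [hy, map_sub, map_mul, hpq, sub_self]
  have hyL : algebraMap R L y = e * algebraMap A L q - algebraMap A L p := by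
    rw [hy, map_sub, map_mul, hx, ← IsScalarTower.algebraMap_apply, ← IsScalarTower.algebraMap_apply]
  have hyalg : IsAlgebraic A (algebraMap R L y) := by
    rw [hyL]
    exact (he.mul (isAlgebraic_algebraMap q)).sub (isAlgebraic_algebraMap p)
  suffices hz : y = 0 by
    rw [hz, map_zero] at hyL
    exact (sub_eq_zero.1 hyL.symm)
  by_contra hyne
  obtain ⟨P, hP0, hP⟩ := hyalg
  obtain ⟨Q, hQ, hQX⟩ := P.exists_eq_pow_rootMultiplicity_mul_and_not_dvd hP0 0
  rw [map_zero, sub_zero] at hQ hQX
  rw [hQ, map_mul, map_pow, aeval_X] at hP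
  have hyne' : algebraMap R L y ≠ 0 := fun h => hyne ((map_eq_zero_iff _ hinjRL).1 h)
  have h5 := (mul_eq_zero.1 hP).resolve_left (pow_ne_zero _ hyne')
  rw [aeval_algebraMap_apply, map_eq_zero_iff _ hinjRL, aeval_def] at h5
  have h6 := congrArg res h5
  rw [hom_eval₂, hy0, eval₂_at_zero, map_zero] at h6
  have h7 : Q.coeff 0 ≠ 0 := fun h => hQX (X_dvd_iff.2 h)
  exact h1 _ h7 h6

end Pool.Agent.H436.HP
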