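import Pool.Agent.H436.HP.Tower
import Pool.Graph.R_seed8.TH178.HI.Real

/-!
# The function field embeds in a field of rational functions (helper436)
-/

set_option autoImplicit false

namespace Pool.Agent.H436.HP

open Pool.Agent.TH178.HI

/-- the right side of `w² = a(t) Y² + f(t)` -/
noncomputable def cbp {k : Type} [Field k] {n : ℕ} (a f : MvPolynomial (Fin n) k) :
    MvPolynomial (Fin (n + 1)) k :=
  MvPolynomial.rename Fin.castSucc a * MvPolynomial.X (Fin.last n) ^ 2 +
    MvPolynomial.rename Fin.castSucc f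

/-- Realization of an extension `K = k(t, w)` with `w² = a(t') t_n² + f(t')`. -/
theorem realize {k E K : Type} [Field k] [Field E] [Algebra k E] [CharZero E] [IsAlgClosed E]
    [Field K] [Algebra k K] {n : ℕ} {a f : MvPolynomial (Fin n) k} {z : Fin n → E}
    {Ω : IntermediateField k E} {s : E} (hz : ∀ i, z i ∈ Ω) (hp : Pure Ω)
    (hind : AlgebraicIndependent k z)
    (hrel : RelCl (IntermediateField.adjoin k (Set.range z)) Ω)
    (ha : MvPolynomial.aeval z a ≠ 0) (hf : MvPolynomial.aeval z f ≠ 0)
    (hsp : Sp Ω (MvPolynomial.aeval z a) (MvPolynomial.aeval z f)) (hs : Transcendental Ω s)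
    {t : Fin (n + 1) → K} {w : K} (ht : AlgebraicIndependent k t)
    (hw : w ^ 2 = MvPolynomial.aeval t (cbp a f))
    (htop : IntermediateField.adjoin k (insert w (Set.range t)) = ⊤) : Realizable k K := by
  obtain ⟨Λ, hΛ⟩ : ∃ Λ, Λ = IntermediateField.adjoin k (Set.range z) := ⟨_, rfl⟩
  have hΛle : Λ ≤ Ω := by
    rw [hΛ, IntermediateField.adjoin_le_iff]
    rintro _ ⟨i, rfl⟩
    exact hz i
  have hzΛ : ∀ i, z i ∈ Λ := fun i => by
    rw [hΛ]; exact IntermediateField.subset_adjoin _ _ ⟨i, rfl⟩
  -- the coordinates in `E`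
  let y : Fin (n + 1) → E := (fun o : Option (Fin n) => o.elim s z) ∘ finSuccEquivLast
  have hy : AlgebraicIndependent k y := by
    have h1 : AlgebraicIndependent k (fun o : Option (Fin n) => o.elim s z) := by
      rw [hind.option_iff_transcendental, ← IntermediateField.transcendental_adjoin_iff, ← hΛ]
      exact fun h => hs (isAlgebraic_mono' hΛle h)
    exact h1.comp _ finSuccEquivLast.injective
  have hyc : ∀ i : Fin n, y i.castSucc = z i := fun i => by
    change (finSuccEquivLast i.castSucc).elim s z = z i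
    rw [finSuccEquivLast_castSucc]
    rfl
  have hyl : y (Fin.last n) = s := by
    change (finSuccEquivLast (Fin.last n)).elim s z = s
    rw [finSuccEquivLast_last]
    rfl
  -- the embedding
  obtain ⟨Ψ, hΨ, -⟩ := lift ht hy
  let F' := IntermediateField.adjoin k (Set.range t)
  let _ : Algebra F' E := Ψ.toRingHom.toAlgebra
  have hwal : IsAlgebraic F' w := by
    have h1 : IsAlgebraic F' (w ^ 2) := by
      rw [hw]
      exact isAlgebraic_algebraMap (⟨_, aeval_mem' (fun i =>
        IntermediateField.subset_adjoin k _ (Set.mem_range_self i)) (cbp a f)⟩ : F')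
    exact h1.of_pow two_pos
  have halg : Algebra.IsAlgebraic F' K := by
    constructor
    intro u
    have hu : u ∈ IntermediateField.adjoin k (insert w (Set.range t)) := by
      rw [htop]; trivial
    refine isAlgebraic_of_mem (L := F') (S := {w}) ?_ ?_
    · intro b hb
      rw [Set.mem_singleton_iff] at hb
      rw [hb]
      exact hwal
    · refine (IntermediateField.adjoin_le_iff.mpr ?_) hu
      rintro b (rfl | hb)
      · exact IntermediateField.subset_adjoin _ _ (Or.inr rfl)
      · exact IntermediateField.subset_adjoin _ _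
          (Or.inl (IntermediateField.subset_adjoin _ _ hb))
  let h0 : K →ₐ[F'] E := IsAlgClosed.lift
  have h1 : ∀ b : F', h0 (b : K) = Ψ b := fun b => h0.commutes b
  let h : K →ₐ[k] E :=
    { h0.toRingHom with
      commutes' := fun b => by
        have h3 := h1 (algebraMap k F' b)
        rw [Ψ.commutes] at h3
        exact h3 }
  have hht : ∀ i, h (t i) = y i := fun i =>
    (h1 ⟨t i, IntermediateField.subset_adjoin _ _ ⟨i, rfl⟩⟩).trans (hΨ i)
  obtain ⟨v, hv⟩ : ∃ v, v = h w := ⟨_, rfl⟩
  have hv2 : v ^ 2 = MvPolynomial.aeval z a * s ^ 2 + 0 * s + MvPolynomial.aeval z f := by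
    have e1 : h (MvPolynomial.aeval t (cbp a f)) = MvPolynomial.aeval y (cbp a f) := by
      have e2 := MvPolynomial.comp_aeval_apply (φ := h) (f := t) (cbp a f)
      rw [e2]
      congr 2
      funext i
      exact hht i
    have e3 : (y ∘ Fin.castSucc) = z := funext hyc
    rw [hv, ← map_pow, hw, e1, cbp, map_add, map_mul, map_pow, MvPolynomial.aeval_rename,
      MvPolynomial.aeval_rename, MvPolynomial.aeval_X, hyl, e3]
    ring
  have hrange : h.fieldRange = IntermediateField.adjoin k ((Λ : Set E) ∪ {s, v}) := by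
    rw [AlgHom.fieldRange_eq_map, ← htop, IntermediateField.adjoin_map, Set.image_insert_eq,
      ← Set.range_comp, ← hv]
    apply le_antisymm
    · rw [IntermediateField.adjoin_le_iff]
      rintro b (rfl | ⟨i, rfl⟩)
      · exact IntermediateField.subset_adjoin _ _ (Or.inr (Or.inr rfl))
      · change h (t i) ∈ _
        rw [hht]
        refine Fin.lastCases ?_ (fun i => ?_) i
        · rw [hyl]
          exact IntermediateField.subset_adjoin _ _ (Or.inr (Or.inl rfl))
        · rw [hyc]
          exact IntermediateField.subset_adjoin _ _ (Or.inl (hzΛ i))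
    · rw [IntermediateField.adjoin_le_iff]
      have hmem : ∀ i, y i ∈ IntermediateField.adjoin k (insert v (Set.range (h ∘ t))) :=
        fun i => by
          rw [← hht]
          exact IntermediateField.subset_adjoin _ _ (Or.inr ⟨i, rfl⟩)
      rintro b (hb | rfl | rfl)
      · rw [hΛ] at hb
        refine (IntermediateField.adjoin_le_iff.mpr ?_) hb
        rintro _ ⟨i, rfl⟩
        rw [← hyc]
        exact hmem _
      · rw [← hyl]
        exact hmem _
      · exact IntermediateField.subset_adjoin _ _ (Or.inl rfl)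
  have haΛ : MvPolynomial.aeval z a ∈ Λ := aeval_mem' hzΛ a
  have hfΛ : MvPolynomial.aeval z f ∈ Λ := aeval_mem' hzΛ f
  have hd : (0 : E) ^ 2 - 4 * MvPolynomial.aeval z a * MvPolynomial.aeval z f ≠ 0 := by
    have h5 : (4 : E) * MvPolynomial.aeval z a * MvPolynomial.aeval z f ≠ 0 :=
      mul_ne_zero (mul_ne_zero (by norm_num) ha) hf
    intro h6
    apply h5
    linear_combination -h6
  obtain ⟨b, hb, v₀, hv₀, hbv⟩ := hsp.affine (hΛle hfΛ) ha
  have hpure := hp.conic hb hv₀ (hΛle haΛ) Ω.zero_mem hd (by rw [hbv]; ring) hs hv2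
  have hcl := rel_conic hΛle (hΛ ▸ hrel) haΛ Λ.zero_mem hfΛ hd hs hv2
  refine ⟨E, inferInstance, inferInstance, _, h, hpure, ?_, ?_⟩
  · rw [hrange]
    exact IntermediateField.adjoin.mono k _ _ (Set.union_subset_union_left _ hΛle)
  · rw [hrange]
    exact hcl

/-- **Realization of the function field.** -/
theorem realizable {k K : Type} [Field k] [CharZero k] [Field K] [Algebra k K] {n : ℕ}
    {a f : MvPolynomial (Fin n) k} (hdis : ∀ j, j ∉ a.vars ∨ j ∉ f.vars)
    (hda : ∀ j, MvPolynomial.degreeOf j a ≤ 8) (hdf : ∀ j, MvPolynomial.degreeOf j f ≤ 8)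
    {H : MvPolynomial (Fin n) k} (hH : ∀ (E : Type) [Field E] [Algebra k E] (z : Fin n → E),
      MvPolynomial.aeval z H ≠ 0 →
      MvPolynomial.aeval z a ≠ 0 ∧ MvPolynomial.aeval z f ≠ 0 ∧
      (∀ j ∈ a.vars, GoodAt j a z) ∧ ∀ j ∈ f.vars, GoodAt j f z)
    {c : Fin n → k} (hc : MvPolynomial.eval c H ≠ 0) {X Y W : k}
    (h0 : ¬ (X = 0 ∧ Y = 0 ∧ W = 0))
    (hXY : X ^ 2 = MvPolynomial.eval c a * Y ^ 2 + MvPolynomial.eval c f * W ^ 2)
    (hK : IsCoverField k (cbp a f) K) : Realizable k K := by
  obtain ⟨t, w, ht, hw, htop⟩ := hK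
  let F := FractionRing (MvPolynomial ℕ k)
  let E := AlgebraicClosure F
  let x : ℕ → E := fun i => algebraMap F E (algebraMap (MvPolynomial ℕ k) F (MvPolynomial.X i))
  have hx : AlgebraicIndependent k x := by
    have h1 := (MvPolynomial.algebraicIndependent_X ℕ k).map'
      (f := IsScalarTower.toAlgHom k (MvPolynomial ℕ k) F)
      (IsFractionRing.injective (MvPolynomial ℕ k) F)
    exact h1.map' (f := IsScalarTower.toAlgHom k F E) (algebraMap F E).injective
  have : CharZero E := charZero_of_injective_algebraMap (algebraMap k E).injective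
  have hinj := (algebraMap k E).injective
  obtain ⟨z, Ω, -, hz, hp, hΩ, hind, hrel, hsp⟩ := tower (E := E) hdis hda hdf (hH E) hx hc
    ⟨algebraMap k E X, IntermediateField.algebraMap_mem _ _, algebraMap k E Y,
      IntermediateField.algebraMap_mem _ _, algebraMap k E W,
      IntermediateField.algebraMap_mem _ _, fun h => h0
        ⟨(map_eq_zero_iff _ hinj).1 h.1, (map_eq_zero_iff _ hinj).1 h.2.1,
          (map_eq_zero_iff _ hinj).1 h.2.2⟩, by
      rw [← map_pow, hXY, map_add, map_mul, map_mul, map_pow, map_pow]⟩ n le_rfl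
  have hind' : AlgebraicIndependent k z := by
    have h2 := hind.comp (fun i : Fin n => (⟨i, i.2⟩ : {i : Fin n | (i : ℕ) < n})) (fun i j h => by
      simpa using h)
    exact h2
  have himage : z '' {i : Fin n | (i : ℕ) < n} = Set.range z := by
    ext y
    constructor
    · rintro ⟨i, -, rfl⟩
      exact ⟨i, rfl⟩
    · rintro ⟨i, rfl⟩
      exact ⟨i, i.2, rfl⟩
  rw [himage] at hrel
  obtain ⟨h1, h2, -, -⟩ := hH E z (by
    refine good (m := n) (c := c) hind (fun i hi => absurd i.2 (not_lt.2 hi)) hc)
  have hs : Transcendental Ω (x (2 * n)) :=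
    transcendental_of_le hx (I := {i | i < 2 * n}) (by simp) hΩ
  exact realize hz hp hind' hrel h1 h2 hsp hs ht hw htop

end Pool.Agent.H436.HP
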