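import Pool.Agent.H436.HP.Dir
import Pool.Graph.R_seed8.TH178.HI.Rel
import Pool.Graph.R_seed8.TH178.HI.Pure

/-!
# The step of the tower (helper436)
-/

set_option autoImplicit false

namespace Pool.Agent.H436.HP

open Polynomial Pool.Agent.TH178.HI

section sp

variable {k E : Type} [Field k] [Field E] [Algebra k E] {Ω Ω' : IntermediateField k E} {A B : E}

/-- the conic `X² = A Y² + B W²` has a point over `Ω` -/
def Sp (Ω : IntermediateField k E) (A B : E) : Prop :=
  ∃ X ∈ Ω, ∃ Y ∈ Ω, ∃ W ∈ Ω, ¬ (X = 0 ∧ Y = 0 ∧ W = 0) ∧ X ^ 2 = A * Y ^ 2 + B * W ^ 2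

lemma Sp.symm (h : Sp Ω A B) : Sp Ω B A := by
  obtain ⟨X, hX, Y, hY, W, hW, h0, h⟩ := h
  exact ⟨X, hX, W, hW, Y, hY, fun h' => h0 ⟨h'.1, h'.2.2, h'.2.1⟩, by rw [h]; ring⟩

lemma Sp.mono (h : Sp Ω A B) (hle : Ω ≤ Ω') : Sp Ω' A B := by
  obtain ⟨X, hX, Y, hY, W, hW, h0, h⟩ := h
  exact ⟨X, hle hX, Y, hle hY, W, hle hW, h0, h⟩

lemma Sp.norm (h : Sp Ω A B) (hA : A ∈ Ω) {P Q : E} (hP : P ∈ Ω) (hQ : Q ∈ Ω)
    (hN : P ^ 2 - A * Q ^ 2 ≠ 0) : Sp Ω A (B * (P ^ 2 - A * Q ^ 2)) := by
  obtain ⟨X, hX, Y, hY, W, hW, h0, h⟩ := h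
  refine ⟨X * P + A * Y * Q, add_mem (mul_mem hX hP) (mul_mem (mul_mem hA hY) hQ),
    X * Q + Y * P, add_mem (mul_mem hX hQ) (mul_mem hY hP), W, hW, ?_, ?_⟩
  · rintro ⟨h1, h2, h3⟩
    apply h0
    have h4 : X * (P ^ 2 - A * Q ^ 2) = 0 := by linear_combination P * h1 - A * Q * h2
    have h5 : Y * (P ^ 2 - A * Q ^ 2) = 0 := by linear_combination P * h2 - Q * h1
    exact ⟨(mul_eq_zero.1 h4).resolve_right hN, (mul_eq_zero.1 h5).resolve_right hN, h3⟩
  · linear_combination (P ^ 2 - A * Q ^ 2) * h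

lemma Sp.affine [CharZero E] (h : Sp Ω A B) (hB : B ∈ Ω) (hA0 : A ≠ 0) :
    ∃ b ∈ Ω, ∃ v ∈ Ω, v ^ 2 = A * b ^ 2 + B := by
  obtain ⟨X, hX, Y, hY, W, hW, h0, h⟩ := h
  by_cases hW0 : W = 0
  · rw [hW0] at h h0
    have hY0 : Y ≠ 0 := by
      rintro rfl
      apply h0
      refine ⟨?_, rfl, rfl⟩
      have : X ^ 2 = 0 := by rw [h]; ring
      exact pow_eq_zero_iff two_ne_zero |>.1 this
    have hX0 : X ≠ 0 := by
      rintro rfl
      have h2 : A * Y ^ 2 = 0 := by linear_combination -h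
      exact (mul_ne_zero hA0 (pow_ne_zero 2 hY0)) h2
    have h1 : (1 : E) ∈ Ω := one_mem _
    have h2 : (2 : E) ∈ Ω := by exact_mod_cast Ω.natCast_mem 2
    refine ⟨(1 - B) / (2 * (X / Y)), IntermediateField.div_mem _ (sub_mem h1 hB)
      (mul_mem h2 (IntermediateField.div_mem _ hX hY)), (1 + B) / 2,
      IntermediateField.div_mem _ (add_mem h1 hB) h2, ?_⟩
    have h3 : A = X ^ 2 / Y ^ 2 := by field_simp; linear_combination -h
    rw [h3]
    field_simp
    ring
  · refine ⟨Y / W, IntermediateField.div_mem _ hY hW, X / W, IntermediateField.div_mem _ hX hW, ?_⟩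
    field_simp
    linear_combination h

end sp

section step

variable {k E : Type} [Field k] [Field E] [CharZero E] [Algebra k E]

theorem step1 {Ω : IntermediateField k E} {x1 x2 : E} (hx1 : Transcendental Ω x1)
    (hx2 : Transcendental (IntermediateField.adjoin k ((Ω : Set E) ∪ {x1})) x2) {α : Type}
    [DecidableEq α] {j : α} {z : α → Ω} {g o : MvPolynomial α k}
    (hdeg : MvPolynomial.degreeOf j g ≤ 8) (hoz : MvPolynomial.aeval z o ≠ 0)
    (hg : GoodAt j g z) :
    ∃ t ∈ IntermediateField.adjoin k ((Ω : Set E) ∪ {x1, x2}), Transcendental Ω t ∧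
      RelCl (IntermediateField.adjoin k ((Ω : Set E) ∪ {t}))
        (IntermediateField.adjoin k ((Ω : Set E) ∪ {x1, x2})) ∧
      ∃ P ∈ IntermediateField.adjoin k ((Ω : Set E) ∪ {x1, x2}),
      ∃ Q ∈ IntermediateField.adjoin k ((Ω : Set E) ∪ {x1, x2}),
        MvPolynomial.aeval (Function.update (fun i => (z i : E)) j t) g =
          (MvPolynomial.aeval z g : Ω) * (P ^ 2 - (MvPolynomial.aeval z o : Ω) * Q ^ 2) := by
  obtain ⟨h0, h1, h3, u, v, r, hr, hjr, hr0⟩ := hg
  have hchar : CharZero Ω :=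
    ⟨fun a b h => by
      have h2 := congrArg (algebraMap Ω E) h
      rw [map_natCast, map_natCast] at h2
      exact_mod_cast h2⟩
  have e1 : ∀ S : Set E, (IntermediateField.adjoin Ω S).restrictScalars k =
      IntermediateField.adjoin k ((Ω : Set E) ∪ S) := fun S =>
    IntermediateField.restrictScalars_adjoin k Ω S
  have e2 : ∀ (S : Set E) (y : E), y ∈ IntermediateField.adjoin Ω S ↔
      y ∈ IntermediateField.adjoin k ((Ω : Set E) ∪ S) := fun S y => by
    rw [← e1]; exact Iff.rfl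
  have hrange : Set.range (fun o : Option Unit => o.elim x2 (fun _ => x1)) = {x1, x2} := by
    ext y
    constructor
    · rintro ⟨_ | _, rfl⟩
      · exact Or.inr rfl
      · exact Or.inl rfl
    · rintro (rfl | rfl)
      · exact ⟨some (), rfl⟩
      · exact ⟨none, rfl⟩
  have hs : AlgebraicIndependent Ω (fun o : Option Unit => o.elim x2 (fun _ => x1)) := by
    refine AlgebraicIndependent.option_iff.mpr
      ⟨algebraicIndependent_unique_type_iff.mpr hx1, ?_⟩
    rw [Set.range_const, ← IntermediateField.transcendental_adjoin_iff]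
    rw [← e1] at hx2
    exact hx2
  obtain ⟨f, hf⟩ : ∃ f, f = uni j z g := ⟨_, rfl⟩
  have hf8 : f.natDegree ≤ 8 := by rw [hf]; exact (natDegree_uni j z g).trans hdeg
  have t0 : tc f (z j) 0 ≠ 0 := by rw [hf, tc_uni_zero]; exact h0
  have t1 : tc f (z j) 1 ≠ 0 := by rw [hf, tc_uni_one]; exact h1
  have t2 : vec 0 (Gs (tc f (z j))) 2 ≠ 0 := by rw [hf]; exact vec_uni h1 h3
  have hb := exists_simple h1 hr hjr hr0
  rw [← hf] at hb
  obtain ⟨k1, k2, k3⟩ := two hoz t0 t1 t2 hb hs
  refine ⟨m2 f (MvPolynomial.aeval z o) (z j) x1 x2, ?_, k1, ?_, ?_⟩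
  · rw [← e2, ← hrange]
    exact k2
  · intro y hy hal
    rw [← e2, ← hrange] at hy
    rw [← e2]
    refine k3 y hy ?_
    rw [← e1] at hal
    exact hal
  · -- the value
    obtain ⟨y1, hy1⟩ : ∃ y1 : IntermediateField.adjoin Ω
        (Set.range (fun o : Option Unit => o.elim x2 (fun _ => x1))), (y1 : E) = x1 :=
      ⟨⟨x1, IntermediateField.subset_adjoin _ _ ⟨some (), rfl⟩⟩, rfl⟩
    obtain ⟨y2, hy2⟩ : ∃ y2 : IntermediateField.adjoin Ω
        (Set.range (fun o : Option Unit => o.elim x2 (fun _ => x1))), (y2 : E) = x2 :=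
      ⟨⟨x2, IntermediateField.subset_adjoin _ _ ⟨none, rfl⟩⟩, rfl⟩
    have hs' : AlgebraicIndependent Ω (fun o : Option Unit => o.elim y2 (fun _ => y1)) := by
      rw [← AlgHom.algebraicIndependent_iff (IntermediateField.val _) Subtype.val_injective]
      have e : (IntermediateField.val _ : IntermediateField.adjoin Ω
        (Set.range (fun o : Option Unit => o.elim x2 (fun _ => x1))) →ₐ[Ω] E) ∘
        (fun o : Option Unit => o.elim y2 (fun _ => y1)) =
        fun o : Option Unit => o.elim x2 (fun _ => x1) := by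
        funext o
        rcases o with _ | _
        · exact hy2
        · exact hy1
      rw [e]
      exact hs
    obtain ⟨P, Q, hPQ⟩ := val_two hf8 hoz t0 t1 t2 hs'
    refine ⟨P, ?_, Q, ?_, ?_⟩
    · rw [← e2, ← hrange]; exact P.2
    · rw [← e2, ← hrange]; exact Q.2
    · have h5 := m2_map (IntermediateField.val (IntermediateField.adjoin Ω
        (Set.range (fun o : Option Unit => o.elim x2 (fun _ => x1))))) f
        (MvPolynomial.aeval z o) (z j) y1 y2
      have h6 : (IntermediateField.val (IntermediateField.adjoin Ω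
        (Set.range (fun o : Option Unit => o.elim x2 (fun _ => x1))))) y1 = x1 := hy1
      have h7 : (IntermediateField.val (IntermediateField.adjoin Ω
        (Set.range (fun o : Option Unit => o.elim x2 (fun _ => x1))))) y2 = x2 := hy2
      rw [h6, h7] at h5
      have h8 := congrArg (IntermediateField.val (IntermediateField.adjoin Ω
        (Set.range (fun o : Option Unit => o.elim x2 (fun _ => x1))))) hPQ
      rw [← aeval_algHom_apply, h5, hf, aeval_uni, aeval_uni_self] at h8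
      rw [hf]
      exact h8

end step

end Pool.Agent.H436.HP
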