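import Pool.Agent.H436.HP.Uni

/-!
# The first order term of the denominator (helper436)
-/

set_option autoImplicit false

namespace Pool.Agent.H436.HP

open MvPolynomial

section tay

variable {σ : Type} [Fintype σ] {R κ : Type*} [CommRing R] [CommRing κ]

/-- Taylor's formula of the first order, with the residue of the coefficient. -/
lemma tay (res : R →+* κ) {π : R} (hπ : res π = 0) (x y : σ → R) (P : MvPolynomial σ ℤ) :
    ∃ D : R, aeval (fun i => x i + π * y i) P = aeval x P + π * D ∧
      res D = ∑ i, res (y i) * aeval (fun i => res (x i)) (pderiv i P) := by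
  classical
  induction P using MvPolynomial.induction_on with
  | C a =>
    refine ⟨0, ?_, ?_⟩
    · rw [algHom_C, algHom_C, mul_zero, add_zero]
    · rw [map_zero]
      simp
  | add p q hp hq =>
    obtain ⟨D, h1, h2⟩ := hp
    obtain ⟨D', h1', h2'⟩ := hq
    refine ⟨D + D', ?_, ?_⟩
    · rw [map_add, map_add, h1, h1']; ring
    · rw [map_add, h2, h2', ← Finset.sum_add_distrib]
      refine Finset.sum_congr rfl fun i _ => ?_
      rw [map_add, map_add, mul_add]
  | mul_X p j hp =>
    obtain ⟨D, h1, h2⟩ := hp
    refine ⟨D * x j + aeval x p * y j + π * D * y j, ?_, ?_⟩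
    · rw [map_mul, map_mul, aeval_X, aeval_X, h1]; ring
    · rw [map_add, map_add, map_mul, map_mul, map_mul, map_mul, hπ, h2]
      have h3 : res (aeval x p) = aeval (fun i => res (x i)) p := by
        have := MvPolynomial.comp_aeval_apply (φ := (res.toIntAlgHom)) (f := x) p
        exact this
      rw [h3]
      have h4 : ∀ i, aeval (fun i => res (x i)) (pderiv i (p * X j)) =
          aeval (fun i => res (x i)) (pderiv i p) * res (x j) +
            aeval (fun i => res (x i)) p * (if i = j then 1 else 0) := by
        intro i
        rw [Derivation.leibniz, pderiv_X, map_add, smul_eq_mul, smul_eq_mul, map_mul, map_mul,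
          aeval_X]
        by_cases hij : i = j
        · subst hij
          rw [Pi.single_eq_same, map_one, if_pos rfl]; ring
        · rw [Pi.single_eq_of_ne (fun h => hij h.symm), map_zero, if_neg hij]; ring
      simp only [h4, mul_add]
      rw [Finset.sum_add_distrib]
      simp only [mul_ite, mul_one, mul_zero, Finset.sum_ite_eq', Finset.mem_univ, if_true]
      rw [Finset.sum_mul]
      have h5 : ∀ i, res (y i) * (aeval (fun i => res (x i)) (pderiv i p) * res (x j)) =
          res (y i) * aeval (fun i => res (x i)) (pderiv i p) * res (x j) := fun i => by ring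
      simp only [h5]
      ring

/-- the chain rule -/
lemma chain (g : σ → Polynomial ℤ) (P : MvPolynomial σ ℤ) :
    Polynomial.derivative (aeval g P) =
      ∑ i, Polynomial.derivative (g i) * aeval g (pderiv i P) := by
  classical
  induction P using MvPolynomial.induction_on with
  | C a => simp
  | add p q hp hq =>
    rw [map_add, Polynomial.derivative_add, hp, hq, ← Finset.sum_add_distrib]
    refine Finset.sum_congr rfl fun i _ => ?_
    rw [map_add, map_add, mul_add]
  | mul_X p j hp =>
    rw [map_mul, Polynomial.derivative_mul, hp, aeval_X]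
    have h4 : ∀ i, aeval g (pderiv i (p * X j)) =
        aeval g (pderiv i p) * g j + aeval g p * (if i = j then 1 else 0) := by
      intro i
      rw [Derivation.leibniz, pderiv_X, map_add, smul_eq_mul, smul_eq_mul, map_mul, map_mul,
        aeval_X]
      by_cases hij : i = j
      · subst hij
        rw [Pi.single_eq_same, map_one, if_pos rfl]; ring
      · rw [Pi.single_eq_of_ne (fun h => hij h.symm), map_zero, if_neg hij]; ring
    simp only [h4, mul_add]
    rw [Finset.sum_add_distrib]
    simp only [mul_ite, mul_one, mul_zero, Finset.sum_ite_eq', Finset.mem_univ, if_true]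
    rw [Finset.sum_mul]
    have h5 : ∀ i, Polynomial.derivative (g i) * (aeval g (pderiv i p) * g j) =
        Polynomial.derivative (g i) * aeval g (pderiv i p) * g j := fun i => by ring
    simp only [h5]
    ring

end tay

/-- the denominator as a polynomial -/
noncomputable def NNp : MvPolynomial (Fin 8) ℤ := NN (fun i => X i)

lemma aeval_NNp {R : Type*} [CommRing R] [Algebra ℤ R] (v : Fin 8 → R) : aeval v NNp = NN v := by
  have h := NN_map (aeval v : MvPolynomial (Fin 8) ℤ →ₐ[ℤ] R).toRingHom (fun i => X i)
  have h2 : (fun i => (aeval v : MvPolynomial (Fin 8) ℤ →ₐ[ℤ] R).toRingHom (X i)) = v := by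
    funext i
    exact aeval_X v i
  rw [h2] at h
  exact h

/-- the derivative with respect to the first variable at the limit -/
lemma pd_NN {R : Type*} [CommRing R] (x : R) :
    aeval (HP.v0 x) (pderiv 0 NNp) = -38416 * qd x := by
  have h1 := chain (HP.v0 (Polynomial.X : Polynomial ℤ)) NNp
  rw [aeval_NNp, NN_v0] at h1
  have h2 : ∀ i : Fin 8, i ≠ 0 →
      Polynomial.derivative (HP.v0 (Polynomial.X : Polynomial ℤ) i) = 0 := by
    intro i hi
    fin_cases i
    · exact absurd rfl hi
    all_goals simp [HP.v0, vec]
  rw [Finset.sum_eq_single 0 (fun i _ hi => by rw [h2 i hi, zero_mul])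
    (fun h => absurd (Finset.mem_univ _) h)] at h1
  rw [v0_0, Polynomial.derivative_X, one_mul] at h1
  have h3 := congrArg (Polynomial.aeval x) h1
  have h4 : Polynomial.aeval x (aeval (HP.v0 (Polynomial.X : Polynomial ℤ)) (pderiv 0 NNp)) =
      aeval (HP.v0 x) (pderiv 0 NNp) := by
    have := MvPolynomial.comp_aeval_apply (φ := (Polynomial.aeval x : Polynomial ℤ →ₐ[ℤ] R))
      (f := HP.v0 (Polynomial.X : Polynomial ℤ)) (pderiv 0 NNp)
    rw [this]
    congr 2
    funext i
    have h5 := vec_map (Polynomial.aeval x : Polynomial ℤ →ₐ[ℤ] R).toRingHom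
      (Polynomial.X : Polynomial ℤ) (fun _ => 0) i
    simpa [HP.v0] using h5
  rw [h4] at h3
  rw [← h3]
  simp only [qf, qd, Polynomial.derivative_mul, Polynomial.derivative_add,
    Polynomial.derivative_sub, Polynomial.derivative_X_pow, Polynomial.derivative_X,
    Polynomial.derivative_ofNat, Polynomial.derivative_neg,
    map_mul, map_add, map_sub, map_pow, map_neg, map_ofNat, map_one, map_zero,
    Polynomial.aeval_X, Polynomial.aeval_C, map_natCast]
  push_cast
  ring

end Pool.Agent.H436.HP
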