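import Pool.Agent.H436.HP.Step

/-!
# The tower of the moves in all the directions (helper436)
-/

set_option autoImplicit false

namespace Pool.Agent.H436.HP

open Pool.Agent.TH178.HI

variable {k E : Type} [Field k] [Field E] [Algebra k E]

/-- Polynomials which do not vanish at `c` do not vanish at the points of the tower. -/
lemma good {n m : ℕ} {z : Fin n → E} {c : Fin n → k}
    (hz : AlgebraicIndependent k (fun i : {i : Fin n | (i : ℕ) < m} => z i))
    (hc : ∀ i : Fin n, m ≤ (i : ℕ) → z i = algebraMap k E (c i)) {H : MvPolynomial (Fin n) k}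
    (hH : MvPolynomial.eval c H ≠ 0) : MvPolynomial.aeval z H ≠ 0 := by
  intro h0
  apply hH
  let ζ : Fin n → MvPolynomial {i : Fin n | (i : ℕ) < m} k := fun i =>
    if h : (i : ℕ) < m then MvPolynomial.X ⟨i, h⟩ else MvPolynomial.C (c i)
  obtain ⟨H', hH'⟩ : ∃ H', H' = MvPolynomial.aeval ζ H := ⟨_, rfl⟩
  have h1 : MvPolynomial.aeval (fun i : {i : Fin n | (i : ℕ) < m} => z i) H' = 0 := by
    rw [hH', ← h0]
    have h2 := MvPolynomial.comp_aeval_apply (φ := MvPolynomial.aeval (R := k)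
      (fun i : {i : Fin n | (i : ℕ) < m} => z i)) (f := ζ) H
    rw [h2]
    congr 2
    funext i
    by_cases hi : (i : ℕ) < m
    · simp only [ζ, hi, dite_true]
      exact MvPolynomial.aeval_X _ _
    · simp only [ζ, hi, dite_false]
      rw [hc i (not_lt.1 hi)]
      exact MvPolynomial.algHom_C _ _
  have h3 : H' = 0 := hz (by rw [h1, map_zero])
  have h4 := congrArg (MvPolynomial.aeval (R := k)
    (fun i : {i : Fin n | (i : ℕ) < m} => c i)) h3
  rw [map_zero, hH'] at h4
  have h2 := MvPolynomial.comp_aeval_apply (φ := MvPolynomial.aeval (R := k)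
    (fun i : {i : Fin n | (i : ℕ) < m} => c i)) (f := ζ) H
  rw [h2] at h4
  rw [← h4, ← MvPolynomial.coe_aeval_eq_eval]
  change MvPolynomial.aeval c H = _
  congr 2
  funext i
  by_cases hi : (i : ℕ) < m
  · simp only [ζ, hi, dite_true]
    exact (MvPolynomial.aeval_X (fun i : {i : Fin n | (i : ℕ) < m} => c i) ⟨i, hi⟩).symm
  · simp only [ζ, hi, dite_false]
    exact (MvPolynomial.aeval_C (fun i : {i : Fin n | (i : ℕ) < m} => c i) (c i)).symm

lemma adj_AC {Ω : IntermediateField k E} {x : ℕ → E} {a b : ℕ} (hab : a ≤ b)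
    (h : Ω ≤ AC k (x '' {i | i < a})) {S : Set E} (hS : ∀ y ∈ S, ∃ i < b, y = x i) :
    IntermediateField.adjoin k ((Ω : Set E) ∪ S) ≤ AC k (x '' {i | i < b}) := by
  rw [IntermediateField.adjoin_le_iff]
  rintro y (hy | hy)
  · have h1 := mem_AC.1 (h hy)
    refine mem_AC.2 (isAlgebraic_mono' ?_ h1)
    apply IntermediateField.adjoin.mono
    rintro _ ⟨i, hi, rfl⟩
    exact ⟨i, lt_of_lt_of_le hi hab, rfl⟩
  · obtain ⟨i, hi, rfl⟩ := hS y hy
    exact subset_AC _ ⟨i, hi, rfl⟩

lemma coe_aeval {n : ℕ} {Ω : IntermediateField k E} (z : Fin n → Ω)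
    (P : MvPolynomial (Fin n) k) :
    ((MvPolynomial.aeval z P : Ω) : E) = MvPolynomial.aeval (fun i => (z i : E)) P :=
  (MvPolynomial.aeval_algebraMap_apply E z P).symm

lemma GoodAt.down {n : ℕ} {Ω : IntermediateField k E} {z : Fin n → Ω} {j : Fin n}
    {g : MvPolynomial (Fin n) k} (h : GoodAt j g (fun i => (z i : E))) : GoodAt j g z := by
  obtain ⟨h0, h1, h3, u, v, r, hr, hj, hr0⟩ := h
  rw [← coe_aeval] at h0 h1 h3 hr0
  refine ⟨?_, ?_, ?_, u, v, r, hr, hj, ?_⟩
  · exact fun h => h0 (by rw [h]; rfl)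
  · exact fun h => h1 (by rw [h]; rfl)
  · exact fun h => h3 (by rw [h]; rfl)
  · exact fun h => hr0 (by rw [h]; rfl)

variable [CharZero E]

/-- One direction. -/
lemma tstep {n : ℕ} {a f : MvPolynomial (Fin n) k} (hdis : ∀ j, j ∉ a.vars ∨ j ∉ f.vars)
    (hda : ∀ j, MvPolynomial.degreeOf j a ≤ 8) (hdf : ∀ j, MvPolynomial.degreeOf j f ≤ 8)
    {x : ℕ → E} (hx : AlgebraicIndependent k x) {m : ℕ} (j : Fin n) {z : Fin n → E}
    {Ω : IntermediateField k E} (hz : ∀ i, z i ∈ Ω) (hp : Pure Ω)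
    (hΩ : Ω ≤ AC k (x '' {i | i < 2 * m})) (ha0 : MvPolynomial.aeval z a ≠ 0)
    (hf0 : MvPolynomial.aeval z f ≠ 0) (hga : j ∈ a.vars → GoodAt j a z)
    (hgf : j ∈ f.vars → GoodAt j f z)
    (hsp : Sp Ω (MvPolynomial.aeval z a) (MvPolynomial.aeval z f)) :
    ∃ (Ω' : IntermediateField k E) (t : E), Ω ≤ Ω' ∧ t ∈ Ω' ∧ Pure Ω' ∧
      Ω' ≤ AC k (x '' {i | i < 2 * (m + 1)}) ∧ Transcendental Ω t ∧
      RelCl (IntermediateField.adjoin k ((Ω : Set E) ∪ {t})) Ω' ∧
      (MvPolynomial.aeval (Function.update z j t) a ≠ 0 →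
        MvPolynomial.aeval (Function.update z j t) f ≠ 0 →
        Sp Ω' (MvPolynomial.aeval (Function.update z j t) a)
          (MvPolynomial.aeval (Function.update z j t) f)) := by
  have hx1 : Transcendental Ω (x (2 * m)) :=
    transcendental_of_le hx (I := {i | i < 2 * m}) (by simp) hΩ
  have hΩ1 : IntermediateField.adjoin k ((Ω : Set E) ∪ {x (2 * m)}) ≤
      AC k (x '' {i | i < 2 * m + 1}) := adj_AC (Nat.le_succ _) hΩ (by
    rintro y hy
    exact ⟨2 * m, Nat.lt_succ_self _, hy⟩)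
  have hx2 : Transcendental (IntermediateField.adjoin k ((Ω : Set E) ∪ {x (2 * m)}))
      (x (2 * m + 1)) :=
    transcendental_of_le hx (I := {i | i < 2 * m + 1}) (by simp) hΩ1
  have hp1 := hp.step hx1
  have hp2 := hp1.step hx2
  rw [adjoin_two] at hp2
  have hle : Ω ≤ IntermediateField.adjoin k ((Ω : Set E) ∪ {x (2 * m), x (2 * m + 1)}) :=
    fun y hy => IntermediateField.subset_adjoin _ _ (Or.inl hy)
  have hΩ2 : IntermediateField.adjoin k ((Ω : Set E) ∪ {x (2 * m), x (2 * m + 1)}) ≤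
      AC k (x '' {i | i < 2 * (m + 1)}) := adj_AC (by omega) hΩ (by
    rintro y (rfl | hy)
    · exact ⟨2 * m, by omega, rfl⟩
    · exact ⟨2 * m + 1, by omega, hy⟩)
  obtain ⟨z', hz'⟩ : ∃ z' : Fin n → Ω, (fun i => (z' i : E)) = z :=
    ⟨fun i => ⟨z i, hz i⟩, rfl⟩
  by_cases hjf : j ∈ f.vars
  · have hja : j ∉ a.vars := (hdis j).resolve_right (fun h => h hjf)
    have hg : GoodAt j f z' := GoodAt.down (by rw [hz']; exact hgf hjf)
    obtain ⟨t, ht, htr, hrel, P, hP, Q, hQ, hv⟩ := step1 hx1 hx2 (o := a) (hdf j) (by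
      intro h
      apply ha0
      rw [← hz', ← coe_aeval, h]
      rfl) hg
    rw [coe_aeval, coe_aeval, hz'] at hv
    refine ⟨_, t, hle, ht, hp2, hΩ2, htr, hrel, fun _ h2 => ?_⟩
    rw [hv] at h2 ⊢
    rw [aeval_update _ _ _ hja]
    refine (hsp.mono hle).norm ?_ hP hQ (right_ne_zero_of_mul h2)
    exact aeval_mem' (fun i => hle (hz i)) a
  by_cases hja : j ∈ a.vars
  · have hg : GoodAt j a z' := GoodAt.down (by rw [hz']; exact hga hja)
    obtain ⟨t, ht, htr, hrel, P, hP, Q, hQ, hv⟩ := step1 hx1 hx2 (o := f) (hda j) (by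
      intro h
      apply hf0
      rw [← hz', ← coe_aeval, h]
      rfl) hg
    rw [coe_aeval, coe_aeval, hz'] at hv
    refine ⟨_, t, hle, ht, hp2, hΩ2, htr, hrel, fun h1 _ => ?_⟩
    rw [hv] at h1 ⊢
    rw [aeval_update _ _ _ hjf]
    refine ((hsp.mono hle).symm.norm ?_ hP hQ (right_ne_zero_of_mul h1)).symm
    exact aeval_mem' (fun i => hle (hz i)) f
  · refine ⟨IntermediateField.adjoin k ((Ω : Set E) ∪ {x (2 * m)}), x (2 * m),
      fun y hy => IntermediateField.subset_adjoin _ _ (Or.inl hy),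
      IntermediateField.subset_adjoin _ _ (Or.inr rfl), hp1, ?_, hx1, fun y hy _ => hy,
      fun _ _ => ?_⟩
    · exact adj_AC (by omega) hΩ (by
        rintro y hy
        exact ⟨2 * m, by omega, hy⟩)
    · rw [aeval_update _ _ _ hja, aeval_update _ _ _ hjf]
      exact hsp.mono (fun y hy => IntermediateField.subset_adjoin _ _ (Or.inl hy))

/-- **The tower.** -/
theorem tower {n : ℕ} {a f : MvPolynomial (Fin n) k} (hdis : ∀ j, j ∉ a.vars ∨ j ∉ f.vars)
    (hda : ∀ j, MvPolynomial.degreeOf j a ≤ 8) (hdf : ∀ j, MvPolynomial.degreeOf j f ≤ 8)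
    {H : MvPolynomial (Fin n) k} (hH : ∀ z : Fin n → E, MvPolynomial.aeval z H ≠ 0 →
      MvPolynomial.aeval z a ≠ 0 ∧ MvPolynomial.aeval z f ≠ 0 ∧
      (∀ j ∈ a.vars, GoodAt j a z) ∧ ∀ j ∈ f.vars, GoodAt j f z)
    {x : ℕ → E} (hx : AlgebraicIndependent k x) {c : Fin n → k} (hc : MvPolynomial.eval c H ≠ 0)
    (hsp : Sp (⊥ : IntermediateField k E) (algebraMap k E (MvPolynomial.eval c a))
      (algebraMap k E (MvPolynomial.eval c f))) (m : ℕ) (hm : m ≤ n) :
    ∃ (z : Fin n → E) (Ω : IntermediateField k E),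
      (∀ i : Fin n, m ≤ (i : ℕ) → z i = algebraMap k E (c i)) ∧ (∀ i, z i ∈ Ω) ∧ Pure Ω ∧
      Ω ≤ AC k (x '' {i | i < 2 * m}) ∧
      AlgebraicIndependent k (fun i : {i : Fin n | (i : ℕ) < m} => z i) ∧
      RelCl (IntermediateField.adjoin k (z '' {i : Fin n | (i : ℕ) < m})) Ω ∧
      Sp Ω (MvPolynomial.aeval z a) (MvPolynomial.aeval z f) := by
  induction m with
  | zero =>
    refine ⟨fun i => algebraMap k E (c i), ⊥, fun i _ => rfl,
      fun i => IntermediateField.algebraMap_mem _ _, Pure.bot, bot_le, ?_, ?_, ?_⟩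
    · have : IsEmpty {i : Fin n | (i : ℕ) < 0} := ⟨fun i => Nat.not_lt_zero _ i.2⟩
      rw [algebraicIndependent_empty_type_iff]
      exact (algebraMap k E).injective
    · intro y hy _
      exact bot_le (a := IntermediateField.adjoin k _) hy
    · have e : ∀ g : MvPolynomial (Fin n) k, MvPolynomial.aeval (fun i => algebraMap k E (c i)) g =
          algebraMap k E (MvPolynomial.eval c g) := fun g => by
        exact MvPolynomial.aeval_algebraMap_apply E c g
      rw [e, e]
      exact hsp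
  | succ m ih =>
    obtain ⟨z, Ω, hzc, hz, hp, hΩ, hind, hrel, hs⟩ := ih (by omega)
    obtain ⟨h1, h2, h3, h4⟩ := hH z (good hind hzc hc)
    have hmn : m < n := hm
    obtain ⟨j, hj⟩ : ∃ j : Fin n, (j : ℕ) = m := ⟨⟨m, hmn⟩, rfl⟩
    obtain ⟨Ω', t, hle, ht, hp', hΩ', htr, hrel', hs'⟩ := tstep hdis hda hdf hx j hz hp hΩ h1 h2
      (fun h => h3 j h) (fun h => h4 j h) hs
    obtain ⟨z', hz'⟩ : ∃ z' : Fin n → E, z' = Function.update z j t := ⟨_, rfl⟩
    have hold : ∀ i : Fin n, i ≠ j → z' i = z i := fun i hi => by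
      rw [hz', Function.update_of_ne hi]
    have hnew : z' j = t := by rw [hz', Function.update_self]
    have hset : {i : Fin n | (i : ℕ) < m + 1} = insert j {i : Fin n | (i : ℕ) < m} := by
      ext i
      simp only [Set.mem_ofPred_eq, Set.mem_insert_iff, Fin.ext_iff, hj]
      omega
    have him : z' '' {i : Fin n | (i : ℕ) < m} = z '' {i : Fin n | (i : ℕ) < m} := by
      refine Set.image_congr fun i hi => hold i ?_
      rintro rfl
      rw [Set.mem_ofPred_eq, hj] at hi
      exact lt_irrefl _ hi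
    have hadj : IntermediateField.adjoin k (z' '' {i : Fin n | (i : ℕ) < m + 1}) =
        IntermediateField.adjoin k
          ((IntermediateField.adjoin k (z '' {i : Fin n | (i : ℕ) < m}) : Set E) ∪ {t}) := by
      rw [hset, Set.image_insert_eq, hnew, him]
      apply le_antisymm
      · rw [IntermediateField.adjoin_le_iff]
        rintro y (rfl | hy)
        · exact IntermediateField.subset_adjoin _ _ (Or.inr rfl)
        · exact IntermediateField.subset_adjoin _ _
            (Or.inl (IntermediateField.subset_adjoin _ _ hy))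
      · rw [IntermediateField.adjoin_le_iff]
        rintro y (hy | hy)
        · exact IntermediateField.adjoin.mono k _ _ (Set.subset_insert _ _) hy
        · exact IntermediateField.subset_adjoin _ _ (Or.inl hy)
    have hLle : IntermediateField.adjoin k (z '' {i : Fin n | (i : ℕ) < m}) ≤ Ω := by
      rw [IntermediateField.adjoin_le_iff]
      rintro _ ⟨i, -, rfl⟩
      exact hz i
    have hzc' : ∀ i : Fin n, m + 1 ≤ (i : ℕ) → z' i = algebraMap k E (c i) := by
      intro i hi
      rw [hold i, hzc i (by omega)]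
      rintro rfl
      omega
    have hind' : AlgebraicIndependent k (fun i : {i : Fin n | (i : ℕ) < m + 1} => z' i) := by
      have h5 : AlgebraicIndepOn k z' {i : Fin n | (i : ℕ) < m} := by
        have e : (fun i : {i : Fin n | (i : ℕ) < m} => z' i) =
            fun i : {i : Fin n | (i : ℕ) < m} => z i := by
          funext i
          refine hold i ?_
          rintro h
          have := i.2
          rw [Set.mem_ofPred_eq, h, hj] at this
          exact lt_irrefl _ this
        rw [AlgebraicIndepOn, e]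
        exact hind
      have h6 : AlgebraicIndepOn k z' (insert j {i : Fin n | (i : ℕ) < m}) := by
        refine h5.insert ?_
        rw [hnew, him, ← IntermediateField.transcendental_adjoin_iff]
        exact fun h => htr (isAlgebraic_mono' hLle h)
      rw [← hset] at h6
      exact h6
    obtain ⟨g1, g2, -, -⟩ := hH z' (good hind' hzc' hc)
    refine ⟨z', Ω', hzc', fun i => ?_, hp', hΩ', hind', ?_, ?_⟩
    · by_cases hi : i = j
      · rw [hi, hnew]; exact ht
      · rw [hold i hi]; exact hle (hz i)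
    · rw [hadj]
      refine RelCl.trans ?_ (rel_transcendental hLle hrel htr) hrel'
      rw [IntermediateField.adjoin_le_iff]
      rintro y (hy | hy)
      · exact IntermediateField.subset_adjoin _ _ (Or.inl (hLle hy))
      · exact IntermediateField.subset_adjoin _ _ (Or.inr hy)
    · rw [hz'] at g1 g2 ⊢
      exact hs' g1 g2

end Pool.Agent.H436.HP
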