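import Pool.Agent.H436.HP.One

/-!
# Two moves in one direction: the embedding in a field of power series (helper436)
-/

set_option autoImplicit false

namespace Pool.Agent.H436.HP

open Polynomial

section ind

variable {B κ : Type*} [Field B] [Field κ] [Algebra B κ]

lemma tr_X (κ : Type*) [Field κ] : Transcendental κ
    (algebraMap (PowerSeries κ) (FractionRing (PowerSeries κ)) PowerSeries.X) := by
  rw [transcendental_algebraMap_iff (IsFractionRing.injective _ _), transcendental_iff]
  intro p hp
  have h1 : aeval (PowerSeries.X : PowerSeries κ) p = (p : PowerSeries κ) := by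
    rw [aeval_def]
    exact Polynomial.eval₂_C_X_eq_coe
  rw [h1] at hp
  exact_mod_cast hp

/-- Algebraic independence of the images of the two parameters. -/
lemma ind {x : κ} (hx : Transcendental B x) {s1 s2 π : FractionRing (PowerSeries κ)} {b S0 : B}
    (hs1 : s1 = algebraMap B _ b +
      algebraMap (PowerSeries κ) (FractionRing (PowerSeries κ)) PowerSeries.X)
    (hπ0 : π ≠ 0) (hπ : π ∈ IntermediateField.adjoin B {s1})
    (hs2 : s2 = algebraMap B _ S0 + π * algebraMap κ (FractionRing (PowerSeries κ)) x) :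
    AlgebraicIndependent B (fun o : Option Unit => o.elim s2 (fun _ => s1)) := by
  obtain ⟨ϖ, hϖ⟩ : ∃ ϖ, ϖ = algebraMap (PowerSeries κ) (FractionRing (PowerSeries κ))
    PowerSeries.X := ⟨_, rfl⟩
  obtain ⟨X0, hX0⟩ : ∃ X0, X0 = algebraMap κ (FractionRing (PowerSeries κ)) x := ⟨_, rfl⟩
  have htr : Transcendental κ ϖ := by rw [hϖ]; exact tr_X κ
  have hz : AlgebraicIndependent B (Sum.elim (fun _ : Unit => ϖ) (fun _ : Unit => X0)) := by
    rw [hX0]
    exact AlgebraicIndependent.sumElim_comp
      ((algebraicIndependent_unique_type_iff (x := fun _ : Unit => x)).mpr hx)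
      (algebraicIndependent_unique_type_iff.mpr htr)
  have hX : Transcendental (IntermediateField.adjoin B {ϖ}) X0 := by
    have h2 := hz.transcendental_adjoin (s := {Sum.inl ()}) (i := Sum.inr ()) (by simp)
    rw [Set.image_singleton] at h2
    rw [IntermediateField.transcendental_adjoin_iff]
    exact h2
  have hle : IntermediateField.adjoin B {s1} ≤ IntermediateField.adjoin B {ϖ} := by
    rw [IntermediateField.adjoin_le_iff, Set.singleton_subset_iff, hs1, ← hϖ]
    exact add_mem (IntermediateField.algebraMap_mem _ _)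
      (IntermediateField.subset_adjoin _ _ rfl)
  have hϖB : Transcendental B ϖ := by
    have h2 := hz.comp (fun _ : Unit => Sum.inl ()) (fun _ _ _ => rfl)
    exact (algebraicIndependent_unique_type_iff.mp h2)
  refine AlgebraicIndependent.option_iff.mpr ⟨?_, ?_⟩
  · rw [algebraicIndependent_unique_type_iff]
    intro h
    apply hϖB
    have h3 : ϖ = s1 - algebraMap B _ b := by rw [hs1, ← hϖ]; ring
    rw [h3]
    exact IsAlgebraic.sub h (isAlgebraic_algebraMap b)
  · rw [Set.range_const, ← IntermediateField.transcendental_adjoin_iff]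
    intro h
    apply hX
    have h4 : IsAlgebraic (IntermediateField.adjoin B {ϖ}) s2 := by
      obtain ⟨p, hp, h0⟩ := h
      refine ⟨p.map (IntermediateField.inclusion hle).toRingHom, ?_, ?_⟩
      · rwa [Ne, Polynomial.map_eq_zero]
      · rw [aeval_def, eval₂_map]
        exact h0
    have h5 : X0 = (s2 - algebraMap B _ S0) * π⁻¹ := by
      rw [hs2, ← hX0]
      field_simp
      ring
    rw [h5]
    have h6 : IsAlgebraic (IntermediateField.adjoin B {ϖ})
        (algebraMap B (FractionRing (PowerSeries κ)) S0) :=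
      isAlgebraic_algebraMap (⟨_, IntermediateField.algebraMap_mem _ S0⟩ :
        IntermediateField.adjoin B {ϖ})
    have h7 : IsAlgebraic (IntermediateField.adjoin B {ϖ}) π :=
      isAlgebraic_algebraMap (⟨_, hle hπ⟩ : IntermediateField.adjoin B {ϖ})
    exact (h4.sub h6).mul h7.inv

end ind

section main

variable {F B : Type*} [Field F] [Field B] [CharZero F] [CharZero B] [Algebra F B] [IsAlgClosed B]

theorem twoL {f : F[X]} {a c : F} (ha : a ≠ 0) (h0 : tc f c 0 ≠ 0) (h1 : tc f c 1 ≠ 0)
    (hw : vec 0 (Gs (tc f c)) 2 ≠ 0) {b : B} (hb : aeval b f = 0)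
    (hb' : aeval b (derivative f) ≠ 0) :
    ∃ (s1 s2 : FractionRing (PowerSeries (RatFunc B))) (TR : PowerSeries (RatFunc B)),
      AlgebraicIndependent B (fun o : Option Unit => o.elim s2 (fun _ => s1)) ∧
      m2 f a c s1 s2 = algebraMap _ _ TR ∧
      Transcendental B (PowerSeries.constantCoeff TR) ∧
      IntermediateField.adjoin B {PowerSeries.constantCoeff TR} = ⊤ := by
  -- the point over which the second move starts
  obtain ⟨δ, hδ⟩ : ∃ δ : B, δ = b - algebraMap F B c := ⟨_, rfl⟩
  have hδ0 : δ ≠ 0 := by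
    intro h
    rw [hδ, sub_eq_zero] at h
    rw [h, aeval_algebraMap_apply] at hb
    rw [tc_zero] at h0
    exact h0 ((map_eq_zero_iff _ (algebraMap F B).injective).1 hb)
  obtain ⟨P', Q', D, s, hP', hQ', hD0, hQs, hPs, hne⟩ := value (B := B)
    (P1_ne h0 h1 hw ha) (lt_of_le_of_lt (natDegree_P1 _ ha) (by
      rw [natDegree_Q1 (tc f c) ha]; norm_num)) hδ0
  obtain ⟨α, hα, hαd, hαn, hα0, hα32⟩ := exists_A0 (B := B)
  obtain ⟨S0, hS0⟩ : ∃ S0 : B, S0 ^ 2 = α / algebraMap F B a :=
    IsAlgClosed.exists_pow_nat_eq _ two_pos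
  have haB : algebraMap F B a ≠ 0 := (map_ne_zero_iff _ (algebraMap F B).injective).2 ha
  have hS0' : algebraMap F B a * S0 ^ 2 = α := by rw [hS0]; field_simp
  have hS00 : S0 ≠ 0 := by
    rintro rfl
    rw [zero_pow two_ne_zero, mul_zero] at hS0'
    exact hα0 hS0'.symm
  -- notation
  set R := PowerSeries (RatFunc B) with hR
  set L := FractionRing R with hL
  let res : R →+* RatFunc B := PowerSeries.constantCoeff
  have hres : ∀ x, res x ≠ 0 → IsUnit x := fun x hx => by
    rw [PowerSeries.isUnit_iff_constantCoeff]; exact isUnit_iff_ne_zero.2 hx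
  have hinj : Function.Injective (algebraMap R L) := IsFractionRing.injective R L
  have hcR : ∀ y : B, res (algebraMap B R y) = algebraMap B (RatFunc B) y := fun y => rfl
  have hresX : res PowerSeries.X = 0 := PowerSeries.constantCoeff_X
  have hraev : ∀ (x : R) (y : B) (p : F[X]), res x = algebraMap B (RatFunc B) y →
      res (aeval x p) = algebraMap B (RatFunc B) (aeval y p) := by
    intro x y p hx
    have e1 := Polynomial.hom_eval₂ p (algebraMap F R) res x
    have e2 := Polynomial.hom_eval₂ p (algebraMap F B) (algebraMap B (RatFunc B)) y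
    rw [← aeval_def] at e1 e2
    rw [e1, e2, hx]
    congr 1
  -- the parameter of the first move
  obtain ⟨σ, hσ⟩ : ∃ σ : R, σ = algebraMap B R s + PowerSeries.X := ⟨_, rfl⟩
  have hσr : res σ = algebraMap B (RatFunc B) s := by
    rw [hσ, map_add, hresX, add_zero, hcR]
  obtain ⟨s1, hs1⟩ : ∃ s1 : L, s1 = algebraMap R L σ := ⟨_, rfl⟩
  have hs1' : s1 = algebraMap B L s + algebraMap R L PowerSeries.X := by
    rw [hs1, hσ, map_add, ← IsScalarTower.algebraMap_apply]
  have hs1t : Transcendental B s1 := by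
    intro h
    have h2 : Transcendental (RatFunc B) (algebraMap R L PowerSeries.X) := tr_X (RatFunc B)
    apply h2
    have h3 : algebraMap R L PowerSeries.X = s1 - algebraMap B L s := by rw [hs1']; ring
    rw [h3]
    exact (h.sub (isAlgebraic_algebraMap s)).tower_top (RatFunc B)
  have hs1F : ∀ p : F[X], p ≠ 0 → aeval s1 p ≠ 0 := by
    intro p hp h
    refine hs1t ⟨p.map (algebraMap F B), ?_, ?_⟩
    · rwa [Ne, Polynomial.map_eq_zero]
    · rw [aeval_map_algebraMap]; exact h
  have hQ'0 : Q' ≠ 0 := by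
    rintro rfl
    exact hQs (map_zero _)
  obtain ⟨q, hq⟩ : ∃ q : R, q = aeval σ Q' := ⟨_, rfl⟩
  have hqr : res q ≠ 0 := by
    rw [hq, hraev σ s Q' hσr]
    exact (map_ne_zero_iff _ (algebraMap B (RatFunc B)).injective).2 hQs
  obtain ⟨qi, hqi⟩ := (hres q hqr).exists_right_inv
  have hqL : algebraMap R L q * algebraMap R L qi = 1 := by rw [← map_mul, hqi, map_one]
  have hqL0 : algebraMap R L q ≠ 0 := left_ne_zero_of_mul_eq_one hqL
  obtain ⟨π, hπ⟩ : ∃ π : R, π = aeval σ P' * qi - algebraMap B R δ := ⟨_, rfl⟩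
  have hπr : res π = 0 := by
    have e1 : res q * res qi = 1 := by rw [← map_mul, hqi, map_one]
    rw [hπ, map_sub, map_mul, hraev σ s P' hσr, hPs, hcR, map_mul, ← hraev σ s Q' hσr, ← hq]
    linear_combination (algebraMap B (RatFunc B) δ) * e1
  have hπ0 : π ≠ 0 := by
    intro h
    rw [hπ, sub_eq_zero] at h
    have h3 : aeval s1 P' = algebraMap B L δ * aeval s1 Q' := by
      have e1 := congrArg (algebraMap R L) h
      rw [map_mul, ← aeval_algebraMap_apply, ← hs1, ← IsScalarTower.algebraMap_apply] at e1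
      rw [← e1]
      have e2 : aeval s1 Q' = algebraMap R L q := by
        rw [hs1, hq, aeval_algebraMap_apply]
      rw [e2]
      linear_combination (-aeval s1 P') * hqL
    refine hs1t ⟨_, hne, ?_⟩
    rw [map_sub, map_mul, aeval_C, aeval_map_algebraMap, aeval_map_algebraMap, h3, sub_self]
  -- the first move
  have hm1 : m1 f a c s1 = algebraMap R L (algebraMap B R b + π) := by
    rw [m1_eq, ← hP', ← hQ', map_mul, map_mul, mul_div_mul_left _ _ (hs1F D hD0)]
    have e1 : aeval s1 Q' = algebraMap R L q := by rw [hs1, hq, aeval_algebraMap_apply]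
    have e2 : aeval s1 P' = algebraMap R L (aeval σ P') := by rw [hs1, aeval_algebraMap_apply]
    have e3 : algebraMap R L qi = (algebraMap R L q)⁻¹ := eq_inv_of_mul_eq_one_right hqL
    rw [e1, e2, hπ, map_add, map_sub, map_mul, e3, hδ, map_sub (algebraMap B R), map_sub,
      ← IsScalarTower.algebraMap_apply B R L, ← IsScalarTower.algebraMap_apply F B R,
      ← IsScalarTower.algebraMap_apply F R L]
    rw [div_eq_mul_inv]
    ring
  -- the second move
  obtain ⟨x, hx⟩ : ∃ x : RatFunc B, x = RatFunc.X := ⟨_, rfl⟩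
  have hxt : Transcendental B x := by rw [hx]; exact RatFunc.transcendental_X
  obtain ⟨XR, hXR⟩ : ∃ XR : R, XR = algebraMap (RatFunc B) R x := ⟨_, rfl⟩
  have hXRr : res XR = x := by rw [hXR]; rfl
  obtain ⟨z, hz⟩ : ∃ z : R, z = algebraMap B R b + π := ⟨_, rfl⟩
  have hzr : res z = algebraMap B (RatFunc B) b := by rw [hz, map_add, hπr, add_zero, hcR]
  obtain ⟨g, hg⟩ : ∃ g : Fin 9 → R, g = tc f z := ⟨_, rfl⟩
  obtain ⟨k, hk⟩ := (f.map (algebraMap F R)).binomExpansion (algebraMap B R b) π
  rw [eval_map, eval_map, derivative_map, eval_map, ← aeval_def, ← aeval_def, ← aeval_def,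
    aeval_algebraMap_apply, aeval_algebraMap_apply, hb, map_zero, zero_add, ← hz] at hk
  obtain ⟨u, hu⟩ : ∃ u : R, u = algebraMap B R (aeval b (derivative f)) + k * π := ⟨_, rfl⟩
  have hg0 : g 0 = π * u := by rw [hg, tc_zero, hk, hu]; ring
  have hg1 : res (g 1) = algebraMap B (RatFunc B) (aeval b (derivative f)) := by
    rw [hg, tc_one, hraev z b _ hzr]
  have hg2 : res (g 2) = algebraMap B (RatFunc B) (aeval b (hasseDeriv 2 f)) := by
    rw [hg]
    exact hraev z b _ hzr
  have hur : res u = res (g 1) := by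
    rw [hg1, hu, map_add, map_mul, hπr, mul_zero, add_zero, hcR]
  have hu0 : res u ≠ 0 := by
    rw [hur, hg1]
    exact (map_ne_zero_iff _ (algebraMap B (RatFunc B)).injective).2 hb'
  obtain ⟨A, hA⟩ : ∃ A : R, A = algebraMap B R (algebraMap F B a) *
    (algebraMap B R S0 + π * XR) ^ 2 := ⟨_, rfl⟩
  have hA' : A = algebraMap B R α + π * (2 * algebraMap B R (algebraMap F B a) *
      algebraMap B R S0 * XR + π * (algebraMap B R (algebraMap F B a) * XR ^ 2)) := by
    rw [hA, ← hS0', map_mul, map_pow]
    ring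
  have : CharZero L := charZero_of_injective_algebraMap (algebraMap F L).injective
  obtain ⟨Θ, β, hΘ1, hΘ2⟩ := base (L := L) hinj res hres (algebraMap B R) hcR (a := algebraMap F B a)
    (S0 := S0) hα hπ0 hπr (XR := XR) (by rw [hXRr]; exact hxt) hg0 hur hu0 hg1 hg2 hA'
    (mul_ne_zero hαd (mul_ne_zero (mul_ne_zero two_ne_zero haB) hS00))
  rw [hXRr] at hΘ2
  obtain ⟨s2, hs2⟩ : ∃ s2 : L, s2 = algebraMap R L (algebraMap B R S0 + π * XR) := ⟨_, rfl⟩
  have hm2 : m2 f a c s1 s2 = algebraMap R L (z + Θ) := by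
    rw [m2, hm1, ← hz, map_add, hΘ1]
    congr 1
    have e1 : tc f (algebraMap R L z) = fun k => algebraMap R L (g k) := by
      rw [hg]
      exact (tc_map (IsScalarTower.toAlgHom F R L) f z).symm
    have e2 : algebraMap F L a * s2 ^ 2 = algebraMap R L A := by
      rw [hs2, hA, map_mul, map_pow, ← IsScalarTower.algebraMap_apply F B R,
        ← IsScalarTower.algebraMap_apply F R L]
    rw [e1, e2]
  have hind := ind (κ := RatFunc B) hxt hs1' (π := algebraMap R L π)
    ((map_ne_zero_iff _ hinj).2 hπ0) (by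
      have e1 : algebraMap R L π = aeval s1 P' / aeval s1 Q' - algebraMap B L δ := by
        have e1 : aeval s1 Q' = algebraMap R L q := by rw [hs1, hq, aeval_algebraMap_apply]
        have e2 : aeval s1 P' = algebraMap R L (aeval σ P') := by
          rw [hs1, aeval_algebraMap_apply]
        have e3 : algebraMap R L qi = (algebraMap R L q)⁻¹ := eq_inv_of_mul_eq_one_right hqL
        rw [hπ, map_sub, map_mul, e1, e2, e3, ← IsScalarTower.algebraMap_apply, div_eq_mul_inv]
      have e4 : ∀ p : F[X], aeval s1 p ∈ IntermediateField.adjoin B {s1} := by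
        intro p
        rw [← aeval_map_algebraMap B]
        exact (IntermediateField.algebra_adjoin_le_adjoin B {s1})
          (aeval_mem_adjoin_singleton B s1)
      rw [e1]
      exact sub_mem (IntermediateField.div_mem _ (e4 _) (e4 _))
        (IntermediateField.algebraMap_mem _ _)) (s2 := s2) (S0 := S0) (by
      rw [hs2, map_add, map_mul, ← IsScalarTower.algebraMap_apply, hXR,
        ← IsScalarTower.algebraMap_apply])
  -- the residue of the result
  obtain ⟨T0, hT0⟩ : ∃ T0, T0 = res (z + Θ) := ⟨_, rfl⟩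
  have hγ : (64 * (α * (-896 * (α + 32)) * (2744 * nf α)) : B) ≠ 0 :=
    mul_ne_zero (by norm_num) (mul_ne_zero (mul_ne_zero hα0 (mul_ne_zero (by norm_num) hα32))
      (mul_ne_zero (by norm_num) hαn))
  have hΘ0 : res Θ ≠ 0 := by
    intro h
    rw [h, zero_mul] at hΘ2
    exact (map_ne_zero_iff _ (algebraMap B (RatFunc B)).injective).2 hγ hΘ2.symm
  have hΘT : res Θ = T0 - algebraMap B (RatFunc B) b := by
    rw [hT0, map_add, hzr]; ring
  have hρ : (-38416 * (qd α * (2 * algebraMap F B a * S0)) : B) ≠ 0 :=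
    mul_ne_zero (by norm_num)
      (mul_ne_zero hαd (mul_ne_zero (mul_ne_zero two_ne_zero haB) hS00))
  have hxT : x ∈ IntermediateField.adjoin B {T0} := by
    have hTm : T0 ∈ IntermediateField.adjoin B {T0} := IntermediateField.subset_adjoin _ _ rfl
    have hρ' : algebraMap B (RatFunc B)
        (-38416 * (qd α * (2 * algebraMap F B a * S0))) ≠ 0 :=
      (map_ne_zero_iff _ (algebraMap B (RatFunc B)).injective).2 hρ
    have e1 : x = (algebraMap B (RatFunc B) (64 * (α * (-896 * (α + 32)) * (2744 * nf α))) /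
        (T0 - algebraMap B (RatFunc B) b) - algebraMap B (RatFunc B) β) /
        algebraMap B (RatFunc B) (-38416 * (qd α * (2 * algebraMap F B a * S0))) := by
      rw [← hΘ2, ← hΘT, mul_div_cancel_left₀ _ hΘ0, add_sub_cancel_right,
        mul_div_cancel_left₀ _ hρ']
    rw [e1]
    have hm : ∀ y : B, algebraMap B (RatFunc B) y ∈ IntermediateField.adjoin B {T0} := fun y =>
      IntermediateField.algebraMap_mem _ y
    exact IntermediateField.div_mem _ (sub_mem (IntermediateField.div_mem _ (hm _)
      (sub_mem hTm (hm _))) (hm _)) (hm _)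
  have htop : IntermediateField.adjoin B {T0} = ⊤ := by
    rw [eq_top_iff, ← RatFunc.adjoin_X, IntermediateField.adjoin_le_iff,
      Set.singleton_subset_iff, ← hx]
    exact hxT
  refine ⟨s1, s2, z + Θ, hind, hm2, ?_, hT0 ▸ htop⟩
  change Transcendental B (res (z + Θ))
  rw [← hT0]
  intro h
  apply hxt
  have h3 : x ∈ IntermediateField.adjoin B {T0} := hxT
  have h4 : (IntermediateField.adjoin B {T0}) ≤ algebraicClosure B (RatFunc B) := by
    rw [IntermediateField.adjoin_le_iff, Set.singleton_subset_iff]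
    exact mem_algebraicClosure_iff.2 h
  exact mem_algebraicClosure_iff.1 (h4 h3)

end main

end Pool.Agent.H436.HP
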