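import Pool.Agent.H436.HP.Alg

/-!
# The limit of the move at a zero of the polynomial (helper436)

The denominator is a multiple of an integral monic polynomial of degree `15` which has simple
roots. The certificate is an identity modulo `3`.
-/

set_option autoImplicit false
set_option linter.style.longLine false

namespace Pool.Agent.H436.HP

section defs

variable {R : Type*} [CommRing R]

/-- the denominator -/
def qf (x : R) : R :=
  x ^ 15 - 64 * x ^ 14 + 4352 * x ^ 13 - 278528 * x ^ 12 + 6971392 * x ^ 11 - 316145664 * x ^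
  10 + 8003780608 * x ^ 9 - 129721434112 * x ^ 8 + 6092964757504 * x ^ 7 - 20702816108544 * x ^
  6 + 2386146390704128 * x ^ 5 - 11392039975387136 * x ^ 4 + 395190867301761024 * x ^ 3 -
  6169931489497579520 * x ^ 2 + 20752587082923245568 * x - 903890459611768029184

/-- its derivative -/
def qd (x : R) : R :=
  15 * x ^ 14 - 896 * x ^ 13 + 56576 * x ^ 12 - 3342336 * x ^ 11 + 76685312 * x ^ 10 -
  3161456640 * x ^ 9 + 72034025472 * x ^ 8 - 1037771472896 * x ^ 7 + 42650753302528 * x ^ 6 -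
  124216896651264 * x ^ 5 + 11930731953520640 * x ^ 4 - 45568159901548544 * x ^ 3 +
  1185572601905283072 * x ^ 2 - 12339862978995159040 * x + 20752587082923245568

/-- the numerator -/
def nf (x : R) : R :=
  -x ^ 11 + 48 * x ^ 10 - 2496 * x ^ 9 + 119808 * x ^ 8 - 3223552 * x ^ 7 + 105971712 * x ^ 6 -
  2090074112 * x ^ 5 + 53146025984 * x ^ 4 - 562506498048 * x ^ 3 + 16844861734912 * x ^ 2 -
  37933151158272 * x + 2427721674129408

/-- certificate -/
def uf (x : R) : R :=
  x ^ 23 + x ^ 22 + 2 * x ^ 21 + x ^ 20 + x ^ 19 + 2 * x ^ 17 + 2 * x ^ 15 + x ^ 14 + 2 * x ^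
  13 + 2 * x ^ 12 + x ^ 10 + x ^ 9 + 2 * x ^ 8 + 2 * x ^ 7 + 2 * x ^ 5 + x ^ 4 + 2 * x ^ 2 + 2

/-- certificate -/
def vf (x : R) : R :=
  x ^ 14 + x ^ 13 + x ^ 12 + x ^ 11 + x ^ 10 + 2 * x ^ 7 + x ^ 6 + x ^ 4

/-- certificate -/
def rf (x : R) : R :=
  -5 * x ^ 39 + 534 * x ^ 38 - 45162 * x ^ 37 + 3320129 * x ^ 36 - 174783530 * x ^ 35 +
  8641194395 * x ^ 34 - 366233121664 * x ^ 33 + 13307590800460 * x ^ 32 - 462310806509221 * x ^
  31 + 13692648169567046 * x ^ 30 - 386750764018272922 * x ^ 29 + 9815304478940146694 * x ^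
  28 - 229464947849179020522 * x ^ 27 + 5058716912383514719360 * x ^ 26 -
  98192774066155673849685 * x ^ 25 + 1973361509843384493260779 * x ^ 24 -
  29226521901042205639817834 * x ^ 23 + 604032677834310597387131606 * x ^ 22 -
  5801007275038778572621954944 * x ^ 21 + 136152062581680130295615499094 * x ^ 20 -
  826451691501746686389600381653 * x ^ 19 + 18742918512912333741604055305024 * x ^ 18 -
  106303065490770751872877844418474 * x ^ 17 + 1125671491718183126072882497596032 * x ^ 16 -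
  9122790443256951001674036589745322 * x ^ 15 + 7671993900306929298467361612180096 * x ^ 14 +
  7652714205528462842770676577138176 * x ^ 13 + 7775699473652809798510763223187456 * x ^ 12 +
  6583683545982883956600255201165312 * x ^ 11 + 16563455734036307384405534306205696 * x ^ 10 +
  2337928476393197901946260939603968 * x ^ 9 - 19245104999338900274498729081307136 * x ^ 8 +
  23214303671116523386003142605799424 * x ^ 7 + 18025803368359462482287065168871424 * x ^ 6 -
  10248321277545716007459468139823104 * x ^ 5 + 16793835151823277693326100493500416 * x ^ 4 +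
  14098518633483337728 * x ^ 3 - 606706927400843739136 * x ^ 2 + 13835058055282163712 * x -
  602593639741178686123

lemma cert (x : R) : uf x * qf x + vf x * (nf x * qd x) = 1 + 3 * rf x := by
  simp only [uf, qf, vf, nf, qd, rf]
  ring

/-- the vector at the limit -/
def v0 (x : R) : Fin 8 → R := vec x (fun _ => 0)

lemma v0_1 (x : R) : v0 x 1 = -28 := by simp [v0, vec]
lemma v0_2 (x : R) : v0 x 2 = -112 := by simp [v0, vec]
lemma v0_3 (x : R) : v0 x 3 = -210 := by simp [v0, vec]
lemma v0_4 (x : R) : v0 x 4 = -224 := by simp [v0, vec]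
lemma v0_5 (x : R) : v0 x 5 = -140 := by simp [v0, vec]
lemma v0_6 (x : R) : v0 x 6 = -48 := by simp [v0, vec]
lemma v0_7 (x : R) : v0 x 7 = -7 := by simp [v0, vec]
lemma v0_0 (x : R) : v0 x 0 = x := rfl

lemma dJ_v0 (x : R) : dJ (v0 x) = -896 * (x + 32) := by
  rw [dJ, v0_0, v0_1, v0_2, v0_4]
  ring

lemma dI_v0 (x : R) : dI (v0 x) = -7 * x ^ 3 + 112 * x ^ 2 - 4032 * x + 143360 := by
  rw [dI, v0_0, v0_1, v0_2, v0_3, v0_5]
  ring

lemma d3_v0 (x : R) : d3 (v0 x) =
  14 * x ^ 4 - 224 * x ^ 3 + 8064 * x ^ 2 - 186368 * x + 3211264 := by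
  rw [d3, dJ_v0, dI_v0, v0_0, v0_2]
  ring

lemma d4_v0 (x : R) : d4 (v0 x) =
  196 * x ^ 7 - 6272 * x ^ 6 + 275968 * x ^ 5 - 14049280 * x ^ 4 + 39337984 * x ^ 3 -
  8394244096 * x ^ 2 - 1233125376 * x - 1335063740416 := by
  rw [d4, dJ_v0, dI_v0, v0_0, v0_1, v0_3]
  ring

lemma e4_v0 (x : R) : e4 (v0 x) =
  21 * x ^ 5 - 532 * x ^ 4 + 15232 * x ^ 3 - 442624 * x ^ 2 + 4014080 * x - 102760448 := by
  rw [e4, dJ_v0, dI_v0, d3_v0, v0_0, v0_1, v0_4]
  ring

lemma n7_v0 (x : R) : n7 (v0 x) = 2744 * nf x := by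
  rw [n7, dJ_v0, d3_v0, d4_v0, e4_v0, v0_0, v0_1, v0_6, nf]
  ring

lemma NN_v0 (x : R) : NN (v0 x) = -38416 * qf x := by
  rw [NN, n8, n7_v0, dJ_v0, d4_v0, e4_v0, v0_0, v0_7, nf, qf]
  ring

end defs

section int

open Polynomial

lemma qf_map {R S : Type*} [CommRing R] [CommRing S] (φ : R →+* S) (x : R) :
    φ (qf x) = qf (φ x) := by
  simp only [qf, map_add, map_sub, map_mul, map_pow, map_ofNat]

lemma monic_q : (qf (X : Polynomial ℤ)).Monic := by
  rw [qf]
  monicity!

variable {B : Type*} [Field B] [CharZero B]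

/-- **The root.** -/
lemma exists_A0 [IsAlgClosed B] : ∃ α : B, qf α = 0 ∧ qd α ≠ 0 ∧ nf α ≠ 0 ∧ α ≠ 0 ∧
    α + 32 ≠ 0 := by
  have hdeg : (qf (X : Polynomial ℤ)).degree ≠ 0 := by
    intro h
    have h1 := natDegree_eq_of_degree_eq_some h
    have h2 : (qf (X : Polynomial ℤ)).natDegree = 15 := by
      rw [qf]
      compute_degree!
    rw [h2] at h1
    norm_num at h1
  obtain ⟨α, hα⟩ := IsAlgClosed.exists_aeval_eq_zero_of_injective B
    (FaithfulSMul.algebraMap_injective ℤ B) (qf (X : Polynomial ℤ)) hdeg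
  have h0 : qf α = 0 := by
    rw [← hα]
    have := qf_map (Polynomial.aeval α : Polynomial ℤ →ₐ[ℤ] B).toRingHom X
    simpa using this.symm
  have hint : IsIntegral ℤ α := ⟨_, monic_q, by rw [← Polynomial.aeval_def]; exact hα⟩
  have hr : IsIntegral ℤ (rf α) := by
    have hp : ∀ (p : Polynomial ℤ), IsIntegral ℤ (Polynomial.aeval α p) := fun p => by
      have : Polynomial.aeval α p ∈ Algebra.adjoin ℤ {α} := by
        exact Polynomial.aeval_mem_adjoin_singleton ℤ α
      exact (Algebra.IsIntegral.adjoin (fun x hx => by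
        rw [Set.mem_singleton_iff] at hx; rw [hx]; exact hint)).isIntegral ⟨_, this⟩ |>.algebraMap
    have e : Polynomial.aeval α (rf (X : Polynomial ℤ)) = rf α := by
      simp only [rf, map_add, map_sub, map_mul, map_pow, map_ofNat, Polynomial.aeval_X, map_neg]
    rw [← e]
    exact hp _
  have hne : (1 : B) + 3 * rf α ≠ 0 := by
    intro h
    have h3 : (3 : B) ≠ 0 := by norm_num
    have h4 : rf α = algebraMap ℚ B (-1 / 3) := by
      rw [map_div₀, map_neg, map_one, map_ofNat]
      field_simp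
      linear_combination h
    rw [h4] at hr
    have h5 : IsIntegral ℤ (-1 / 3 : ℚ) :=
      (isIntegral_algebraMap_iff (algebraMap ℚ B).injective).1 hr
    obtain ⟨n, hn⟩ := IsIntegrallyClosed.isIntegral_iff.1 h5
    have h6 : (3 : ℚ) * n = -1 := by
      have : (algebraMap ℤ ℚ) n = (n : ℚ) := rfl
      rw [this] at hn
      rw [hn]; norm_num
    have h7 : (3 : ℤ) * n = -1 := by exact_mod_cast h6
    omega
  have hc := cert α
  rw [h0, mul_zero, zero_add] at hc
  have hnd : nf α * qd α ≠ 0 := by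
    intro h
    rw [h, mul_zero] at hc
    exact hne hc.symm
  refine ⟨α, h0, right_ne_zero_of_mul hnd, left_ne_zero_of_mul hnd, ?_, ?_⟩
  · rintro rfl
    norm_num [qf] at h0
  · intro h
    have h1 : α = -32 := by linear_combination h
    rw [h1] at h0
    norm_num [qf] at h0

end int

end Pool.Agent.H436.HP
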