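import Pool.Agent.H436.HP.Three

/-!
# The value of the polynomial at the new coordinate (helper436)
-/

set_option autoImplicit false

namespace Pool.Agent.H436.HP

open Polynomial

section one

variable {F Ω : Type*} [Field F] [CharZero F] [Field Ω] [Algebra F Ω]

omit [CharZero F] in
lemma trs {a : F} (ha : a ≠ 0) {s : Ω} (hs : Transcendental F s) :
    Transcendental F (algebraMap F Ω a * s ^ 2) := by
  intro h
  apply hs
  have e : s ^ 2 = algebraMap F Ω a⁻¹ * (algebraMap F Ω a * s ^ 2) := by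
    rw [← mul_assoc, ← map_mul, inv_mul_cancel₀ ha, map_one, one_mul]
  have h2 : IsAlgebraic F (s ^ 2) := by
    rw [e]
    exact (isAlgebraic_algebraMap _).mul h
  exact h2.of_pow two_pos

omit [CharZero F] in
/-- One move. -/
lemma val_one [CharZero Ω] {f : F[X]} (hf : f.natDegree ≤ 8) {z A : Ω} (h1 : tc f z 1 ≠ 0)
    (hA : A ≠ 0) (hJ : dJ (vec A (Gs (tc f z))) ≠ 0) (hN : NN (vec A (Gs (tc f z))) ≠ 0) :
    ∃ P Q : Ω, aeval (z + inc (tc f z) A) f = aeval z f * (P ^ 2 - A * Q ^ 2) := by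
  obtain ⟨P, Q, h⟩ := new_pt h1 hA hJ hN
  refine ⟨P, Q, ?_⟩
  rw [pv8_tc hf, tc_zero] at h
  exact h

/-- The numbers in the move are not zero if the parameter is transcendental. -/
lemma gen_ne {g : Fin 9 → F} (hw : vec 0 (Gs g) 2 ≠ 0) {A : Ω} (hA : Transcendental F A) :
    dJ (vec A (Gs (fun k => algebraMap F Ω (g k)))) ≠ 0 ∧
    NN (vec A (Gs (fun k => algebraMap F Ω (g k)))) ≠ 0 := by
  have e1 := dJ_map (aeval A : F[X] →ₐ[F] Ω).toRingHom (pvec g)
  have e3 := NN_map (aeval A : F[X] →ₐ[F] Ω).toRingHom (pvec g)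
  have e4 := pvec_aeval g A
  change _ = dJ (fun i => aeval A (pvec g i)) at e1
  change _ = NN (fun i => aeval A (pvec g i)) at e3
  rw [e4] at e1 e3
  rw [← e1, ← e3]
  rw [transcendental_iff] at hA
  constructor
  · intro h
    have h2 := hA _ h
    have h3 := (dl_J (pvec_zero g) (pvec_dl g)).2
    rw [h2, coeff_zero] at h3
    exact (mul_ne_zero (by norm_num) hw) h3.symm
  · intro h
    have h2 := hA _ h
    have h3 := (dl_N (pvec_zero g) (pvec_dl g)).2
    rw [h2, coeff_zero] at h3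
    norm_num at h3

/-- The polynomial behind the condition on the third coefficient. -/
noncomputable def Wp (f : F[X]) : F[X] :=
  -112 * derivative f ^ 3 + 384 * f * derivative f * hasseDeriv 2 f - 512 * f ^ 2 * hasseDeriv 3 f

omit [CharZero F] in
lemma Wp_eq {f : F[X]} {z : Ω} (h1 : tc f z 1 ≠ 0) :
    vec 0 (Gs (tc f z)) 2 * (tc f z 1) ^ 3 = aeval z (Wp f) := by
  have e : vec 0 (Gs (tc f z)) 2 = -112 + 6 * (64 * tc f z 2 * tc f z 0 / tc f z 1 ^ 2) +
    (-512 * tc f z 3 * tc f z 0 ^ 2 / tc f z 1 ^ 3) := rfl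
  have e2 : tc f z 2 = aeval z (hasseDeriv 2 f) := rfl
  have e3 : tc f z 3 = aeval z (hasseDeriv 3 f) := rfl
  rw [e, Wp]
  simp only [map_add, map_sub, map_mul, map_pow, map_neg, map_ofNat]
  rw [← e2, ← e3, ← tc_one, ← tc_zero]
  field_simp
  ring

/-- the first coordinate is transcendental -/
lemma m1_tr {f : F[X]} {a c : F} (ha : a ≠ 0) (h0 : tc f c 0 ≠ 0) (h1 : tc f c 1 ≠ 0)
    (hw : vec 0 (Gs (tc f c)) 2 ≠ 0) {s : Ω} (hs : Transcendental F s) :
    Transcendental F (m1 f a c s) := by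
  intro hal
  have hP := P1_ne h0 h1 hw ha
  have hQd := natDegree_Q1 (tc f c) ha
  have hPd := natDegree_P1 (tc f c) ha
  have hQ : Q1 (tc f c) a ≠ 0 := by
    intro h
    rw [h, natDegree_zero] at hQd
    norm_num at hQd
  have hP' : aeval s (P1 (tc f c) a) ≠ 0 := fun h => hs ⟨_, hP, h⟩
  have hQ' : aeval s (Q1 (tc f c) a) ≠ 0 := fun h => hs ⟨_, hQ, h⟩
  obtain ⟨y, hy⟩ : ∃ y, y = aeval s (P1 (tc f c) a) / aeval s (Q1 (tc f c) a) := ⟨_, rfl⟩
  have hy0 : y ≠ 0 := by rw [hy]; exact div_ne_zero hP' hQ'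
  have hyal : y ∈ algebraicClosure F Ω := by
    have e : y = m1 f a c s - algebraMap F Ω c := by rw [m1_eq, hy]; ring
    rw [e]
    exact sub_mem (mem_algebraicClosure_iff.2 hal) (IntermediateField.algebraMap_mem _ _)
  obtain ⟨y', hy'⟩ : ∃ y' : algebraicClosure F Ω, (y' : Ω) = y := ⟨⟨y, hyal⟩, rfl⟩
  have hy'0 : y' ≠ 0 := by
    rintro rfl
    exact hy0 hy'.symm
  obtain ⟨G, hG⟩ : ∃ G : Polynomial (algebraicClosure F Ω),
    G = (P1 (tc f c) a).map (algebraMap F _) - C y' * (Q1 (tc f c) a).map (algebraMap F _) :=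
    ⟨_, rfl⟩
  have hG0 : G ≠ 0 := by
    intro h
    have h2 := congrArg (fun p => coeff p 30) h
    rw [hG] at h2
    simp only [coeff_sub, coeff_map, coeff_C_mul, coeff_zero] at h2
    rw [coeff_eq_zero_of_natDegree_lt (by omega : (P1 (tc f c) a).natDegree < 30), map_zero,
      zero_sub, neg_eq_zero, mul_eq_zero] at h2
    rcases h2 with h2 | h2
    · exact hy'0 h2
    · rw [map_eq_zero_iff _ (algebraMap F (algebraicClosure F Ω)).injective, ← hQd,
        coeff_natDegree, leadingCoeff_eq_zero] at h2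
      exact hQ h2
  have hGs : aeval s G = 0 := by
    rw [hG, map_sub, map_mul, aeval_C, aeval_map_algebraMap, aeval_map_algebraMap]
    change _ - (y' : Ω) * _ = 0
    rw [hy', hy]
    field_simp
    ring
  have h3 : IsAlgebraic (algebraicClosure F Ω) s := ⟨G, hG0, hGs⟩
  exact hs (h3.restrictScalars F)

end one

section two

variable {F Ω : Type*} [Field F] [CharZero F] [Field Ω] [Algebra F Ω]

/-- **The value after two moves.** -/
theorem val_two {f : F[X]} (hf : f.natDegree ≤ 8) {a c : F} (ha : a ≠ 0) (h0 : tc f c 0 ≠ 0)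
    (h1 : tc f c 1 ≠ 0) (hw : vec 0 (Gs (tc f c)) 2 ≠ 0) {s1 s2 : Ω}
    (hs : AlgebraicIndependent F (fun o : Option Unit => o.elim s2 (fun _ => s1))) :
    ∃ P Q : Ω, aeval (m2 f a c s1 s2) f =
      algebraMap F Ω (aeval c f) * (P ^ 2 - algebraMap F Ω a * Q ^ 2) := by
  have : CharZero Ω := charZero_of_injective_algebraMap (algebraMap F Ω).injective
  obtain ⟨hs1, hs2⟩ := AlgebraicIndependent.option_iff.mp hs
  rw [algebraicIndependent_unique_type_iff] at hs1
  change Transcendental F s1 at hs1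
  rw [Set.range_const, ← IntermediateField.transcendental_adjoin_iff] at hs2
  have haΩ : algebraMap F Ω a ≠ 0 := (map_ne_zero_iff _ (algebraMap F Ω).injective).2 ha
  have hs10 : s1 ≠ 0 := by
    rintro rfl
    exact hs1 isAlgebraic_zero
  have hs20 : s2 ≠ 0 := by
    rintro rfl
    exact hs2 isAlgebraic_zero
  -- the first move
  have hc : tc f (algebraMap F Ω c) = fun k => algebraMap F Ω (tc f c k) :=
    (tc_map (Algebra.ofId F Ω) f c).symm
  obtain ⟨hJ, hN⟩ := gen_ne (Ω := Ω) hw (trs ha hs1)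
  rw [← hc] at hJ hN
  obtain ⟨P, Q, hPQ⟩ := val_one hf (z := algebraMap F Ω c) (A := algebraMap F Ω a * s1 ^ 2)
    (by rw [hc]; exact (map_ne_zero_iff _ (algebraMap F Ω).injective).2 h1)
    (mul_ne_zero haΩ (pow_ne_zero _ hs10)) hJ hN
  change aeval (m1 f a c s1) f = _ at hPQ
  -- the second move
  have htr := m1_tr ha h0 h1 hw hs1
  have hd : derivative f ≠ 0 := by
    intro h
    rw [tc_one, h, map_zero] at h1
    exact h1 rfl
  have hW : Wp f ≠ 0 := by
    intro h
    have h2 := Wp_eq h1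
    rw [h, map_zero] at h2
    exact (mul_ne_zero hw (pow_ne_zero _ h1)) h2
  have h1' : tc f (m1 f a c s1) 1 ≠ 0 := by
    rw [tc_one]
    exact fun h => htr ⟨_, hd, h⟩
  have hw' : vec 0 (Gs (tc f (m1 f a c s1))) 2 ≠ 0 := by
    intro h
    have h2 := Wp_eq h1'
    rw [h, zero_mul] at h2
    exact htr ⟨_, hW, h2.symm⟩
  -- the ground field of the second move
  obtain ⟨u1, hu1⟩ : ∃ u1 : IntermediateField.adjoin F {s1}, (u1 : Ω) = s1 :=
    ⟨⟨s1, IntermediateField.subset_adjoin _ _ rfl⟩, rfl⟩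
  obtain ⟨M, hM⟩ : ∃ M : IntermediateField.adjoin F {s1}, M = m1 f a c u1 := ⟨_, rfl⟩
  have hMM : (M : Ω) = m1 f a c s1 := by
    have h := m1_map (IntermediateField.adjoin F {s1}).val f a c u1
    change ((m1 f a c u1 : IntermediateField.adjoin F {s1}) : Ω) = m1 f a c (u1 : Ω) at h
    rw [hM, h, hu1]
  have htcM : tc f (m1 f a c s1) =
      fun k => algebraMap (IntermediateField.adjoin F {s1}) Ω (tc f M k) := by
    rw [← hMM]
    exact (tc_map (IntermediateField.adjoin F {s1}).val f M).symm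
  have hwM : vec 0 (Gs (tc f M)) 2 ≠ 0 := by
    intro h
    apply hw'
    have e := vec_map (algebraMap (IntermediateField.adjoin F {s1}) Ω) 0 (Gs (tc f M)) 2
    rw [h, map_zero, Gs_map, ← htcM] at e
    exact e.symm
  have h2 := trs
    ((map_ne_zero_iff _ (algebraMap F (IntermediateField.adjoin F {s1})).injective).2 ha) hs2
  rw [← IsScalarTower.algebraMap_apply] at h2
  obtain ⟨hJ', hN'⟩ := gen_ne (Ω := Ω) hwM h2
  rw [← htcM] at hJ' hN'
  obtain ⟨P', Q', hPQ'⟩ := val_one hf (z := m1 f a c s1) (A := algebraMap F Ω a * s2 ^ 2)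
    h1' (mul_ne_zero haΩ (pow_ne_zero _ hs20)) hJ' hN'
  change aeval (m2 f a c s1 s2) f = _ at hPQ'
  refine ⟨P * P' + algebraMap F Ω a * (s1 * Q) * (s2 * Q'), P * (s2 * Q') + s1 * Q * P', ?_⟩
  rw [hPQ', hPQ, aeval_algebraMap_apply]
  ring

end two

end Pool.Agent.H436.HP
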